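import Pool.Agent.Q45.ST.Dsc
import Pool.Agent.Q45.TW.Bss

/-!
# The descent over the base curve
-/

set_option autoImplicit false
set_option linter.all false

open Polynomial IsDedekindDomain WithZero
open scoped Classical

namespace Pool.Agent.Q45.ST

open Pool.Agent.Q45.TW (cst ff ff_monic ff_natDegree ff_map IsTw IsBase GoodL Cmp th pair)
open Pool.Agent.Q45.TT
open Pool.Agent.Y160.SE (IsPw)

/-- A criterion for the field of fractions. -/
theorem frac_crit {B L : Type} [CommRing B] [IsDomain B] [Field L] [Algebra B L]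
    (hinj : Function.Injective (algebraMap B L)) (S : Subfield L → Prop)
    (hall : ∀ T : Subfield L, (∀ b : B, algebraMap B L b ∈ T) → T = ⊤) : IsFractionRing B L := by
  let ψ : FractionRing B →+* L := IsFractionRing.lift hinj
  have hψ : ∀ a, ψ (algebraMap B (FractionRing B) a) = algebraMap B L a := fun a =>
    IsFractionRing.lift_algebraMap hinj a
  have hT := hall ψ.fieldRange fun b => ⟨algebraMap B _ b, hψ b⟩
  have hsurj : Function.Surjective ψ := by
    intro x
    have h6 : x ∈ ψ.fieldRange := by rw [hT]; trivial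
    exact h6
  let e : FractionRing B ≃ₐ[B] L :=
    AlgEquiv.ofBijective ({ ψ with commutes' := fun a => hψ a } : FractionRing B →ₐ[B] L)
      ⟨ψ.injective, hsurj⟩
  exact IsLocalization.isLocalization_of_algEquiv (nonZeroDivisors B) e

section base

variable {k : Type} [Field k] {g : k[X]} {cs : List k}

/-- The pair of towers for a given field `K(θ)`. -/
theorem exists_cmp (h2 : (2 : k) ≠ 0) (hg : g.Monic) (hodd : Odd g.natDegree) (hG : GoodL g cs)
    {K : Type} [Field K] [Algebra k[X] K] {y : k → K} (hB : IsBase k cs K y)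
    (L : Type) [Field L] [Algebra k[X] L] [Algebra K L] [IsScalarTower k[X] K L] (θ : L)
    (hθ : aeval θ (ff g K) = 0) (htop : IntermediateField.adjoin K {θ} = ⊤)
    (R : Type) [CommRing R] [IsDedekindDomain R] [Algebra k[X] R] [Algebra R L]
    [IsScalarTower k[X] R L] [IsFractionRing R L] [IsIntegralClosure R k[X] L] :
    ∃ (A₀ : Type) (_ : CommRing A₀) (_ : IsDedekindDomain A₀) (_ : Algebra k[X] A₀) (y₀ : k → A₀)
      (R₀ : Type) (_ : CommRing R₀) (_ : IsDedekindDomain R₀) (_ : Algebra k[X] R₀) (yR : k → R₀)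
      (_ : Algebra A₀ K) (_ : IsFractionRing A₀ K) (_ : Algebra R₀ L) (_ : IsFractionRing R₀ L),
      TW.Desc g cs A₀ R₀ y₀ yR ∧ Cmp g cs A₀ R₀ K L y₀ yR ∧ th k R₀ L = θ ∧
      (algebraMap A₀ K).comp (cst k A₀) = cst k K ∧
      ∀ v : HeightOneSpectrum R₀, ∃ w : HeightOneSpectrum R, ∀ z : L,
        w.valuation L z = v.valuation L z := by
  obtain ⟨A₀, i1, i2, i3, y₀, R₀, j1, j2, j3, yR, HA, HR, HD⟩ := TW.chain h2 hg hodd cs hG
  obtain ⟨l1, l2, l3, hy₀⟩ := IsBase.frac HA hB
  obtain ⟨α, ε, hα1, hα2, hα3, hα4⟩ := pair HA HR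
  set S := AdjoinRoot (ff g A₀) with hS
  haveI := HA.integral
  haveI : IsDomain S := ε.toMulEquiv.isDomain_iff.2 inferInstance
  haveI : IsIntegrallyClosed S := IsIntegrallyClosed.of_equiv ε.symm
  have hroot : eval₂ ((algebraMap K L).comp (algebraMap A₀ K)) θ (ff g A₀) = 0 := by
    rw [← eval₂_map, ff_map (g := g) (algebraMap A₀ K)
      (fun p => (IsScalarTower.algebraMap_apply k[X] A₀ K p).symm)]
    exact hθ
  let φ : S →+* L := AdjoinRoot.lift ((algebraMap K L).comp (algebraMap A₀ K)) θ hroot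
  letI : Algebra S L := φ.toAlgebra
  have hφA : ∀ x : A₀, algebraMap S L (AdjoinRoot.of (ff g A₀) x) =
      algebraMap K L (algebraMap A₀ K x) := fun x => AdjoinRoot.lift_of hroot
  have hφr : algebraMap S L (AdjoinRoot.root (ff g A₀)) = θ := AdjoinRoot.lift_root hroot
  haveI : IsScalarTower k[X] S L := IsScalarTower.of_algebraMap_eq fun p => by
    have h1 : algebraMap k[X] S p = AdjoinRoot.of (ff g A₀) (algebraMap k[X] A₀ p) := rfl
    rw [h1, hφA, ← IsScalarTower.algebraMap_apply k[X] A₀ K,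
      ← IsScalarTower.algebraMap_apply k[X] K L]
  haveI : Module.Finite A₀ S := (ff_monic hg hodd.pos).finite_adjoinRoot
  haveI : Algebra.IsIntegral A₀ S := Algebra.IsIntegral.of_finite A₀ S
  haveI : Algebra.IsIntegral k[X] S := Algebra.IsIntegral.trans A₀
  have hinj : Function.Injective (algebraMap S L) := by
    refine TW.inj_of_integral (S := A₀) (algebraMap S L) ?_
    have h5 : (algebraMap S L).comp (algebraMap A₀ S) = (algebraMap K L).comp (algebraMap A₀ K) :=
      RingHom.ext hφA
    rw [h5]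
    exact (algebraMap K L).injective.comp (IsFractionRing.injective A₀ K)
  haveI : IsFractionRing S L := by
    refine frac_crit hinj (fun _ => True) fun T hT => ?_
    have hKr : ∀ x : K, algebraMap K L x ∈ T := by
      intro x
      obtain ⟨a, b, -, rfl⟩ := IsFractionRing.div_surjective (A := A₀) x
      rw [map_div₀, ← hφA, ← hφA]
      exact div_mem (hT _) (hT _)
    let T' : IntermediateField K L := T.toIntermediateField hKr
    have hT' : T' = ⊤ := by
      rw [eq_top_iff, ← htop, IntermediateField.adjoin_simple_le_iff]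
      have h3 := hT (AdjoinRoot.root (ff g A₀))
      rw [hφr] at h3
      exact h3
    rw [eq_top_iff]
    rintro x -
    have h6 : x ∈ T' := by rw [hT']; trivial
    exact h6
  haveI : IsIntegralClosure S k[X] L := IsIntegralClosure.of_isIntegrallyClosed S k[X] L
  let e : S ≃+* R := (IsIntegralClosure.equiv k[X] S L R).toRingEquiv
  have he : ∀ x, algebraMap R L (e x) = algebraMap S L x := fun x =>
    IsIntegralClosure.algebraMap_equiv k[X] S L R x
  let ρ : R₀ ≃+* R := ε.symm.trans e
  letI : Algebra R₀ L := ((algebraMap R L).comp (ρ : R₀ →+* R)).toAlgebra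
  have hρ : ∀ x : R₀, algebraMap R L (ρ x) = algebraMap R₀ L x := fun x => rfl
  have hRS : ∀ x : R₀, algebraMap R₀ L x = algebraMap S L (ε.symm x) := fun x => he _
  haveI : IsFractionRing R₀ L := by
    refine frac_crit ?_ (fun _ => True) fun T hT => ?_
    · intro x y hxy
      rw [hRS, hRS] at hxy
      exact ε.symm.injective (hinj hxy)
    · have hTS : ∀ x : S, algebraMap S L x ∈ T := fun x => by
        have h3 := hT (ε x)
        rwa [hRS, ε.symm_apply_apply] at h3
      rw [eq_top_iff]
      rintro x -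
      obtain ⟨a, b, -, rfl⟩ := IsFractionRing.div_surjective (A := S) x
      exact div_mem (hTS _) (hTS _)
  have hC : Cmp g cs A₀ R₀ K L y₀ yR :=
    { HA := HA
      HR := HR
      pol := fun p => by
        rw [hRS, ← hα1, ← hα3, ε.symm_apply_apply, hφA]
      sqr := fun c hc => by
        rw [hRS, ← hα2 c hc, ← hα3, ε.symm_apply_apply, hφA] }
  have hth : th k R₀ L = θ := by
    unfold th
    rw [hRS, ← hα4, ε.symm_apply_apply, hφr]
  have hcst : (algebraMap A₀ K).comp (cst k A₀) = cst k K := RingHom.ext fun x =>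
    (IsScalarTower.algebraMap_apply k[X] A₀ K (C x)).symm
  exact ⟨A₀, i1, i2, i3, y₀, R₀, j1, j2, j3, yR, l1, l2, inferInstance, inferInstance, HD, hC, hth,
    hcst, fun v => val_equiv ρ hρ v⟩

/-- **The descent over the base curve.** -/
theorem DscA.base (h2 : (2 : k) ≠ 0) (hg : g.Monic) (hodd : Odd g.natDegree) (hG : GoodL g cs)
    {K : Type} [Field K] [Algebra k[X] K] {y : k → K} (hB : IsBase k cs K y) : DscA g cs K := by
  intro L _ _ _ _ θ hθ htop R _ _ _ _ _ _ _ z hz hev hno
  obtain ⟨A₀, i1, i2, i3, y₀, R₀, j1, j2, j3, yR, l1, l2, l4, l5, HD, hC, hth, hcst, hval⟩ :=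
    exists_cmp h2 hg hodd hG hB L θ hθ htop R
  obtain ⟨w, a, hw, ham, had, hzw⟩ := HD K L hC z hz (fun v => by
    obtain ⟨w, hw⟩ := hval v
    rw [← hw]
    exact hev w) hno
  refine ⟨w, a, hw, ham, had, ?_⟩
  rw [hzw, ← hC.ev a, hth, hcst]

end base

/-- The polynomials, without all the factors of one of the `g - c`, which become squares. -/
def SqK {k : Type} [Field k] (g : k[X]) (cs : List k) (K : Type) [Field K] [Algebra k[X] K] :
    Prop :=
  ∀ (L : Type) [Field L] [Algebra k[X] L] [Algebra K L] [IsScalarTower k[X] K L] (θ : L),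
    aeval θ (ff g K) = 0 → IntermediateField.adjoin K {θ} = ⊤ →
    ∀ (a : k[X]), a ≠ 0 → (∃ N : ℕ, a ∣ (cs.map fun c => g - C c).prod ^ N) →
      (∀ c ∈ cs, ∃ G : k[X], G.Monic ∧ Irreducible G ∧ G ∣ g - C c ∧ ¬ G ∣ a) →
      ∀ w : L, aeval θ (a.map (cst k K)) = w ^ 2 → ∃ b : k[X], a = b ^ 2

section ind

variable {k : Type} [Field k] {g : k[X]} {cs : List k}

/-- The independence over the base curve. -/
theorem SqK.base (h2 : (2 : k) ≠ 0) (hg : g.Monic) (hodd : Odd g.natDegree)
    (hd : derivative g ≠ 0) (hG : GoodL g cs) {K : Type} [Field K] [Algebra k[X] K] {y : k → K}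
    (hB : IsBase k cs K y) (hirr : Irreducible (ff g K)) (hfs : FS k K) : SqK g cs K := by
  intro L _ _ _ _ θ hθ htop a ha _ hc w hw
  have hsep : (ff g K).Separable := sep_ff hirr hd
  have hm : (ff g K).Monic := ff_monic hg hodd.pos
  have hfsL : FS k L := hfs.trans (TW.fin_of hm hθ htop) (TW.sep_of hsep hθ htop)
  obtain ⟨R, r1, r2, r3, r4, r5⟩ := exists_ic (k := k) L
  haveI := hfsL.ded R
  haveI := hfsL.frac R
  obtain ⟨A₀, i1, i2, i3, y₀, R₀, j1, j2, j3, yR, l1, l2, l4, l5, HD, hC, hth, hcst, hval⟩ :=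
    exists_cmp h2 hg hodd hG hB L θ hθ htop R
  refine TW.sq_ind (w := w) h2 hG.nodup (fun c hc => hG.sep c hc)
    (fun c _ => TW.not_unit hg hodd.pos c) hC.HR ha ?_ hc
  rw [← hw, ← hC.ev a, hth, hcst]

/-- The independence above a quadratic extension. -/
theorem SqK.step (h2 : (2 : k) ≠ 0) (hg : g.Monic) (hodd : Odd g.natDegree)
    (hd : derivative g ≠ 0) {K' K : Type} [Field K'] [Field K] [Algebra k[X] K'] [Algebra k[X] K]
    [Algebra K' K] [IsScalarTower k[X] K' K] {D : K'} {s : K} (hq : IsQuad D s) {m' : ℕ}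
    {s' : ℕ → K'} (htw : IsTower k K' m' s') (hex : OddEx g cs K' D) (ih : SqK g cs K') :
    SqK g cs K := by
  intro L _ _ _ _ θ hθ htop a ha hN hc w hw
  have hirr' : Irreducible (ff g K') := htw.irr h2 hg hodd
  haveI := hq.fin
  have hirr : Irreducible (ff g K) := by
    rw [← ff_alg (K' := K') (K := K)]
    exact irr_quad hq.finrank (ff_monic hg hodd.pos) (by rwa [ff_natDegree hg hodd.pos]) hirr'
  have hsep' : (ff g K').Separable := sep_ff hirr' hd
  have hm' : (ff g K').Monic := ff_monic hg hodd.pos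
  letI : Algebra K' L := ((algebraMap K L).comp (algebraMap K' K)).toAlgebra
  haveI : IsScalarTower K' K L := IsScalarTower.of_algebraMap_eq fun _ => rfl
  haveI : IsScalarTower k[X] K' L := IsScalarTower.of_algebraMap_eq fun p => by
    show algebraMap k[X] L p = algebraMap K L (algebraMap K' K (algebraMap k[X] K' p))
    rw [← IsScalarTower.algebraMap_apply k[X] K' K, ← IsScalarTower.algebraMap_apply k[X] K L]
  obtain ⟨L', l1, l2, l3, l4, θ', l5, l6, l7, rfl, htop'⟩ := exists_sub (k := k) (K' := K') θ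
  have hθ' : aeval θ' (ff g K') = 0 := by
    apply (algebraMap L' L).injective
    rw [← aeval_algebraMap_apply, ← aeval_map_algebraMap K, ff_alg, hθ, map_zero]
  have hfs' : FS k K' := htw.fs h2
  haveI : FiniteDimensional K' L' := TW.fin_of hm' hθ' htop'
  have hfsL' : FS k L' := hfs'.trans (TW.fin_of hm' hθ' htop') (TW.sep_of hsep' hθ' htop')
  have hqL : IsQuad (algebraMap K' L' D) (algebraMap K L s) := by
    refine quad_up hq htop' htop hm' ?_ hirr' ?_ hθ'
    · rw [ff_natDegree hg hodd.pos]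
      exact hodd.pos
    · rwa [ff_alg]
  obtain ⟨Y, hY⟩ : ∃ Y, Y = aeval θ' (a.map (cst k K')) := ⟨_, rfl⟩
  have hYL : algebraMap L' L Y = w ^ 2 := by
    rw [← hw, hY, cst_map (K' := K') (K := K), aeval_map_algebraMap, aeval_algebraMap_apply]
  obtain ⟨d, hd1 | hd1⟩ := hqL.sq_base hYL.symm
  · exact ih L' θ' hθ' htop' a ha hN hc d (by rw [← hd1, hY])
  · exfalso
    obtain ⟨R', r1, r2, r3, r4, r5⟩ := exists_ic (k := k) L'
    haveI := hfsL'.ded R'
    haveI := hfsL'.frac R'
    haveI := hfsL'.finite R'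
    obtain ⟨A', a1, a2, a3, a4, a5⟩ := exists_ic (k := k) K'
    haveI := hfs'.ded A'
    haveI := hfs'.frac A'
    haveI := hfs'.finite A'
    obtain ⟨ψ, hψ1, hψ2⟩ := exists_alg (k := k) (K' := K') (K := L') A' R'
    letI : Algebra A' R' := ψ.toAlgebra
    haveI : IsScalarTower k[X] A' R' := IsScalarTower.of_algebraMap_eq fun p => (hψ2 p).symm
    haveI : Module.Finite A' R' := Module.Finite.of_restrictScalars_finite k[X] A' R'
    haveI : Algebra.IsIntegral A' R' := Algebra.IsIntegral.of_finite A' R'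
    haveI : Module.IsTorsionFree A' R' := by
      rw [Module.isTorsionFree_iff_algebraMap_injective]
      exact tf_of (K' := K') (K := L') (IsFractionRing.injective A' K') hψ1
    haveI : Module.IsTorsionFree k[X] R' := by
      rw [Module.isTorsionFree_iff_algebraMap_injective]
      exact hfsL'.injB R'
    letI : Algebra A' L' := ((algebraMap K' L').comp (algebraMap A' K')).toAlgebra
    haveI : IsScalarTower A' K' L' := IsScalarTower.of_algebraMap_eq fun _ => rfl
    haveI : IsScalarTower A' R' L' := IsScalarTower.of_algebraMap_eq fun a => (hψ1 a).symm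
    obtain ⟨v, b, hvD, hb, hbv⟩ := hex A'
    obtain ⟨P, hP⟩ := exists_above (B := R') v
    rw [← hP] at hvD hbv
    have hbP : algebraMap k[X] R' b ∈ P.asIdeal := by
      rw [IsScalarTower.algebraMap_apply k[X] A' R']
      exact hbv
    obtain ⟨θR, hθR, hθR2, hθR3⟩ := exists_root (R := R') hg hodd.pos hθ'
    have hDP := odd_up h2 hg hodd htw hirr' hθ' htop' P hb.irr hb.inert hbP hθR2 hvD
    haveI := P.isPrime
    have hYP : eval₂ (cst k R') θR a ∉ P.asIdeal := by
      obtain ⟨N, q, hq⟩ := hN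
      intro hmem
      have h1 : eval₂ (cst k R') θR ((cs.map fun c => g - C c).prod ^ N) ∈ P.asIdeal := by
        rw [hq, eval₂_mul]
        exact P.asIdeal.mul_mem_right _ hmem
      rw [eval₂_pow] at h1
      exact not_mem_pts hb.irr hb.ne hbP hθR2 (dvd_refl _) (P.isPrime.mem_of_pow_mem _ h1)
    have hval : P.valuation L' Y = 1 := by
      rw [hY, ← hθR3, P.valuation_of_algebraMap]
      exact (P.intValuation_eq_one_iff).2 hYP
    rw [hd1, map_mul, map_pow] at hval
    apply hDP
    have hd0 : P.valuation L' d ≠ 0 := by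
      intro h0
      rw [h0, zero_pow two_ne_zero, zero_mul] at hval
      exact zero_ne_one hval
    refine ⟨(P.valuation L' d)⁻¹, ?_⟩
    rw [inv_pow]
    exact (eq_inv_of_mul_eq_one_right hval)

end ind

end Pool.Agent.Q45.ST
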