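import Pool.Agent.Q45.ST.Gd
import Pool.Agent.Q45.HI.Pts
import Pool.Agent.Q45.TD.Dens

/-!
# The good places for almost all integer vectors
-/

set_option autoImplicit false
set_option linter.all false

open Polynomial Filter Topology
open scoped Classical

namespace Pool.Agent.Q45.ST

open Pool.Agent.W275.UB
open Pool.Agent.Q45.TD (Ix gK dd dd_spec dd_map dd_of gK_map gK_monic gK_deg vv vk ei cc cc_inl cc_inr
  qq Exc fac_all dd_deg)
open Pool.Agent.Q45.HI (ud_union ud_iUnion tendsto_of_ud ud_pts ud_comp ud_zero GG GG_eq GG_map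
  hG hG_free spc_X spc)
open Q45.Tate (Zd)

section conv

variable {n r m : ℕ}

/-- Sets of vectors with the other indices. -/
theorem zd_of_ud {S : Set (Ix n r m → ℤ)} (h : ∀ ε : ℝ, 0 < ε → UD ε S) :
    Zd {v : Fin (n + (r + m)) → ℤ | vv v ∈ S} := by
  have h1 := tendsto_of_ud h
  have hc : Fintype.card (Ix n r m) = n + (r + m) := by simp
  rw [hc] at h1
  unfold Zd
  have h3 : ∀ H : ℕ, {v : Fin (n + (r + m)) → ℤ | (∀ i, |v i| ≤ (H : ℤ)) ∧
      v ∈ {v : Fin (n + (r + m)) → ℤ | vv v ∈ S}}.ncard =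
      {v : Ix n r m → ℤ | (∀ i, |v i| ≤ (H : ℤ)) ∧ v ∈ S}.ncard := by
    intro H
    refine Set.ncard_congr (fun v _ => vv v) (fun v hv => ⟨fun i => hv.1 _, hv.2⟩)
      (fun v w _ _ hvw => ?_) (fun w hw => ⟨fun i => w ((ei n r m).symm i), ⟨fun i => hw.1 _, ?_⟩, ?_⟩)
    · funext i
      have h5 := congrFun hvw ((ei n r m).symm i)
      unfold vv at h5
      rwa [Equiv.apply_symm_apply] at h5
    · show vv (fun i => w ((ei n r m).symm i)) ∈ S
      have h5 : vv (fun i => w ((ei n r m).symm i)) = w := by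
        funext i
        show w ((ei n r m).symm (ei n r m i)) = w i
        rw [Equiv.symm_apply_apply]
      rw [h5]
      exact hw.2
    · funext i
      show w ((ei n r m).symm (ei n r m i)) = w i
      rw [Equiv.symm_apply_apply]
  simp only [h3]
  exact h1

end conv

section ud

variable {k : Type} [Field k] [NumberField k] {n r m : ℕ}

/-- The integer vectors for which a coordinate has a given value. -/
theorem ud_coord {J : Type} [Fintype J] (j : J) (a : k) (ε : ℝ) (hε : 0 < ε) :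
    UD ε {v : J → ℤ | ((v j : ℤ) : k) = a} := by
  by_cases h : ∃ z : ℤ, (z : k) = a
  · obtain ⟨z, rfl⟩ := h
    have h1 : (MvPolynomial.X j - MvPolynomial.C z : MvPolynomial J ℤ) ≠ 0 := by
      intro h0
      have h3 := congrArg (MvPolynomial.eval fun _ => z + 1) h0
      rw [map_sub, MvPolynomial.eval_X, MvPolynomial.eval_C, map_zero] at h3
      omega
    refine Pool.Agent.Y706.UD_mono ?_ (ud_zero h1 hε)
    intro v hv
    have h3 : v j = z := by exact_mod_cast (show ((v j : ℤ) : k) = (z : k) from hv)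
    show MvPolynomial.eval v (MvPolynomial.X j - MvPolynomial.C z) = 0
    rw [map_sub, MvPolynomial.eval_X, MvPolynomial.eval_C, h3, sub_self]
  · refine Pool.Agent.Y706.UD_mono ?_ (Pool.Agent.Q45.HI.ud_empty ε hε)
    intro v hv
    exact absurd ⟨v j, hv⟩ h

/-- The vectors for which `b` is not a good place. -/
def Bad (n r m : ℕ) (b : k[X]) : Set (Ix n r m → ℤ) :=
  ({v | ¬ Irreducible (b.comp (-(gK fun i => ((v i : ℤ) : k))))} ∪
    ⋃ W : {W : Finset (Fin r) // W.Nonempty},
      {v | Irreducible (b.comp (-(gK fun i => ((v i : ℤ) : k)))) ∧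
        IsSquare (∏ s ∈ W.1, AdjoinRoot.mk (b.comp (-(gK fun i => ((v i : ℤ) : k))))
        (dd (gK fun i => ((v i : ℤ) : k)) ((v (Sum.inr (Sum.inl s)) : ℤ) : k)))}) ∪
    ⋃ j : Fin m, {v | ((v (Sum.inr (Sum.inr j)) : ℤ) : k) = b.coeff 0 / b.coeff 1}

theorem ud_bad (hn : 1 < n) {b : k[X]} (hb : Irreducible b) (ε : ℝ) (hε : 0 < ε) :
    UD ε (Bad n r m b) := by
  have hn0 : 0 < n := by omega
  refine ud_union (ud_union (fun ε hε => ?_) (ud_iUnion fun W ε hε => ud_pts hn hb W.2 hε))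
    (ud_iUnion fun j ε hε => ud_coord _ _ ε hε) ε hε
  have h1 := ud_comp (hG_free k n r m hn0) hb (GG_eq k n r m hn0) (gK_monic _) (by
    show 0 < (gK _).natDegree
    rw [gK_deg]
    exact hn0) hε
  refine Pool.Agent.Y706.UD_mono ?_ h1
  intro v hv
  have hmap : (GG k n r m).map (spc k v) = gK fun i => ((v i : ℤ) : k) := by
    rw [GG_map]
    congr 1
    funext i
    exact spc_X k v i
  show ¬ Irreducible (b.comp (-((GG k n r m).map (spc k v))))
  rw [hmap]
  exact hv

variable {v : Fin (n + (r + m)) → ℤ}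

/-- **The places in a finite set are good for almost all vectors.** -/
theorem goodAt_dens (hn : 1 < n) (hodd : Odd n) (hex : v ∉ Exc n r m k) {b : k[X]}
    (hb : Irreducible b) (hv : vv v ∉ Bad n r m b) {l : List (Fin r ⊕ Fin m)} (hl : l.Nodup) :
    GoodAt (gK (vk k v)) (l.map (cc (vk k v))) b := by
  have hv' := hv
  unfold Bad at hv'
  simp only [Set.mem_union, not_or] at hv'
  have e0 : (fun i => ((vv v i : ℤ) : k)) = vk k v := rfl
  have h1 : Irreducible (b.comp (-(gK (vk k v)))) := by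
    by_contra h
    exact hv'.1.1 h
  have hg : (gK (vk k v)).Monic := gK_monic _
  have hgd : (gK (vk k v)).natDegree = n := gK_deg _
  have hF : ∀ i ∈ l, TW.Fac (gK (vk k v)) (cc (vk k v)) (fun i => ∃ j, i = Sum.inl j)
      (fun i => vk k v (Sum.inr i)) (qq k v) i := fun i _ => fac_all (by omega) hex i
  have hlin : ∀ c : k, b ∣ X + C c → ∃ u : k, u ≠ 0 ∧ b = C u * (X + C c) := by
    intro c hc
    have h5 : Irreducible (X + C c : k[X]) := by
      rw [← sub_neg_eq_add, ← C_neg]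
      exact irreducible_X_sub_C _
    obtain ⟨w, hw⟩ := (hb.associated_of_dvd h5 hc).symm
    obtain ⟨u, hu, hu'⟩ := Polynomial.isUnit_iff.1 w.isUnit
    refine ⟨u, hu.ne_zero, ?_⟩
    rw [← hw, ← hu', mul_comm]
  refine goodAt_of hg (by rwa [hgd]) hl hF (fun i _ hP => ?_) hb h1 (fun i _ hc => ?_)
    fun W hW hWP hsq => ?_
  · obtain ⟨s, rfl⟩ := hP
    have hqd : (dd (gK (vk k v)) (vk k v (Sum.inr (Sum.inl s)))).natDegree + 1 = n := by
      rw [dd_deg (gK_monic _) (by rw [gK_deg]; omega), gK_deg]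
    show Even (dd (gK (vk k v)) (vk k v (Sum.inr (Sum.inl s)))).natDegree
    obtain ⟨m', hm'⟩ := hodd
    exact ⟨m', by omega⟩
  · obtain ⟨u, hu, hbu⟩ := hlin _ hc
    rcases i with s | j
    · -- a marked point
      have hf := fac_all (k := k) (by omega) hex (Sum.inl s)
      have h3 := hf.pt ⟨s, rfl⟩
      have h5 : b.comp (-(gK (vk k v))) = C (-u) * ((X - C (vk k v (Sum.inr (Sum.inl s)))) *
          qq k v (Sum.inl s)) := by
        rw [← h3, hbu, mul_comp, C_comp, add_comp, X_comp, C_comp, C_neg]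
        ring
      rw [h5, irreducible_isUnit_mul (isUnit_C.2 (isUnit_iff_ne_zero.2 (neg_ne_zero.2 hu)))] at h1
      rcases h1.isUnit_or_isUnit rfl with h6 | h6
      · exact not_isUnit_X_sub_C _ h6
      · exact hf.irr.not_isUnit h6
    · refine hv'.2 (Set.mem_iUnion.2 ⟨j, ?_⟩)
      show ((vv v (Sum.inr (Sum.inr j)) : ℤ) : k) = b.coeff 0 / b.coeff 1
      rw [cc_inr] at hbu
      have h3 : b.coeff 0 = u * vk k v (Sum.inr (Sum.inr j)) := by
        rw [hbu, coeff_C_mul, coeff_add, coeff_X_zero, coeff_C_zero, zero_add]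
      have h5 : b.coeff 1 = u := by
        rw [hbu, coeff_C_mul, coeff_add, coeff_X_one, coeff_C_succ, add_zero, mul_one]
      rw [h3, h5, mul_div_cancel_left₀ _ hu]
      rfl
  · set W' : Finset (Fin r) := Finset.univ.filter fun s => Sum.inl s ∈ W with hW'
    have hWe : W = W'.map ⟨Sum.inl, Sum.inl_injective⟩ := by
      ext i
      rw [Finset.mem_map]
      constructor
      · intro hi
        obtain ⟨-, s, rfl⟩ := hWP i hi
        exact ⟨s, Finset.mem_filter.2 ⟨Finset.mem_univ s, hi⟩, rfl⟩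
      · rintro ⟨s, hs, rfl⟩
        exact (Finset.mem_filter.1 hs).2
    have hWn : W'.Nonempty := by
      obtain ⟨i, hi⟩ := hW
      obtain ⟨-, s, rfl⟩ := hWP i hi
      exact ⟨s, Finset.mem_filter.2 ⟨Finset.mem_univ s, hi⟩⟩
    rw [hWe, Finset.prod_map] at hsq
    exact hv'.1.2 (Set.mem_iUnion.2 ⟨⟨W', hWn⟩, h1, hsq⟩)

/-- **The exceptional set.** -/
theorem zd_all (hn : 4 < n) {B : Finset k[X]} (hB : ∀ b ∈ B, Irreducible b) :
    Zd ({v | v ∈ Exc n r m k} ∪ ⋃ b : {b // b ∈ B},
      {v : Fin (n + (r + m)) → ℤ | vv v ∈ Bad n r m b.1}) := by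
  refine Zd.union (TD.exc_zd (by omega) k) (Zd.iUnion fun b => ?_)
  exact zd_of_ud fun ε hε => ud_bad (by omega) (hB b.1 b.2) ε hε

end ud

end Pool.Agent.Q45.ST
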