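import Pool.Agent.Q45.ST.Evn

/-!
# The descent above a quadratic extension
-/

set_option autoImplicit false
set_option linter.all false

open Polynomial IsDedekindDomain WithZero
open scoped Classical

namespace Pool.Agent.Q45.ST

open Pool.Agent.Q45.TW (cst ff ff_monic ff_natDegree ff_map)
open Pool.Agent.Q45.TT
open Pool.Agent.Y160.SE (IsPw)

/-- Elements of `K(θ)`, `g(θ) + t = 0`, with even valuations and with a square norm come from the
divisors of the product of the polynomials `g - c`. -/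
def DscA {k : Type} [Field k] (g : k[X]) (cs : List k) (K : Type) [Field K] [Algebra k[X] K] :
    Prop :=
  ∀ (L : Type) [Field L] [Algebra k[X] L] [Algebra K L] [IsScalarTower k[X] K L] (θ : L),
    aeval θ (ff g K) = 0 → IntermediateField.adjoin K {θ} = ⊤ →
    ∀ (R : Type) [CommRing R] [IsDedekindDomain R] [Algebra k[X] R] [Algebra R L]
      [IsScalarTower k[X] R L] [IsFractionRing R L] [IsIntegralClosure R k[X] L] (z : L),
      z ≠ 0 → (∀ w : HeightOneSpectrum R, IsPw 2 (w.valuation L z)) →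
      (∃ u : K, Algebra.norm K z = u ^ 2) →
      ∃ (w : L) (a : k[X]), w ≠ 0 ∧ a.Monic ∧ a ∣ (cs.map fun c => g - C c).prod ∧
        z = w ^ 2 * ((-1) ^ a.natDegree * aeval θ (a.map (cst k K)))

section sq

variable {k : Type} [Field k] {g : k[X]} {cs : List k}

theorem cst_map {K' K : Type} [Field K'] [Field K] [Algebra k[X] K'] [Algebra k[X] K]
    [Algebra K' K] [IsScalarTower k[X] K' K] (a : k[X]) :
    a.map (cst k K) = (a.map (cst k K')).map (algebraMap K' K) := by
  rw [Polynomial.map_map]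
  congr 1
  refine RingHom.ext fun x => ?_
  exact IsScalarTower.algebraMap_apply k[X] K' K (C x)

/-- The elements of the products of the polynomials `g - c` are squares. -/
theorem sq_list {K L : Type} [Field K] [Algebra k[X] K] [Field L] [Algebra K L] (hg : g.Monic)
    (hodd : Odd g.natDegree) {θ : L} (hθ : aeval θ (ff g K) = 0) (I : List k)
    (hI : ∀ c ∈ I, ∃ y : K, y ^ 2 = algebraMap k[X] K (X + C c)) :
    ((I.map fun c => g - C c).prod).Monic ∧
    ∃ κ : K, (-1 : L) ^ ((I.map fun c => g - C c).prod).natDegree *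
      aeval θ (((I.map fun c => g - C c).prod).map (cst k K)) = algebraMap K L κ ^ 2 := by
  induction I with
  | nil =>
    refine ⟨monic_one, 1, ?_⟩
    rw [List.map_nil, List.prod_nil, natDegree_one, pow_zero, Polynomial.map_one, map_one, map_one,
      one_pow, one_mul]
  | cons c I ih =>
    obtain ⟨hm, κ, hκ⟩ := ih fun c hc => hI c (List.mem_cons_of_mem _ hc)
    obtain ⟨y, hy⟩ := hI c List.mem_cons_self
    have hgc : (g - C c).Monic := by
      refine hg.sub_of_left (lt_of_le_of_lt degree_C_le ?_)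
      rw [degree_eq_natDegree hg.ne_zero]
      exact_mod_cast hodd.pos
    rw [List.map_cons, List.prod_cons]
    refine ⟨hgc.mul hm, y * κ, ?_⟩
    have hθ' : aeval θ ((g - C c).map (cst k K)) = -algebraMap K L (y ^ 2) := by
      rw [ff, map_add, aeval_C] at hθ
      rw [hy, Polynomial.map_sub, map_C, map_sub, aeval_C, map_add, map_add]
      have h3 : cst k K c = algebraMap k[X] K (C c) := rfl
      rw [h3]
      linear_combination hθ
    rw [hgc.natDegree_mul hm, natDegree_sub_C, pow_add, hodd.neg_one_pow, Polynomial.map_mul,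
      map_mul, hθ', map_mul, mul_pow, ← hκ, map_pow]
    ring

theorem sq_full {K L : Type} [Field K] [Algebra k[X] K] [Field L] [Algebra K L] (hg : g.Monic)
    (hodd : Odd g.natDegree) {θ : L} (hθ : aeval θ (ff g K) = 0)
    (hsq : ∀ c ∈ cs, ∃ y : K, y ^ 2 = algebraMap k[X] K (X + C c)) {a : k[X]}
    (ha : IsFull g cs a) : ∃ κ : K, (-1 : L) ^ a.natDegree * aeval θ (a.map (cst k K)) =
      algebraMap K L κ ^ 2 := by
  obtain ⟨I, hI, rfl⟩ := ha
  exact (sq_list hg hodd hθ I fun c hc => hsq c (hI.subset hc)).2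

end sq

section up

variable {k : Type} [Field k] {g : k[X]}

/-- Odd valuations at the inert places. -/
theorem odd_up (h2 : (2 : k) ≠ 0) (hg : g.Monic) (hodd : Odd g.natDegree) {K' L' : Type}
    [Field K'] [Field L'] [Algebra k[X] K'] [Algebra k[X] L'] [Algebra K' L']
    [IsScalarTower k[X] K' L'] {m' : ℕ} {s' : ℕ → K'} (htw : IsTower k K' m' s')
    (hirr' : Irreducible (ff g K')) {θ' : L'} (hθ' : aeval θ' (ff g K') = 0)
    (htop' : IntermediateField.adjoin K' {θ'} = ⊤) {A' R' : Type} [CommRing A']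
    [IsDedekindDomain A'] [Algebra k[X] A'] [Algebra A' K'] [IsScalarTower k[X] A' K']
    [IsFractionRing A' K'] [IsIntegralClosure A' k[X] K'] [CommRing R'] [IsDedekindDomain R']
    [Algebra k[X] R'] [Algebra R' L'] [IsScalarTower k[X] R' L'] [IsFractionRing R' L']
    [IsIntegralClosure R' k[X] L'] [Algebra A' R'] [IsScalarTower k[X] A' R']
    [Module.Finite A' R'] [Module.Finite k[X] R'] [Algebra.IsIntegral A' R']
    [Module.IsTorsionFree A' R'] [Module.IsTorsionFree k[X] R'] [Algebra A' L']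
    [IsScalarTower A' K' L'] [IsScalarTower A' R' L'] (P : HeightOneSpectrum R') {b : k[X]}
    (hb : Irreducible b) (hbi : Irreducible (b.comp (-g)))
    (hbP : algebraMap k[X] R' b ∈ P.asIdeal) {θR : R'}
    (hθR2 : eval₂ (cst k R') θR g = -algebraMap k[X] R' X) {D : K'}
    (hvD : ¬ IsPw 2 ((P.under A').valuation K' D)) :
    ¬ IsPw 2 (P.valuation L' (algebraMap K' L' D)) := by
  have hn : Module.finrank A' R' = g.natDegree := by
    rw [← IsFractionRing.finrank_eq A' K' R' L', TW.finrank_of hirr' (ff_monic hg hodd.pos) hθ' htop',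
      ff_natDegree hg hodd.pos]
  obtain ⟨j, hj⟩ := htw.pow h2 A' (P.under A')
  have hmap := inert_q P hb hbP θR hθR2 hbi hodd hn hj
  have hram1 : (P.under A').asIdeal.ramificationIdx' P.asIdeal = 1 := by
    by_contra hne
    have h1 := (Ideal.ramificationIdx'_ne_one_iff hmap.le).1 hne
    rw [hmap] at h1
    have h3 : P.asIdeal ^ 1 = P.asIdeal ^ 2 := by
      rw [pow_one]
      exact le_antisymm h1 (Ideal.pow_le_self two_ne_zero)
    have h4 := Ideal.pow_right_strictAnti P.asIdeal P.ne_bot P.isPrime.ne_top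
    exact absurd (h4.injective h3) (by norm_num)
  rw [val_under (A := A'), hram1, pow_one]
  exact hvD

end up

section step

variable {k : Type} [Field k] {g : k[X]} {cs : List k}

/-- **The descent in a quadratic extension.** -/
theorem DscA.step (h2 : (2 : k) ≠ 0) (hg : g.Monic) (hodd : Odd g.natDegree)
    (hd : derivative g ≠ 0) {K' K : Type} [Field K'] [Field K] [Algebra k[X] K'] [Algebra k[X] K]
    [Algebra K' K] [IsScalarTower k[X] K' K] {D : K'} {s : K} (hq : IsQuad D s) {m' : ℕ}
    {s' : ℕ → K'} (htw : IsTower k K' m' s')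
    (hsq : ∀ c ∈ cs, ∃ y : K', y ^ 2 = algebraMap k[X] K' (X + C c)) (hin : OddIn g K' D)
    (hex : OddEx g cs K' D) (ih : DscA g cs K') : DscA g cs K := by
  intro L _ _ _ _ θ hθ htop R _ _ _ _ _ _ _ z hz hev hu
  obtain ⟨u, hu⟩ := hu
  have hirr' : Irreducible (ff g K') := htw.irr h2 hg hodd
  haveI := hq.fin
  have hirr : Irreducible (ff g K) := by
    rw [← ff_alg (K' := K') (K := K)]
    exact irr_quad hq.finrank (ff_monic hg hodd.pos) (by rwa [ff_natDegree hg hodd.pos]) hirr'
  have hsep' : (ff g K').Separable := sep_ff hirr' hd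
  have hsep : (ff g K).Separable := sep_ff hirr hd
  have hm' : (ff g K').Monic := ff_monic hg hodd.pos
  have hm : (ff g K).Monic := ff_monic hg hodd.pos
  letI : Algebra K' L := ((algebraMap K L).comp (algebraMap K' K)).toAlgebra
  haveI : IsScalarTower K' K L := IsScalarTower.of_algebraMap_eq fun _ => rfl
  haveI : IsScalarTower k[X] K' L := IsScalarTower.of_algebraMap_eq fun p => by
    show algebraMap k[X] L p = algebraMap K L (algebraMap K' K (algebraMap k[X] K' p))
    rw [← IsScalarTower.algebraMap_apply k[X] K' K, ← IsScalarTower.algebraMap_apply k[X] K L]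
  obtain ⟨L', l1, l2, l3, l4, θ', l5, l6, l7, rfl, htop'⟩ := exists_sub (k := k) (K' := K') θ
  have hθ' : aeval θ' (ff g K') = 0 := by
    apply (algebraMap L' L).injective
    rw [← aeval_algebraMap_apply, ← aeval_map_algebraMap K, ff_alg, hθ, map_zero]
  have hfs' : FS k K' := htw.fs h2
  have hfs : FS k K := hfs'.trans hq.fin hq.separable
  haveI : FiniteDimensional K' L' := TW.fin_of hm' hθ' htop'
  haveI : FiniteDimensional K L := TW.fin_of hm hθ htop
  have hfsL' : FS k L' := hfs'.trans (TW.fin_of hm' hθ' htop') (TW.sep_of hsep' hθ' htop')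
  have hfsL : FS k L := hfs.trans (TW.fin_of hm hθ htop) (TW.sep_of hsep hθ htop)
  have hqL : IsQuad (algebraMap K' L' D) (algebraMap K L s) := by
    refine quad_up hq htop' htop hm' ?_ hirr' ?_ hθ'
    · rw [ff_natDegree hg hodd.pos]
      exact hodd.pos
    · rwa [ff_alg]
  haveI := hqL.fin
  obtain ⟨R', r1, r2, r3, r4, r5⟩ := exists_ic (k := k) L'
  haveI := hfsL'.ded R'
  haveI := hfsL'.frac R'
  haveI := hfsL'.finite R'
  obtain ⟨A', a1, a2, a3, a4, a5⟩ := exists_ic (k := k) K'
  haveI := hfs'.ded A'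
  haveI := hfs'.frac A'
  haveI := hfs'.finite A'
  -- the norm to `L'`
  obtain ⟨x, hx⟩ : ∃ x, x = Algebra.norm L' z := ⟨_, rfl⟩
  obtain ⟨w₁, a, hw₁, ham, had, hxa⟩ := ih L' θ' hθ' htop' R' x (by
      rw [hx]; exact (Algebra.norm_ne_zero_iff).2 hz) (fun v => by
      obtain ⟨φR, hφR1, hφR2⟩ := exists_alg (k := k) (K' := L') (K := L) R' R
      letI : Algebra R' R := φR.toAlgebra
      haveI : IsScalarTower k[X] R' R := IsScalarTower.of_algebraMap_eq fun p => (hφR2 p).symm
      haveI := hfsL.finite R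
      haveI : Module.Finite R' R := Module.Finite.of_restrictScalars_finite k[X] R' R
      haveI : Module.IsTorsionFree R' R := by
        rw [Module.isTorsionFree_iff_algebraMap_injective]
        exact tf_of (K' := L') (K := L) (IsFractionRing.injective R' L') hφR1
      letI : Algebra R' L := ((algebraMap L' L).comp (algebraMap R' L')).toAlgebra
      haveI : IsScalarTower R' L' L := IsScalarTower.of_algebraMap_eq fun _ => rfl
      haveI : IsScalarTower R' R L := IsScalarTower.of_algebraMap_eq fun a => (hφR1 a).symm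
      rw [hx]
      exact TW.norm_even (R := R) hz hev v) ⟨Algebra.norm K' u, by
      rw [hx, Algebra.norm_norm, ← map_pow, ← hu, Algebra.norm_norm]⟩
  obtain ⟨α, β, hαβ⟩ := hqL.rep z
  have hxn : α ^ 2 - β ^ 2 * algebraMap K' L' D =
      w₁ ^ 2 * ((-1) ^ a.natDegree * aeval θ' (a.map (cst k K'))) := by
    rw [← hxa, hx, hαβ, hqL.norm]
  -- the good place
  obtain ⟨ψ, hψ1, hψ2⟩ := exists_alg (k := k) (K' := K') (K := L') A' R'
  letI : Algebra A' R' := ψ.toAlgebra
  haveI : IsScalarTower k[X] A' R' := IsScalarTower.of_algebraMap_eq fun p => (hψ2 p).symm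
  haveI : Module.Finite A' R' := Module.Finite.of_restrictScalars_finite k[X] A' R'
  haveI : Algebra.IsIntegral A' R' := Algebra.IsIntegral.of_finite A' R'
  haveI : Module.IsTorsionFree A' R' := by
    rw [Module.isTorsionFree_iff_algebraMap_injective]
    exact tf_of (K' := K') (K := L') (IsFractionRing.injective A' K') hψ1
  haveI : Module.IsTorsionFree k[X] R' := by
    rw [Module.isTorsionFree_iff_algebraMap_injective]
    exact hfsL'.injB R'
  letI : Algebra A' L' := ((algebraMap K' L').comp (algebraMap A' K')).toAlgebra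
  haveI : IsScalarTower A' K' L' := IsScalarTower.of_algebraMap_eq fun _ => rfl
  haveI : IsScalarTower A' R' L' := IsScalarTower.of_algebraMap_eq fun a => (hψ1 a).symm
  obtain ⟨v, b, hvD, hb, hbv⟩ := hex A'
  obtain ⟨P, hP⟩ := exists_above (B := R') v
  rw [← hP] at hvD hbv
  have hbP : algebraMap k[X] R' b ∈ P.asIdeal := by
    rw [IsScalarTower.algebraMap_apply k[X] A' R']
    exact hbv
  obtain ⟨θR, hθR, hθR2, hθR3⟩ := exists_root (R := R') hg hodd.pos hθ'
  have hDP := odd_up h2 hg hodd htw hirr' hθ' htop' P hb.irr hb.inert hbP hθR2 hvD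
  obtain ⟨α₀, hα₀⟩ : ∃ α₀, α₀ = eval₂ (cst k R') θR a := ⟨_, rfl⟩
  have hα₀L : algebraMap R' L' α₀ = aeval θ' (a.map (cst k K')) := by rw [hα₀, hθR3]
  haveI := P.isPrime
  have hα₀P : α₀ ∉ P.asIdeal := by
    rw [hα₀]
    exact not_mem_pts hb.irr hb.ne hbP hθR2 had
  have hval : P.valuation L' ((-1) ^ a.natDegree * aeval θ' (a.map (cst k K'))) = 1 := by
    rw [map_mul, map_pow, Valuation.map_neg, map_one, one_pow, one_mul, ← hα₀L,
      P.valuation_of_algebraMap]
    exact (P.intValuation_eq_one_iff).2 hα₀P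
  obtain ⟨r, hr⟩ := loc_sq P hw₁ hval hDP hxn
  have hmem : α₀ - algebraMap A' R' ((-1) ^ a.natDegree) * r ^ 2 ∈ P.asIdeal := by
    rw [← P.intValuation_lt_one_iff_mem, ← P.valuation_of_algebraMap (K := L')]
    have e1 : algebraMap R' L' (α₀ - algebraMap A' R' ((-1) ^ a.natDegree) * r ^ 2) =
        (-1) ^ a.natDegree * ((-1) ^ a.natDegree * aeval θ' (a.map (cst k K')) -
          algebraMap R' L' r ^ 2) := by
      rw [map_sub, hα₀L, map_mul, map_pow, map_neg, map_one, map_pow, map_neg, map_one, map_pow,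
        mul_sub, ← mul_assoc, ← mul_pow, neg_one_mul, neg_neg, one_pow, one_mul]
    show P.valuation L' (algebraMap R' L' (α₀ - algebraMap A' R' ((-1) ^ a.natDegree) * r ^ 2)) < 1
    rw [e1, map_mul, map_pow, Valuation.map_neg, map_one, one_pow, one_mul]
    exact hr
  have hfull : IsFull g cs a := Pool.Agent.Q45.ST.IsTower.nsK h2 hg hodd hd htw L' θ' hθ' htop' A' R'
    (fun a => (hψ1 a).symm) P b hb hbP a ham had α₀ hα₀L _ r hmem
  obtain ⟨κ, hκ⟩ := sq_full (L := L') hg hodd hθ' hsq hfull
  have hy : Algebra.norm L' z = (w₁ * algebraMap K' L' κ) ^ 2 := by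
    rw [← hx, hxa, hκ, mul_pow]
  obtain ⟨w, ρ, c, hw, hρ, hc, hzw⟩ := reduce h2 hg hodd hq hθ' htop' htop hirr' hirr hsep' hz hu hy
  have hev' : ∀ Q : HeightOneSpectrum R, IsPw 2 (Q.valuation L (algebraMap L' L w)) := by
    intro Q
    have h1 := hev Q
    rw [hzw, map_mul, map_pow] at h1
    exact IsPw.of_mul ((Valuation.ne_zero_iff _).2 hρ) h1
  obtain ⟨w₂, a₂, hw₂, ham₂, had₂, hwa⟩ := ih L' θ' hθ' htop' R' w hw (fun q => even_allS h2 hg hodd
    hq hθ' htop' htop hirr' hirr htw hfsL' hfsL hin hw hc hev' q) ⟨c, hc⟩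
  refine ⟨algebraMap L' L w₂ * ρ, a₂, mul_ne_zero ((_root_.map_ne_zero _).2 hw₂) hρ, ham₂, had₂, ?_⟩
  rw [hzw, hwa, cst_map (K' := K') (K := K), aeval_map_algebraMap, aeval_algebraMap_apply]
  simp only [map_mul, map_pow, map_neg, map_one]
  ring

end step

end Pool.Agent.Q45.ST
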