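import Pool.Agent.Q45.TT.Val

/-!
# The local condition at an odd place, and transport of valuations
-/

set_option autoImplicit false
set_option linter.all false

open Polynomial IsDedekindDomain WithZero
open scoped Classical

namespace Pool.Agent.Q45.ST

open Pool.Agent.Y160.SE (IsPw)

/-- Transport of the valuations along an isomorphism. -/
theorem val_equiv {R₀ R L : Type} [CommRing R₀] [IsDedekindDomain R₀] [CommRing R]
    [IsDedekindDomain R] [Field L] [Algebra R₀ L] [IsFractionRing R₀ L] [Algebra R L]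
    [IsFractionRing R L] (ρ : R₀ ≃+* R) (hρ : ∀ x, algebraMap R L (ρ x) = algebraMap R₀ L x)
    (v : HeightOneSpectrum R₀) :
    ∃ w : HeightOneSpectrum R, ∀ z : L, w.valuation L z = v.valuation L z := by
  haveI := v.isPrime
  have hmap : ∀ I : Ideal R₀, I.map (ρ : R₀ →+* R) = I.comap (ρ.symm : R →+* R₀) := fun I =>
    Ideal.map_comap_of_equiv ρ
  have hne : v.asIdeal.comap (ρ.symm : R →+* R₀) ≠ ⊥ := by
    intro h0
    refine v.ne_bot ?_
    rw [eq_bot_iff]
    intro x hx
    have h1 : ρ x ∈ v.asIdeal.comap (ρ.symm : R →+* R₀) := by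
      show ρ.symm (ρ x) ∈ v.asIdeal
      rwa [ρ.symm_apply_apply]
    rw [h0, Ideal.mem_bot] at h1
    rw [Ideal.mem_bot]
    exact (map_eq_zero_iff ρ ρ.injective).1 h1
  let w : HeightOneSpectrum R := ⟨v.asIdeal.comap (ρ.symm : R →+* R₀), Ideal.comap_isPrime _ _, hne⟩
  have hpow : ∀ (n : ℕ) (r : R₀), ρ r ∈ w.asIdeal ^ n ↔ r ∈ v.asIdeal ^ n := by
    intro n r
    have h1 : w.asIdeal ^ n = (v.asIdeal ^ n).comap (ρ.symm : R →+* R₀) := by
      rw [← hmap, Ideal.map_pow, hmap]
    rw [h1]
    show ρ.symm (ρ r) ∈ v.asIdeal ^ n ↔ _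
    rw [ρ.symm_apply_apply]
  have hint : ∀ r : R₀, w.intValuation (ρ r) = v.intValuation r := by
    intro r
    rcases eq_or_ne r 0 with rfl | hr
    · rw [map_zero, map_zero, map_zero]
    have hr' : ρ r ≠ 0 := fun h => hr ((map_eq_zero_iff ρ ρ.injective).1 h)
    apply le_antisymm
    · rw [v.intValuation_eq_exp_neg_multiplicity hr, w.intValuation_le_pow_iff_mem, hpow,
        ← v.intValuation_le_pow_iff_mem, ← v.intValuation_eq_exp_neg_multiplicity hr]
    · rw [w.intValuation_eq_exp_neg_multiplicity hr', v.intValuation_le_pow_iff_mem, ← hpow,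
        ← w.intValuation_le_pow_iff_mem, ← w.intValuation_eq_exp_neg_multiplicity hr']
  refine ⟨w, fun z => ?_⟩
  obtain ⟨a, b, hb, rfl⟩ := IsFractionRing.div_surjective (A := R₀) z
  rw [map_div₀, map_div₀, v.valuation_of_algebraMap, v.valuation_of_algebraMap, ← hρ, ← hρ,
    w.valuation_of_algebraMap, w.valuation_of_algebraMap, hint, hint]

section loc

variable {R L : Type} [CommRing R] [IsDedekindDomain R] [Field L] [Algebra R L]
  [IsFractionRing R L]

/-- **The local condition at an odd place.** -/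
theorem loc_sq (P : HeightOneSpectrum R) {D α β w β₀ : L} (hw : w ≠ 0)
    (h1 : P.valuation L β₀ = 1) (hD : ¬ IsPw 2 (P.valuation L D))
    (h : α ^ 2 - β ^ 2 * D = w ^ 2 * β₀) :
    ∃ r : R, P.valuation L (β₀ - algebraMap R L r ^ 2) < 1 := by
  obtain ⟨a, ha⟩ : ∃ a, a = α / w := ⟨_, rfl⟩
  obtain ⟨b, hb⟩ : ∃ b, b = β / w := ⟨_, rfl⟩
  have hβ : a ^ 2 - b ^ 2 * D = β₀ := by
    rw [ha, hb]
    field_simp
    linear_combination h
  -- the valuation of `b ^ 2 D`
  have hD0 : D ≠ 0 := by
    rintro rfl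
    exact hD ⟨0, by rw [map_zero, zero_pow two_ne_zero]⟩
  have hne : P.valuation L (b ^ 2 * D) ≠ 1 := by
    intro h3
    rw [map_mul, map_pow] at h3
    apply hD
    have hb0 : P.valuation L b ≠ 0 := by
      intro h0
      rw [h0, zero_pow two_ne_zero, zero_mul] at h3
      exact zero_ne_one h3
    refine ⟨(P.valuation L b)⁻¹, ?_⟩
    rw [inv_pow]
    exact (eq_inv_of_mul_eq_one_right h3)
  have hlt : P.valuation L (b ^ 2 * D) < 1 := by
    by_contra hcon
    push Not at hcon
    have h3 : 1 < P.valuation L (b ^ 2 * D) := lt_of_le_of_ne hcon (Ne.symm hne)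
    -- the valuations of `a ^ 2` and `b ^ 2 D` agree
    have h4 : a ^ 2 = β₀ + b ^ 2 * D := by linear_combination hβ
    have h5 : P.valuation L (a ^ 2) = P.valuation L (b ^ 2 * D) := by
      rw [h4, add_comm]
      exact Valuation.map_add_eq_of_lt_left _ (by rw [h1]; exact h3)
    rw [map_mul, map_pow, map_pow] at h5
    apply hD
    have hb0 : P.valuation L b ≠ 0 := by
      intro h0
      rw [map_mul, map_pow, h0, zero_pow two_ne_zero, zero_mul] at h3
      exact absurd h3 (not_lt.2 zero_le_one)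
    refine ⟨P.valuation L a / P.valuation L b, ?_⟩
    rw [div_pow, h5, mul_div_cancel_left₀ _ (pow_ne_zero 2 hb0)]
  have ha1 : P.valuation L a ≤ 1 := by
    have h4 : a ^ 2 = β₀ + b ^ 2 * D := by linear_combination hβ
    have h5 : P.valuation L (a ^ 2) ≤ 1 := by
      rw [h4]
      exact (Valuation.map_add _ _ _).trans (max_le h1.le hlt.le)
    rw [map_pow] at h5
    exact (pow_le_one_iff_of_nonneg zero_le (by norm_num)).1 h5
  obtain ⟨r, hr⟩ := P.exists_valuation_sub_lt_of_integer ha1 (1 : (WithZero (Multiplicative ℤ))ˣ)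
  have hr' : P.valuation L (algebraMap R L r - a) < 1 := by simpa using hr
  refine ⟨r, ?_⟩
  have e1 : β₀ - algebraMap R L r ^ 2 = -(b ^ 2 * D) +
      (-((algebraMap R L r - a) * (algebraMap R L r + a))) := by
    rw [← hβ]
    ring
  rw [e1]
  refine (Valuation.map_add _ _ _).trans_lt (max_lt ?_ ?_)
  · rw [Valuation.map_neg]
    exact hlt
  · rw [Valuation.map_neg, map_mul]
    refine mul_lt_one_of_nonneg_of_lt_one_left zero_le hr' ?_
    exact (Valuation.map_add _ _ _).trans (max_le (P.valuation_le_one r) ha1)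

end loc

end Pool.Agent.Q45.ST
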