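import Pool.Agent.Q45.ST.NsB
import Pool.Agent.Q45.ST.Loc

/-!
# The descent above a quadratic extension
-/

set_option autoImplicit false
set_option linter.all false

open Polynomial IsDedekindDomain WithZero
open scoped Classical

namespace Pool.Agent.Q45.ST

open Pool.Agent.Q45.TW (cst ff ff_monic ff_natDegree ff_map)
open Pool.Agent.Q45.TT
open Pool.Agent.Y160.SE (IsPw)

/-- The places at which `D` has odd valuation lie over inert places. -/
def OddIn {k : Type} [Field k] (g : k[X]) (K : Type) [Field K] [Algebra k[X] K] (D : K) : Prop :=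
  ∀ (A : Type) [CommRing A] [IsDedekindDomain A] [Algebra k[X] A] [Algebra A K]
    [IsScalarTower k[X] A K] [IsFractionRing A K] [IsIntegralClosure A k[X] K]
    (v : HeightOneSpectrum A), ¬ IsPw 2 (v.valuation K D) →
    ∃ b : k[X], Irreducible b ∧ Irreducible (b.comp (-g)) ∧ (b.comp (-g)).Separable ∧
      algebraMap k[X] A b ∈ v.asIdeal

/-- There is a good place at which `D` has odd valuation. -/
def OddEx {k : Type} [Field k] (g : k[X]) (cs : List k) (K : Type) [Field K] [Algebra k[X] K]
    (D : K) : Prop :=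
  ∀ (A : Type) [CommRing A] [IsDedekindDomain A] [Algebra k[X] A] [Algebra A K]
    [IsScalarTower k[X] A K] [IsFractionRing A K] [IsIntegralClosure A k[X] K],
    ∃ (v : HeightOneSpectrum A) (b : k[X]), ¬ IsPw 2 (v.valuation K D) ∧ GoodAt g cs b ∧
      algebraMap k[X] A b ∈ v.asIdeal

section step

variable {k : Type} [Field k] {g : k[X]} {cs : List k}

/-- The even valuations of the element of the smaller field. -/
theorem even_allS (h2 : (2 : k) ≠ 0) (hg : g.Monic) (hodd : Odd g.natDegree)
    {K' K L' L : Type} [Field K'] [Field K] [Field L'] [Field L]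
    [Algebra k[X] K'] [Algebra k[X] K] [Algebra k[X] L'] [Algebra k[X] L]
    [Algebra K' K] [Algebra K' L'] [Algebra K L] [Algebra L' L] [Algebra K' L]
    [IsScalarTower K' K L] [IsScalarTower K' L' L] [IsScalarTower k[X] K' K]
    [IsScalarTower k[X] K' L'] [IsScalarTower k[X] L' L] [IsScalarTower k[X] K L]
    {D : K'} {s : K} (hq : IsQuad D s) {θ' : L'} (hθ' : aeval θ' (ff g K') = 0)
    (htop' : IntermediateField.adjoin K' {θ'} = ⊤)
    (htop : IntermediateField.adjoin K {algebraMap L' L θ'} = ⊤)
    (hirr' : Irreducible (ff g K')) (hirr : Irreducible (ff g K)) {m' : ℕ} {s' : ℕ → K'}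
    (htw : IsTower k K' m' s') (hfsL' : FS k L') (hfsL : FS k L) (hok : OddIn g K' D)
    {R' R : Type} [CommRing R'] [CommRing R] [IsDedekindDomain R'] [IsDedekindDomain R]
    [Algebra k[X] R'] [Algebra k[X] R] [Algebra R' L'] [Algebra R L] [IsScalarTower k[X] R' L']
    [IsScalarTower k[X] R L] [IsIntegralClosure R' k[X] L'] [IsIntegralClosure R k[X] L]
    [IsFractionRing R' L'] [IsFractionRing R L]
    {x : L'} (hx0 : x ≠ 0) {y : K'} (hy : Algebra.norm K' x = y ^ 2)
    (hev : ∀ w : HeightOneSpectrum R, IsPw 2 (w.valuation L (algebraMap L' L x)))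
    (q : HeightOneSpectrum R') : IsPw 2 (q.valuation L' x) := by
  have hqL : IsQuad (algebraMap K' L' D) (algebraMap K L s) := by
    refine quad_up hq htop' htop (ff_monic hg hodd.pos) ?_ hirr' ?_ hθ'
    · rw [ff_natDegree hg hodd.pos]
      exact hodd.pos
    · rwa [ff_alg]
  -- the rings
  obtain ⟨φR, hφR1, hφR2⟩ := exists_alg (k := k) (K' := L') (K := L) R' R
  letI : Algebra R' R := φR.toAlgebra
  haveI : IsScalarTower k[X] R' R := IsScalarTower.of_algebraMap_eq fun p => (hφR2 p).symm
  haveI := hfsL.finite R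
  haveI := hfsL'.finite R'
  haveI : Module.Finite R' R := Module.Finite.of_restrictScalars_finite k[X] R' R
  haveI : Algebra.IsIntegral R' R := Algebra.IsIntegral.of_finite R' R
  haveI : Module.IsTorsionFree R' R := by
    rw [Module.isTorsionFree_iff_algebraMap_injective]
    exact tf_of (K' := L') (K := L) (IsFractionRing.injective R' L') hφR1
  letI : Algebra R' L := ((algebraMap L' L).comp (algebraMap R' L')).toAlgebra
  haveI : IsScalarTower R' L' L := IsScalarTower.of_algebraMap_eq fun _ => rfl
  haveI : IsScalarTower R' R L := IsScalarTower.of_algebraMap_eq fun a => (hφR1 a).symm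
  by_cases hD : IsPw 2 (q.valuation L' (algebraMap K' L' D))
  · refine even_down (B := R) hqL ?_ q hD hev
    have h3 : (2 : R') = algebraMap k[X] R' (C 2) := by
      rw [show (C 2 : k[X]) = 2 by rw [map_ofNat], map_ofNat]
    rw [h3]
    exact (isUnit_C.2 (IsUnit.mk0 _ h2)).map _
  · -- the rings of integers of `K'` and `K`
    have hfs' : FS k K' := htw.fs h2
    obtain ⟨A', a1, a2, a3, a4, a5⟩ := exists_ic (k := k) K'
    obtain ⟨ψ, hψ1, hψ2⟩ := exists_alg (k := k) (K' := K') (K := L') A' R'
    letI : Algebra A' R' := ψ.toAlgebra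
    haveI : IsScalarTower k[X] A' R' := IsScalarTower.of_algebraMap_eq fun p => (hψ2 p).symm
    haveI := hfs'.ded A'
    haveI := hfs'.frac A'
    haveI := hfs'.finite A'
    haveI : Module.Finite A' R' := Module.Finite.of_restrictScalars_finite k[X] A' R'
    haveI : Algebra.IsIntegral A' R' := Algebra.IsIntegral.of_finite A' R'
    haveI : Algebra.IsIntegral k[X] A' := Algebra.IsIntegral.of_finite k[X] A'
    haveI : Module.IsTorsionFree A' R' := by
      rw [Module.isTorsionFree_iff_algebraMap_injective]
      exact tf_of (K' := K') (K := L') (IsFractionRing.injective A' K') hψ1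
    haveI : Module.IsTorsionFree k[X] R' := by
      rw [Module.isTorsionFree_iff_algebraMap_injective]
      exact hfsL'.injB R'
    letI : Algebra A' L' := ((algebraMap K' L').comp (algebraMap A' K')).toAlgebra
    haveI : IsScalarTower A' K' L' := IsScalarTower.of_algebraMap_eq fun _ => rfl
    haveI : IsScalarTower A' R' L' := IsScalarTower.of_algebraMap_eq fun a => (hψ1 a).symm
    set p := q.under A' with hp
    have hDp : ¬ IsPw 2 (p.valuation K' D) := by
      rintro ⟨δ, hδ⟩
      apply hD
      rw [val_under (A := A'), ← hp, hδ]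
      exact ⟨δ ^ p.asIdeal.ramificationIdx' q.asIdeal, by rw [← pow_mul, ← pow_mul, mul_comm]⟩
    obtain ⟨b, hb, hbi, -, hbp⟩ := hok A' p hDp
    obtain ⟨θR, hθR, hθR2, -⟩ := exists_root (R := R') hg hodd.pos hθ'
    have hfr : Module.finrank K' L' = g.natDegree := by
      rw [TW.finrank_of hirr' (ff_monic hg hodd.pos) hθ' htop', ff_natDegree hg hodd.pos]
    have hn : Module.finrank A' R' = g.natDegree := by
      rw [← IsFractionRing.finrank_eq A' K' R' L', hfr]
    obtain ⟨j, hj⟩ := htw.pow h2 A' p
    have hmap := inert_q q hb (show algebraMap k[X] R' b ∈ q.asIdeal by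
      rw [IsScalarTower.algebraMap_apply k[X] A' R']
      exact hbp) θR hθR2 hbi hodd hn hj
    haveI : FiniteDimensional K' L' := TW.fin_of (ff_monic hg hodd.pos) hθ' htop'
    exact even_inert p q hmap (by rw [hfr]; exact hodd) hx0 hy

end step

end Pool.Agent.Q45.ST
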