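import Pool.Agent.Q45.ST.Irr
import Pool.Agent.Q45.TT.MFin
import Pool.Agent.Q45.TW.Crt
import Pool.Agent.Q45.TW.PicI

/-!
# The conclusions for the towers above the base curve
-/

set_option autoImplicit false
set_option linter.all false

open Polynomial IsDedekindDomain WithZero UniqueFactorizationMonoid
open scoped Classical

namespace Pool.Agent.Q45.ST

open Pool.Agent.Q45.TW (cst ff ff_monic ff_natDegree ff_map IsBase GoodL IsGeom IsList Pts dv)
open Pool.Agent.Q45.TT
open Pool.Agent.Y160.SE (IsPw)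
open Pool.Agent.Q45.GP (Regular TateOver)
open Pool.Agent.Y160.SQ
open Pool.Agent.TH115.GD (Sep)
open Pool.Agent.Y160.RK (ptCl ptCl_spec spanD mem_spanD gen_iter rank_lin sum_pts)

/-- The properties of the fields in the towers above the base curve. -/
structure TwP {k : Type} [Field k] (g : k[X]) (cs : List k) (K : Type) [Field K] [Algebra k[X] K]
    (y : k → K) : Prop where
  tw : ∃ (m : ℕ) (s : ℕ → K), IsTower k K m s
  sq : ∀ c ∈ cs, y c ^ 2 = algebraMap k[X] K (X + C c)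
  dsc : DscA g cs K
  ram : RamS g K
  ind : SqK g cs K
  irr : ∀ G : k[X], G.Monic → Irreducible G → G.Separable → Irreducible (G.map (cst k K))

section all

variable {k : Type} [Field k] {g : k[X]} {cs : List k}

/-- The base curve. -/
theorem TwP.base (h2 : (2 : k) ≠ 0) (hg : g.Monic) (hodd : Odd g.natDegree)
    (hd : derivative g ≠ 0) (hG : GoodL g cs) {K : Type} [Field K] [Algebra k[X] K] {y : k → K}
    (hB : IsBase k cs K y) : TwP g cs K y := by
  obtain ⟨m, s, htw⟩ := base_tower h2 hB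
  refine ⟨⟨m, s, htw⟩, hB.sq, DscA.base h2 hg hodd hG hB,
    RamS.ofBase h2 (fun c hc => hG.sep c hc) hB,
    SqK.base h2 hg hodd hd hG hB (htw.irr h2 hg hodd) (htw.fs h2), ?_⟩
  intro G hGm hGi _
  obtain ⟨A, a1, a2, a3, a4, a5, a6, a7⟩ := TW.exists_A h2 hG.nodup hB
  obtain ⟨R, L, i1, i2, i4, i5, i6, i7, i8, θ, yA, hint, HA, hyA, hcomp, hff, hirr, hsep, hθ, htop,
    hP, hpts, i9, yR, HR, hev⟩ := TW.allData (A := A) h2 hg hodd hd hG hB
  have hcst : (algebraMap A K).comp (cst k A) = cst k K := RingHom.ext fun x =>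
    (IsScalarTower.algebraMap_apply k[X] A K (C x)).symm
  rw [← hcst]
  exact TW.irrG h2 hG.nodup HA hGm hGi

/-- The quadratic extensions. -/
theorem TwP.step (h2 : (2 : k) ≠ 0) (hg : g.Monic) (hodd : Odd g.natDegree)
    (hd : derivative g ≠ 0) {K' K : Type} [Field K'] [Field K] [Algebra k[X] K'] [Algebra k[X] K]
    [Algebra K' K] [IsScalarTower k[X] K' K] {D : K'} {s : K} (hq : IsQuad D s)
    (hin : OddIn g K' D) (hex : OddEx g cs K' D) {y : k → K'} (h : TwP g cs K' y) :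
    TwP g cs K (fun c => algebraMap K' K (y c)) := by
  obtain ⟨⟨m, s', htw⟩, hsq, hdsc, hram, hind, hirr⟩ := h
  refine ⟨⟨_, _, htw.snoc hq⟩, fun c hc => ?_, DscA.step h2 hg hodd hd hq htw
    (fun c hc => ⟨y c, hsq c hc⟩) hin hex hdsc, RamS.step h2 hq (htw.fs h2) hin.sep hram,
    SqK.step h2 hg hodd hd hq htw hex hind, fun G hGm hGi hGs =>
      irr_const hq (htw.fs h2) hex.any hGm hGs (hirr G hGm hGi hGs)⟩
  rw [← map_pow, hsq c hc, ← IsScalarTower.algebraMap_apply k[X] K' K]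

end all

section fin

variable {k : Type} [Field k] {g : k[X]} {cs : List k} {K : Type} [Field K] [Algebra k[X] K]
  {y : k → K}

theorem TwP.inj (h : TwP g cs K y) : Function.Injective (algebraMap k[X] K) := by
  obtain ⟨m, s, htw⟩ := h.tw
  exact htw.inj

theorem TwP.irrD (h : TwP g cs K y) (hsep : ∀ c ∈ cs, (g - C c).Separable) {c : k} (hc : c ∈ cs)
    {G : k[X]} (hm : G.Monic) (hi : Irreducible G) (hd : G ∣ g - C c) :
    Irreducible (G.map (cst k K)) := h.irr G hm hi ((hsep c hc).of_dvd hd)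

theorem TwP.pts (h : TwP g cs K y) (hsep : ∀ c ∈ cs, (g - C c).Separable) :
    ∀ P ∈ Pts g cs y, Irreducible P.1 ∧ P.1.Monic ∧ ¬ P.1 ∣ ff g K ∧ P.1 ∣ ff g K - P.2 ^ 2 := by
  rintro _ ⟨c, hc, G, hGm, hGi, hGd, rfl⟩
  have hirr := h.irrD hsep hc hGm hGi hGd
  have h1 : G.map (cst k K) ∣ ff g K - (C (y c)) ^ 2 := by
    rw [TW.ff_sub (h.sq c hc)]
    exact Polynomial.map_dvd _ hGd
  have hne : algebraMap k[X] K (X + C c) ≠ 0 := fun h0 =>
    X_add_C_ne_zero c (h.inj (by rw [h0, map_zero]))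
  refine ⟨hirr, hGm.map _, fun h3 => ?_, h1⟩
  have h4 : G.map (cst k K) ∣ C (algebraMap k[X] K (X + C c)) := by
    have h5 := dvd_sub h3 h1
    rw [sub_sub_cancel, ← C_pow, h.sq c hc] at h5
    exact h5
  exact hirr.not_isUnit (isUnit_of_dvd_unit h4 (isUnit_C.2 (IsUnit.mk0 _ hne)))

theorem TwP.descends (h : TwP g cs K y) : Descends g K (Pts g cs y) := by
  intro L _ _ _ _ θ hθ htop R _ _ _ _ _ _ _ z hz hev hno
  obtain ⟨w, a, hw, ham, had, hzw⟩ := h.dsc L θ hθ htop R z hz hev hno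
  obtain ⟨S, hS, hSa⟩ := TW.dvP_pts (y := y) ham had
  refine ⟨(-1) ^ a.natDegree, w, S, pow_ne_zero _ (neg_ne_zero.2 one_ne_zero), hw, hS, ?_⟩
  rw [hSa, hzw, map_pow, map_neg, map_one]
  ring

theorem TwP.gen_list (h : TwP g cs K y) (hg : g.Monic) (hg0 : 0 < g.natDegree)
    (hgd : Good 2 (-1) (ff g K)) (hsep : ∀ c ∈ cs, (g - C c).Separable) {n : ℕ}
    {Q : Fin n → k × k[X]} {G0 : k → k[X]} (hQ : IsList g cs Q G0) :
    ∀ P ∈ Pts g cs y, ptCl 2 (ff g K) P ∈ AddSubgroup.closure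
      (Set.range fun i => ptCl 2 (ff g K) (dv y (Q i))) := by
  have key : ∀ c ∈ cs, ∀ G : k[X], G.Monic → Irreducible G → G ∣ g - C c → G ≠ G0 c →
      ptCl 2 (ff g K) (dv y (c, G)) ∈ AddSubgroup.closure
      (Set.range fun i => ptCl 2 (ff g K) (dv y (Q i))) := by
    intro c hc G hm hi hd hne
    obtain ⟨i, hi'⟩ := hQ.all c hc G hm hi hd hne
    rw [← hi']
    exact AddSubgroup.subset_closure ⟨i, rfl⟩
  rintro _ ⟨c, hc, G, hm, hi, hd, rfl⟩
  by_cases hG0 : G = G0 c
  · subst hG0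
    have h1 := sum_fac' hg hg0 (hsep c hc) (h.sq c hc) (fun G hG => by
      obtain ⟨h5, h6, h7⟩ := (mem_facs (hsep c hc).ne_zero).1 hG
      exact h.irrD hsep hc h6 h5 h7) hgd
    have h3 : G0 c ∈ facs (g - C c) := (mem_facs (hsep c hc).ne_zero).2 ⟨hi, hm, hd⟩
    rw [← Finset.add_sum_erase _ _ h3] at h1
    have h4 : ptCl 2 (ff g K) (dv y (c, G0 c)) = -∑ G ∈ (facs (g - C c)).erase
        (G0 c), ptCl 2 (ff g K) (dv y (c, G)) := eq_neg_of_add_eq_zero_left h1
    show ptCl 2 (ff g K) (dv y (c, G0 c)) ∈ _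
    rw [h4]
    refine AddSubgroup.neg_mem _ (AddSubgroup.sum_mem _ fun G hG => ?_)
    obtain ⟨h5, h6⟩ := Finset.mem_erase.1 hG
    obtain ⟨h7, h8, h9⟩ := (mem_facs (hsep c hc).ne_zero).1 h6
    exact key c hc G h8 h7 h9 h5
  · exact key c hc G hm hi hd hG0

variable {A : Type} [CommRing A] [IsDedekindDomain A] [Algebra A K] [IsFractionRing A K]
  [Algebra k[X] A] [IsScalarTower k[X] A K] [IsIntegralClosure A k[X] K]

/-- **The Tate-Shafarevich group and the generation.** -/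
theorem TwP.sha_gen (h : TwP g cs K y) (h2 : (2 : k) ≠ 0) (hg : g.Monic) (hodd : Odd g.natDegree)
    (hd : derivative g ≠ 0) (hsep : ∀ c ∈ cs, (g - C c).Separable) :
    ∃ hgd : Good 2 (-1) (ff g K), Pool.Agent.Y160.SH.ShaTriv 2 2 A (ff g K) ∧
      ∀ x : Jac 2 (ff g K) K, ∃ (T : Multiset (K[X] × K[X])) (v : Jac 2 (ff g K) K),
        (∀ P ∈ T, P ∈ Pts g cs y) ∧
        x = (T.map (ptCl 2 (ff g K))).sum + pe hgd K (1 - X) v := by
  obtain ⟨m, s, htw⟩ := h.tw
  have hfs : FS k K := htw.fs h2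
  have hirr : Irreducible (ff g K) := htw.irr h2 hg hodd
  have hreg : Regular K (ff g A) := regular_of_der (htw.hasDer h2) fun v b hb hbv =>
    ⟨b, Ideal.pow_le_self two_ne_zero hbv, h.ram A v b hb hbv⟩
  exact sha_of h2 hg hodd hd hfs hirr (A := A) hreg (Pts g cs y) (h.pts hsep) h.descends

/-- **The Tate conjecture.** -/
theorem TwP.tate (h : TwP g cs K y) (h2 : (2 : k) ≠ 0) (hg : g.Monic) (hodd : Odd g.natDegree)
    (hd : derivative g ≠ 0) (hsep : ∀ c ∈ cs, (g - C c).Separable) {k' F : Type} [Field k']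
    [Algebra k k'] [IsGalois k k'] [Field F] [Algebra k'[X] F] [Algebra K F]
    (hF : IsGeom k k' K F) {A' : Type} [CommRing A'] [IsDedekindDomain A'] [Algebra A' F]
    [IsFractionRing A' F] [Algebra k'[X] A'] [IsScalarTower k'[X] A' F]
    [IsIntegralClosure A' k'[X] F] : TateOver (F := F) 2 2 A' (ff g K) := by
  obtain ⟨m, s, htw⟩ := h.tw
  have hfs : FS k K := htw.fs h2
  have hirr : Irreducible (ff g K) := htw.irr h2 hg hodd
  have h2' : (2 : k') ≠ 0 := by
    have h3 : (2 : k') = algebraMap k k' 2 := by rw [map_ofNat]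
    rw [h3]
    exact (_root_.map_ne_zero _).2 h2
  have hF' := htw.up hF
  have hirrF : Irreducible (ff (g.map (algebraMap k k')) F) := hF'.irr h2' (hg.map _)
    (by rwa [hg.natDegree_map])
  obtain ⟨A, a1, a2, a3, a4, a5⟩ := exists_ic (k := k) K
  haveI := hfs.ded A
  haveI := hfs.frac A
  exact tate_of (A := A) h2 hg hodd hd hfs hirr hirrF hF (reg_up (A := A) hF hfs (hF'.hasDer h2')
    fun w b hb hbw => h.ram A w b hb hbw) (Pts g cs y) (h.pts hsep) h.descends

/-- **The basis at `2`.** -/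
theorem TwP.basis (h : TwP g cs K y) (h2 : (2 : k) ≠ 0) (hg : g.Monic) (hodd : Odd g.natDegree)
    (hd : derivative g ≠ 0) (hsep : ∀ c ∈ cs, (g - C c).Separable) {n : ℕ}
    {Q : Fin n → k × k[X]} {G0 : k → k[X]} (hQ : IsList g cs Q G0) :
    Pool.Agent.Y160.SL.IsBasisAt (M := Jac 2 (ff g K) K) 2
      (fun i => ptCl 2 (ff g K) (dv y (Q i))) := by
  obtain ⟨m, s, htw⟩ := h.tw
  have hfs : FS k K := htw.fs h2
  have hirr : Irreducible (ff g K) := htw.irr h2 hg hodd
  obtain ⟨A, a1, a2, a3, a4, a5⟩ := exists_ic (k := k) K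
  haveI := hfs.ded A
  haveI := hfs.frac A
  obtain ⟨hgd, -, hgen⟩ := h.sha_gen (A := A) h2 hg hodd hd hsep
  obtain ⟨L, R, i1, i2, i3, i4, i5, i6, i7, i8, θ, i9, i10, i11, i12, hint, hcomp, hθ, htop, hfsL⟩ :=
    exists_field hg hodd.pos hirr hd hfs A
  set D : Fin n → Jac 2 (ff g K) K := fun i => ptCl 2 (ff g K) (dv y (Q i)) with hD
  have hspan : spanD hgd D ≤ AddSubgroup.closure (Set.range D) := by
    unfold spanD
    rw [AddSubgroup.closure_le]
    rintro _ ⟨⟨i, j⟩, rfl⟩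
    have hj : (j : ℕ) = 0 := by
      have := j.2
      omega
    show ((sg hgd K) ^ (j : ℕ)) (D i) ∈ _
    rw [hj, pow_zero]
    exact AddSubgroup.subset_closure ⟨i, rfl⟩
  have hspan' : AddSubgroup.closure (Set.range D) ≤ spanD hgd D := by
    rw [AddSubgroup.closure_le]
    rintro _ ⟨i, rfl⟩
    exact mem_spanD hgd D i
  refine ⟨?_, fun N x => ?_⟩
  · -- independence
    obtain ⟨i⟩ := Pool.Agent.Q45.GP.exists_emb hgd hθ htop
    letI : Algebra L (Sep K) := i.toRingHom.toAlgebra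
    haveI : IsScalarTower K L (Sep K) := IsScalarTower.of_algebraMap_eq fun x => (i.commutes x).symm
    haveI : Algebra.IsSeparable K (Sep K) := IsSepClosure.separable
    haveI : IsSepClosed (Sep K) := IsSepClosure.sep_closed K
    haveI : IsGalois K (Sep K) := inferInstance
    have haR : Rt (ff g K) (algebraMap L (Sep K) θ) := by
      have h1 : aeval (algebraMap L (Sep K) θ) (ff g K) = 0 := by
        rw [aeval_algebraMap_apply, hθ, map_zero]
      exact h1
    have hl := rank_lin (p := 2) (s := 0) (N := L) (Ω := Sep K) hyps hgd Pool.Agent.Y160.FT.inj_all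
      Pool.Agent.Y627.FT.stLin Nat.prime_two (by norm_num) hirr haR rfl (fun j => dv y (Q j))
      (fun j => h.pts hsep _ ⟨(Q j).1, (hQ.mem j).1, (Q j).2, (hQ.mem j).2.1, (hQ.mem j).2.2.1,
        (hQ.mem j).2.2.2.1, rfl⟩) (by
        intro e w hw0 hw j
        set N := (ff g K).natDegree with hN
        have hNodd : Odd N := by rw [hN, ff_natDegree hg hodd.pos]; exact hodd
        set a₀ : k[X] := ∏ j, (Q j).2 ^ e j with ha₀
        have ha₀0 : a₀ ≠ 0 := (hQ.mult e j Finset.univ).1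
        have hv : TW.vG (Q j).2 a₀ = e j := by
          have h1 := (hQ.mult e j Finset.univ).2
          rwa [if_pos (Finset.mem_univ j)] at h1
        have hev0 : (∏ j, aeval θ (dv y (Q j)).1 ^ e j) ^ N = aeval θ ((a₀ ^ N).map (cst k K)) := by
          rw [Polynomial.map_pow, map_pow, ha₀, Polynomial.map_prod, map_prod]
          congr 1
          refine Finset.prod_congr rfl fun j _ => ?_
          rw [Polynomial.map_pow, map_pow]
          rfl
        have hnd : ∀ c ∈ cs, ¬ G0 c ∣ a₀ ^ N := by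
          intro c hc hdv
          obtain ⟨hm, hi, hd0⟩ := hQ.base c hc
          have h1 := hi.prime.dvd_of_dvd_pow hdv
          rw [ha₀, hi.prime.dvd_finset_prod_iff] at h1
          obtain ⟨i, -, h3⟩ := h1
          have h4 := hi.prime.dvd_of_dvd_pow h3
          obtain ⟨h5, h6, h7, h8, h9⟩ := hQ.mem i
          have h10 : G0 c = (Q i).2 := eq_of_monic_of_associated hm h6 (hi.associated_of_dvd h7 h4)
          have h11 : c = (Q i).1 := TW.not_both hi hd0 (h10 ▸ h8)
          exact h9 (by rw [← h11, h10])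
        have hdiv : ∃ M : ℕ, a₀ ^ N ∣ (cs.map fun c => g - C c).prod ^ M := by
          refine ⟨(∑ j, e j) * N, ?_⟩
          rw [pow_mul]
          refine pow_dvd_pow_of_dvd ?_ N
          rw [ha₀, ← Finset.prod_pow_eq_pow_sum]
          refine Finset.prod_dvd_prod_of_dvd _ _ fun j _ => pow_dvd_pow_of_dvd ?_ _
          exact (hQ.mem j).2.2.2.1.trans (List.dvd_prod (List.mem_map_of_mem (hQ.mem j).1))
        rw [hev0] at hw
        obtain ⟨b, hb⟩ : ∃ b : k[X], a₀ ^ N = b ^ 2 ∨ -(a₀ ^ N) = b ^ 2 := by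
          rcases hw with hw | hw
          · obtain ⟨b, hb⟩ := h.ind L θ hθ htop (a₀ ^ N) (pow_ne_zero N ha₀0) hdiv
              (fun c hc => ⟨G0 c, (hQ.base c hc).1, (hQ.base c hc).2.1,
                (hQ.base c hc).2.2, hnd c hc⟩) w hw
            exact ⟨b, Or.inl hb⟩
          · obtain ⟨b, hb⟩ := h.ind L θ hθ htop (-(a₀ ^ N)) (neg_ne_zero.2 (pow_ne_zero N ha₀0))
              (by
                obtain ⟨M, hM⟩ := hdiv
                exact ⟨M, (neg_dvd).2 hM⟩)
              (fun c hc => ⟨G0 c, (hQ.base c hc).1, (hQ.base c hc).2.1,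
                (hQ.base c hc).2.2, fun h3 => hnd c hc ((dvd_neg).1 h3)⟩) w (by
                rw [Polynomial.map_neg, map_neg, hw, neg_neg])
            exact ⟨b, Or.inr hb⟩
        have h3 : N * e j = 2 * TW.vG (Q j).2 b := by
          rw [← hv, ← TW.vG_pow, ← TW.vG_pow]
          rcases hb with hb | hb
          · rw [hb]
          · rw [← hb, TW.vG_neg (pow_ne_zero N ha₀0)]
        have h4 : 2 ∣ N * e j := ⟨_, h3⟩
        exact (Nat.Coprime.dvd_of_dvd_mul_left ((Nat.coprime_two_left).2 hNodd) h4))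
    have hc := hl.comp (fun i : Fin n => ((i, ⟨0, by norm_num⟩) : Fin n × Fin (2 - 1)))
      (fun a b hab => (Prod.ext_iff.1 hab).1)
    have e1 : D = ((fun i : Fin n × Fin (2 - 1) => ((sg hgd K) ^ (i.2 : ℕ))
        (ptCl 2 (ff g K) (dv y (Q i.1)))) ∘
        (fun i : Fin n => ((i, ⟨0, by norm_num⟩) : Fin n × Fin (2 - 1)))) := by
      funext i
      show D i = ((sg hgd K) ^ 0) (D i)
      rw [pow_zero]
      rfl
    rw [e1]
    exact hc
  · -- generation
    obtain ⟨v, hv⟩ := gen_iter (m := 1) hyps hgd Nat.prime_two (by norm_num) D (fun x => by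
      obtain ⟨T, v, hT, hx⟩ := hgen x
      refine ⟨v, ?_⟩
      rw [hx, add_sub_cancel_right]
      refine AddSubgroup.multiset_sum_mem _ _ fun z hz => ?_
      obtain ⟨P, hPT, rfl⟩ := Multiset.mem_map.1 hz
      exact hspan' (h.gen_list hg hodd.pos hgd hsep hQ P (hT P hPT)))
      N x
    exact ⟨v, hspan hv⟩

/-- The classes of the divisors. -/
theorem TwP.cls (h : TwP g cs K y) (h2 : (2 : k) ≠ 0) (hg : g.Monic) (hodd : Odd g.natDegree)
    (hd : derivative g ≠ 0) (hsep : ∀ c ∈ cs, (g - C c).Separable) {c : k} (hc : c ∈ cs)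
    {G : k[X]} (hm : G.Monic) (hi : Irreducible G) (hdv : G ∣ g - C c) :
    Pool.Agent.Q45.TW.IsIdealClass (R := CR 2 ((ff g K).map (algebraMap K K)))
      (ptCl 2 (ff g K) (dv y (c, G)))
      (prI 2 ((ff g K).map (algebraMap K K)) (G.map (cst k K)) (C (y c))) := by
  obtain ⟨m, s, htw⟩ := h.tw
  have hfs : FS k K := htw.fs h2
  have hirr : Irreducible (ff g K) := htw.irr h2 hg hodd
  have hgd : Good 2 (-1) (ff g K) := TW.good h2 hg hodd hfs.inj (sep_ff hirr hd)
  exact Pool.Agent.Q45.TW.cl_class (ptCl_spec hyps hgd (P := (G.map (cst k K), C (y c)))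
    (h.irrD hsep hc hm hi hdv))

end fin

end Pool.Agent.Q45.ST
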