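import Pool.Agent.Q45.TT.Triv

/-!
# Square classes in extensions of degree at most two
-/

set_option autoImplicit false
set_option linter.all false

open Polynomial
open scoped Classical

namespace Pool.Agent.Q45.ST

open Pool.Agent.Q45.TT (IsQuad quad_up irr_quad)

/-- An extension of degree two is generated by a square root. -/
theorem exists_quad {κ κ' : Type} [Field κ] [Field κ'] [Algebra κ κ'] (h2 : (2 : κ) ≠ 0)
    (h : Module.finrank κ κ' = 2) : ∃ (δ : κ) (s : κ'), IsQuad δ s := by
  haveI : FiniteDimensional κ κ' := Module.finite_of_finrank_pos (by omega)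
  obtain ⟨x, hx⟩ : ∃ x : κ', ∀ y : κ, algebraMap κ κ' y ≠ x := by
    by_contra hcon
    push Not at hcon
    have hs : Function.Surjective (algebraMap κ κ') := hcon
    let e : κ ≃ₗ[κ] κ' := LinearEquiv.ofBijective (Algebra.linearMap κ κ')
      ⟨(algebraMap κ κ').injective, hs⟩
    have h1 := e.finrank_eq
    rw [Module.finrank_self, h] at h1
    omega
  have hint : IsIntegral κ x := IsIntegral.of_finite κ x
  have h1 := IntermediateField.adjoin.finrank hint
  have hd : Module.finrank κ (IntermediateField.adjoin κ {x}) ∣ 2 := by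
    rw [← h]
    exact ⟨_, (Module.finrank_mul_finrank κ (IntermediateField.adjoin κ {x}) κ').symm⟩
  have hne : (minpoly κ x).natDegree ≠ 1 := by
    intro h0
    obtain ⟨y, hy⟩ := minpoly.natDegree_eq_one_iff.1 h0
    exact hx y hy
  have hdeg : (minpoly κ x).natDegree = 2 := by
    rw [h1] at hd
    rcases (Nat.dvd_prime Nat.prime_two).1 hd with h3 | h3
    · exact absurd h3 hne
    · exact h3
  have htop : IntermediateField.adjoin κ {x} = ⊤ := by
    apply IntermediateField.eq_of_le_of_finrank_eq le_top
    rw [h1, hdeg, IntermediateField.finrank_top', h]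
  set P := minpoly κ x with hP
  have hPm : P.Monic := minpoly.monic hint
  have hPe : P = X ^ 2 + C (P.coeff 1) * X + C (P.coeff 0) := by
    have h3 := P.as_sum_range_C_mul_X_pow
    rw [hdeg, Finset.sum_range_succ, Finset.sum_range_succ, Finset.sum_range_one] at h3
    have h4 : P.coeff 2 = 1 := by
      have := hPm.coeff_natDegree
      rwa [hdeg] at this
    rw [h4, C_1] at h3
    rw [h3]
    simp only [coeff_add, coeff_C_mul, coeff_X_pow, coeff_one]
    simp
    ring
  have hroot : x ^ 2 + algebraMap κ κ' (P.coeff 1) * x + algebraMap κ κ' (P.coeff 0) = 0 := by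
    have h3 := minpoly.aeval κ x
    rw [← hP, hPe] at h3
    simp only [map_add, map_mul, map_pow, aeval_X, aeval_C] at h3
    exact h3
  set b := P.coeff 1 with hb
  set c := P.coeff 0 with hc
  refine ⟨(b / 2) ^ 2 - c, x + algebraMap κ κ' (b / 2), h2, ?_, fun y hy => ?_, ?_⟩
  · have h3 : algebraMap κ κ' b = 2 * algebraMap κ κ' (b / 2) := by
      rw [← map_ofNat (algebraMap κ κ') 2, ← map_mul, mul_div_cancel₀ _ h2]
    rw [map_sub, map_pow]
    rw [h3] at hroot
    linear_combination hroot
  · refine hx (y - b / 2) ?_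
    rw [map_sub, hy]
    ring
  · rw [eq_top_iff, ← htop, IntermediateField.adjoin_simple_le_iff]
    have h3 : x = (x + algebraMap κ κ' (b / 2)) - algebraMap κ κ' (b / 2) := by ring
    rw [h3]
    have h4 : (x + algebraMap κ κ' (b / 2) - algebraMap κ κ' (b / 2)) + algebraMap κ κ' (b / 2) =
        x + algebraMap κ κ' (b / 2) := by ring
    rw [h4]
    exact sub_mem (IntermediateField.mem_adjoin_simple_self κ _)
      (IntermediateField.algebraMap_mem _ _)

/-- **Descent of the square classes.** -/
theorem desc_class {κ κ' F F' : Type} [Field κ] [Field κ'] [Field F] [Field F'] [Algebra κ κ']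
    [Algebra κ F] [Algebra κ' F'] [Algebra F F'] [Algebra κ F'] [IsScalarTower κ κ' F']
    [IsScalarTower κ F F'] {f : κ[X]} (hm : f.Monic) (hodd : Odd f.natDegree)
    (hirr : Irreducible f) (hsep : f.Separable) {θ : F} (hθ : aeval θ f = 0)
    (htop : IntermediateField.adjoin κ {θ} = ⊤)
    (htop' : IntermediateField.adjoin κ' {algebraMap F F' θ} = ⊤) (h2 : (2 : κ) ≠ 0)
    [FiniteDimensional κ κ'] (hle : Module.finrank κ κ' ≤ 2) {α : F} (hα : α ≠ 0) {d' : κ'} {h' : F'}
    (h : algebraMap F F' α = algebraMap κ' F' d' * h' ^ 2) :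
    ∃ (d : κ) (h : F), α = algebraMap κ F d * h ^ 2 := by
  have hpos : 0 < Module.finrank κ κ' := Module.finrank_pos
  have hcases : Module.finrank κ κ' = 1 ∨ Module.finrank κ κ' = 2 := by omega
  rcases hcases with h1 | h1
  · -- the same field
    have hsur : Function.Surjective (algebraMap κ κ') := by
      intro x
      have h3 : x ∈ (⊥ : Subalgebra κ κ') := by
        rw [Subalgebra.bot_eq_top_iff_finrank_eq_one.2 h1]
        trivial
      exact Algebra.mem_bot.1 h3
    have h3 : ∀ x : κ', algebraMap κ' F' x ∈ (algebraMap F F').fieldRange := by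
      intro x
      obtain ⟨y, rfl⟩ := hsur x
      rw [← IsScalarTower.algebraMap_apply κ κ' F', IsScalarTower.algebraMap_apply κ F F']
      exact ⟨_, rfl⟩
    let T : IntermediateField κ' F' := (algebraMap F F').fieldRange.toIntermediateField h3
    have hT : T = ⊤ := by
      rw [eq_top_iff, ← htop', IntermediateField.adjoin_simple_le_iff]
      exact ⟨θ, rfl⟩
    have hsurF : Function.Surjective (algebraMap F F') := by
      intro x
      have h5 : x ∈ T := by rw [hT]; trivial
      exact h5
    obtain ⟨d, rfl⟩ := hsur d'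
    obtain ⟨y, rfl⟩ := hsurF h'
    refine ⟨d, y, (algebraMap F F').injective ?_⟩
    rw [h, map_mul, map_pow, ← IsScalarTower.algebraMap_apply κ κ' F',
      ← IsScalarTower.algebraMap_apply κ F F']
  · obtain ⟨δ, s, hq⟩ := exists_quad h2 h1
    have hirr' : Irreducible (f.map (algebraMap κ κ')) := irr_quad h1 hm hodd hirr
    have hqF : IsQuad (algebraMap κ F δ) (algebraMap κ' F' s) :=
      quad_up hq htop htop' hm hodd.pos hirr hirr' hθ
    haveI : FiniteDimensional κ F := TW.fin_of hm hθ htop
    have hθ' : aeval (algebraMap F F' θ) (f.map (algebraMap κ κ')) = 0 := by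
      rw [aeval_map_algebraMap, aeval_algebraMap_apply, hθ, map_zero]
    haveI : FiniteDimensional κ' F' := TW.fin_of (hm.map _) hθ' htop'
    have hno := TW.norm_base hm hsep hirr hirr' hθ htop htop' α
    have hfr : Module.finrank κ' F' = f.natDegree := by
      rw [TW.finrank_of hirr' (hm.map _) hθ' htop', hm.natDegree_map]
    obtain ⟨e, he⟩ := hodd
    have hα' : algebraMap F F' α ≠ 0 := (_root_.map_ne_zero _).2 hα
    have hd' : d' ≠ 0 := by
      rintro rfl
      rw [map_zero, zero_mul] at h
      exact hα' h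
    have hh' : h' ≠ 0 := by
      rintro rfl
      rw [zero_pow two_ne_zero, mul_zero] at h
      exact hα' h
    have hNh : Algebra.norm κ' h' ≠ 0 := (Algebra.norm_ne_zero_iff).2 hh'
    have hNα : Algebra.norm κ α ≠ 0 := (Algebra.norm_ne_zero_iff).2 hα
    rw [h, map_mul, map_pow, Algebra.norm_algebraMap, hfr, he] at hno
    -- `α / N α` is a square in `F'`
    have h3 : (h' * algebraMap κ' F' (d' ^ (e + 1) * Algebra.norm κ' h' /
        algebraMap κ κ' (Algebra.norm κ α))) ^ 2 = algebraMap F F' (α / algebraMap κ F (Algebra.norm κ α)) := by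
      have hne : algebraMap κ' F' (algebraMap κ κ' (Algebra.norm κ α)) ≠ 0 :=
        (_root_.map_ne_zero _).2 ((_root_.map_ne_zero _).2 hNα)
      have e2 : algebraMap F F' (α / algebraMap κ F (Algebra.norm κ α)) =
          algebraMap F F' α / algebraMap κ' F' (algebraMap κ κ' (Algebra.norm κ α)) := by
        rw [map_div₀, ← IsScalarTower.algebraMap_apply κ F F', IsScalarTower.algebraMap_apply κ κ' F']
      rw [e2, h, map_div₀, mul_pow, div_pow, mul_div_assoc', div_eq_div_iff (pow_ne_zero 2 hne) hne]
      have e3 : algebraMap κ' F' (algebraMap κ κ' (Algebra.norm κ α)) =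
          algebraMap κ' F' d' ^ (2 * e + 1) * algebraMap κ' F' (Algebra.norm κ' h') ^ 2 := by
        rw [← hno, map_mul, map_pow, map_pow]
      rw [e3, map_mul, map_pow]
      ring
    obtain ⟨c, hc | hc⟩ := hqF.sq_base h3
    · refine ⟨Algebra.norm κ α, c, ?_⟩
      rw [← hc, mul_div_cancel₀]
      exact (_root_.map_ne_zero _).2 hNα
    · refine ⟨Algebra.norm κ α * δ, c, ?_⟩
      have hne : algebraMap κ F (Algebra.norm κ α) ≠ 0 := (_root_.map_ne_zero _).2 hNα
      rw [div_eq_iff hne] at hc
      rw [map_mul]
      linear_combination hc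

end Pool.Agent.Q45.ST
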