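import Pool.Agent.Q45.ST.Nsq
import Pool.Agent.Q45.TW.Pt

/-!
# A criterion for good places
-/

set_option autoImplicit false
set_option linter.all false

open Polynomial
open scoped Classical

namespace Pool.Agent.Q45.ST

open Pool.Agent.Q45.TW (Fac Bf Bf_monic monic_fac prod_symm sub_monic list_of_finset norm_dvd)

section fields

variable {k : Type} [Field k] {b g : k[X]}

theorem root_comp (b g : k[X]) : eval₂ (AdjoinRoot.of (b.comp (-g)))
    (-(AdjoinRoot.mk (b.comp (-g)) g)) b = 0 := by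
  have h1 : eval₂ (AdjoinRoot.of (b.comp (-g))) (AdjoinRoot.root (b.comp (-g))) (b.comp (-g)) = 0 :=
    AdjoinRoot.eval₂_root _
  rw [eval₂_comp, eval₂_neg] at h1
  have h3 : eval₂ (AdjoinRoot.of (b.comp (-g))) (AdjoinRoot.root (b.comp (-g))) g =
      AdjoinRoot.mk (b.comp (-g)) g := AdjoinRoot.aeval_eq g
  rwa [h3] at h1

/-- The map of the fields. -/
noncomputable def ek (b g : k[X]) : AdjoinRoot b →+* AdjoinRoot (b.comp (-g)) :=
  AdjoinRoot.lift (AdjoinRoot.of (b.comp (-g))) (-(AdjoinRoot.mk (b.comp (-g)) g)) (root_comp b g)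

theorem ek_of (a : k) : ek b g (AdjoinRoot.of b a) = AdjoinRoot.of (b.comp (-g)) a :=
  AdjoinRoot.lift_of _

theorem ek_root : ek b g (AdjoinRoot.root b) = -(AdjoinRoot.mk (b.comp (-g)) g) :=
  AdjoinRoot.lift_root _

theorem ek_mk (d : k[X]) : ek b g (AdjoinRoot.mk b d) = AdjoinRoot.mk (b.comp (-g)) (d.comp (-g)) := by
  rw [ek, AdjoinRoot.lift_mk]
  have h3 : ∀ p, eval₂ (AdjoinRoot.of (b.comp (-g))) (AdjoinRoot.root (b.comp (-g))) p =
      AdjoinRoot.mk (b.comp (-g)) p := fun p => AdjoinRoot.aeval_eq p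
  rw [← h3 (d.comp (-g)), eval₂_comp, eval₂_neg, h3]

variable [Fact (Irreducible b)] [Fact (Irreducible (b.comp (-g)))]

/-- The polynomial over the smaller field. -/
theorem gen_data (hg : g.Monic) (hg0 : 0 < g.natDegree) :
    letI := (ek b g).toAlgebra
    Irreducible (g.map (AdjoinRoot.of b) + C (AdjoinRoot.root b)) ∧
      aeval (AdjoinRoot.root (b.comp (-g))) (g.map (AdjoinRoot.of b) + C (AdjoinRoot.root b)) = 0 ∧
      IntermediateField.adjoin (AdjoinRoot b) {AdjoinRoot.root (b.comp (-g))} = ⊤ ∧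
      Module.finrank (AdjoinRoot b) (AdjoinRoot (b.comp (-g))) = g.natDegree := by
  letI iA := (ek b g).toAlgebra
  have hb : Irreducible b := Fact.out
  have hbg : Irreducible (b.comp (-g)) := Fact.out
  haveI : IsScalarTower k (AdjoinRoot b) (AdjoinRoot (b.comp (-g))) :=
    IsScalarTower.of_algebraMap_eq fun a => by
      show AdjoinRoot.of (b.comp (-g)) a = ek b g (AdjoinRoot.of b a)
      rw [ek_of]
  set θ := AdjoinRoot.root (b.comp (-g)) with hθ
  set f : (AdjoinRoot b)[X] := g.map (AdjoinRoot.of b) + C (AdjoinRoot.root b) with hf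
  have h1 : aeval θ f = 0 := by
    rw [hf, aeval_def]
    show eval₂ (ek b g) θ _ = 0
    rw [eval₂_add, eval₂_map, eval₂_C, ek_root]
    have h3 : (ek b g).comp (AdjoinRoot.of b) = AdjoinRoot.of (b.comp (-g)) :=
      RingHom.ext fun a => ek_of a
    have h4 : eval₂ (AdjoinRoot.of (b.comp (-g))) θ g = AdjoinRoot.mk (b.comp (-g)) g :=
      AdjoinRoot.aeval_eq g
    rw [h3, h4, add_neg_cancel]
  have hm : f.Monic := by
    refine (hg.map _).add_of_left ?_
    refine lt_of_le_of_lt degree_C_le ?_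
    rw [degree_map]
    exact natDegree_pos_iff_degree_pos.1 hg0
  have hdf : f.natDegree = g.natDegree := by
    rw [hf, natDegree_add_C, hg.natDegree_map]
  have htop : IntermediateField.adjoin (AdjoinRoot b) {θ} = ⊤ := by
    rw [eq_top_iff]
    intro z _
    obtain ⟨p, rfl⟩ := AdjoinRoot.mk_surjective z
    have h4 : eval₂ (AdjoinRoot.of (b.comp (-g))) θ p = AdjoinRoot.mk (b.comp (-g)) p :=
      AdjoinRoot.aeval_eq p
    rw [← h4, eval₂_eq_sum_range]
    refine sum_mem fun i _ => mul_mem ?_ (pow_mem (IntermediateField.mem_adjoin_simple_self _ _) _)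
    rw [← ek_of]
    exact IntermediateField.algebraMap_mem _ _
  have hκ : Module.finrank k (AdjoinRoot b) = b.natDegree := by
    rw [(AdjoinRoot.powerBasis hb.ne_zero).finrank, AdjoinRoot.powerBasis_dim]
  have hE : Module.finrank k (AdjoinRoot (b.comp (-g))) = b.natDegree * g.natDegree := by
    rw [(AdjoinRoot.powerBasis hbg.ne_zero).finrank, AdjoinRoot.powerBasis_dim, natDegree_comp,
      natDegree_neg]
  haveI : FiniteDimensional k (AdjoinRoot b) := Module.finite_of_finrank_pos (by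
    rw [hκ]
    exact hb.natDegree_pos)
  haveI : FiniteDimensional k (AdjoinRoot (b.comp (-g))) := Module.finite_of_finrank_pos (by
    rw [hE]
    exact Nat.mul_pos hb.natDegree_pos hg0)
  haveI : FiniteDimensional (AdjoinRoot b) (AdjoinRoot (b.comp (-g))) :=
    Module.Finite.of_restrictScalars_finite k _ _
  have hκE : Module.finrank (AdjoinRoot b) (AdjoinRoot (b.comp (-g))) = g.natDegree := by
    have h5 := Module.finrank_mul_finrank k (AdjoinRoot b) (AdjoinRoot (b.comp (-g)))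
    rw [hκ, hE] at h5
    exact Nat.eq_of_mul_eq_mul_left hb.natDegree_pos h5
  have hint : IsIntegral (AdjoinRoot b) θ := ⟨f, hm, h1⟩
  have h6 : (minpoly (AdjoinRoot b) θ).natDegree = g.natDegree := by
    have h7 := IntermediateField.adjoin.finrank hint
    rw [htop, IntermediateField.finrank_top', hκE] at h7
    exact h7.symm
  have h8 : minpoly (AdjoinRoot b) θ = f :=
    (eq_of_monic_of_dvd_of_natDegree_le (minpoly.monic hint) hm (minpoly.dvd _ _ h1)
      (by rw [h6, hdf])).symm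
  refine ⟨?_, h1, htop, hκE⟩
  rw [← h8]
  exact minpoly.irreducible hint

/-- **The square classes.** -/
theorem sq_of [CharZero k] (hg : g.Monic) (hodd : Odd g.natDegree) {ι : Type} (W : Finset ι)
    (c : ι → k) (q : ι → k[X]) (hq : ∀ i ∈ W, (q i).Monic ∧ q i ∣ g - C (c i) ∧
      Even (q i).natDegree) {e : AdjoinRoot b} {z : AdjoinRoot (b.comp (-g))}
    (h0 : ∏ i ∈ W, AdjoinRoot.mk (b.comp (-g)) (q i) ≠ 0)
    (h : ∏ i ∈ W, AdjoinRoot.mk (b.comp (-g)) (q i) = ek b g e * z ^ 2) :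
    IsSquare (∏ i ∈ W, AdjoinRoot.mk (b.comp (-g)) (q i)) := by
  obtain ⟨a1, a2, a3, a4⟩ := gen_data (b := b) hg hodd.pos
  letI iA := (ek b g).toAlgebra
  have hinj : Function.Injective (AdjoinRoot.of b) := (AdjoinRoot.of b).injective
  haveI : CharZero (AdjoinRoot b) := charZero_of_injective_ringHom hinj
  have hsep := a1.separable
  have hN : ∀ i ∈ W, ∃ s : AdjoinRoot b,
      Algebra.norm (AdjoinRoot b) (AdjoinRoot.mk (b.comp (-g)) (q i)) = s ^ 2 := by
    intro i hi
    obtain ⟨b1, b2, b3⟩ := hq i hi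
    have h1 := norm_dvd (AdjoinRoot.of b) (AdjoinRoot.root b) hg hodd.pos a1 hsep a2 a3 b1 b2
    obtain ⟨m, hm⟩ := b3
    have h3 : aeval (AdjoinRoot.root (b.comp (-g))) ((q i).map (AdjoinRoot.of b)) =
        AdjoinRoot.mk (b.comp (-g)) (q i) := by
      rw [aeval_def, eval₂_map]
      have h3 : (algebraMap (AdjoinRoot b) (AdjoinRoot (b.comp (-g)))).comp (AdjoinRoot.of b) =
          AdjoinRoot.of (b.comp (-g)) := RingHom.ext fun a => ek_of a
      rw [h3]
      exact AdjoinRoot.aeval_eq (q i)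
    rw [h3, hm, ← two_mul, pow_mul, neg_one_sq, one_pow, one_mul] at h1
    exact ⟨(AdjoinRoot.root b + AdjoinRoot.of b (c i)) ^ m, by rw [h1]; ring⟩
  choose! s hs using hN
  have h1 := congrArg (Algebra.norm (AdjoinRoot b)) h
  have h3 : Algebra.norm (AdjoinRoot b) (ek b g e) = e ^ g.natDegree := by
    rw [← a4]
    exact Algebra.norm_algebraMap e
  rw [map_prod, Finset.prod_congr rfl hs, Finset.prod_pow, map_mul, h3, map_pow] at h1
  have hez : ek b g e * z ^ 2 ≠ 0 := by rw [← h]; exact h0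
  have he0 : e ≠ 0 := by
    rintro rfl
    rw [map_zero, zero_mul] at hez
    exact hez rfl
  have hz0 : z ≠ 0 := by
    rintro rfl
    exact hez (by ring)
  haveI : FiniteDimensional (AdjoinRoot b) (AdjoinRoot (b.comp (-g))) :=
    Module.finite_of_finrank_pos (by rw [a4]; exact hodd.pos)
  have hNz : Algebra.norm (AdjoinRoot b) z ≠ 0 := Algebra.norm_ne_zero_iff.2 hz0
  obtain ⟨m, hm⟩ := hodd
  have h5 : e = ((∏ i ∈ W, s i) / (Algebra.norm (AdjoinRoot b) z * e ^ m)) ^ 2 := by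
    rw [div_pow, eq_div_iff (pow_ne_zero _ (mul_ne_zero hNz (pow_ne_zero _ he0))), h1, hm]
    ring
  rw [h, h5, map_pow]
  exact ⟨ek b g ((∏ i ∈ W, s i) / (Algebra.norm (AdjoinRoot b) z * e ^ m)) * z, by ring⟩

end fields

section good

variable {k : Type} [Field k] [CharZero k] {b g : k[X]} {ι : Type} {c : ι → k} {P : ι → Prop}
  {x : ι → k} {q : ι → k[X]} {l : List ι}

/-- **A criterion for good places.** -/
theorem goodAt_of (hg : g.Monic) (hodd : Odd g.natDegree) (hl : l.Nodup)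
    (hF : ∀ i ∈ l, Fac g c P x q i) (hev : ∀ i ∈ l, P i → Even (q i).natDegree)
    (hb : Irreducible b) (hirr : Irreducible (b.comp (-g))) (hne : ∀ i ∈ l, ¬ b ∣ X + C (c i))
    (hns : ∀ W : Finset ι, W.Nonempty → (∀ i ∈ W, i ∈ l ∧ P i) →
      ¬ IsSquare (∏ i ∈ W, AdjoinRoot.mk (b.comp (-g)) (q i))) : GoodAt g (l.map c) b := by
  haveI : Fact (Irreducible b) := ⟨hb⟩
  haveI : Fact (Irreducible (b.comp (-g))) := ⟨hirr⟩
  refine ⟨hb, hirr, hirr.separable, fun c' hc' => ?_, fun a ha hd d h hdv => ?_⟩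
  · obtain ⟨i, hi, rfl⟩ := List.mem_map.1 hc'
    exact hne i hi
  have hd' : a ∣ ∏ i ∈ l.toFinset, (g - C (c i)) := by
    rw [List.prod_toFinset _ hl]
    rw [List.map_map] at hd
    exact hd
  obtain ⟨U, V, hU, hV, hUP, e1⟩ := monic_fac hg hodd.pos l.toFinset
    (fun i hi => hF i (List.mem_toFinset.1 hi)) a ha hd'
  set M := AdjoinRoot.mk (b.comp (-g)) with hM
  set VP := V.filter P with hVP
  set VN := V.filter (fun i => ¬ P i) with hVN
  have hVs : ∀ {R : Type} [CommMonoid R] (f : ι → R), ∏ i ∈ V, f i = (∏ i ∈ VP, f i) * ∏ i ∈ VN, f i :=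
    fun f => (Finset.prod_filter_mul_prod_filter_not V P f).symm
  have hUl : ∀ i ∈ U, i ∈ l := fun i hi => List.mem_toFinset.1 (hU hi)
  have hVl : ∀ i ∈ V, i ∈ l := fun i hi => List.mem_toFinset.1 (hV hi)
  by_cases hUV : U = VP
  · -- the full products
    have e3 : a = ∏ i ∈ V, (g - C (c i)) := by
      rw [e1, hVs, hVs, hUV, ← mul_assoc, ← Finset.prod_mul_distrib]
      congr 1
      · refine Finset.prod_congr rfl fun i hi => ?_
        rw [(hF i (hVl i (Finset.mem_of_mem_filter i hi))).eq]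
      · refine Finset.prod_congr rfl fun i hi => ?_
        rw [(hF i (hVl i (Finset.mem_of_mem_filter i hi))).npt (Finset.mem_filter.1 hi).2]
    obtain ⟨l', hl', e4⟩ := list_of_finset hl V hV
    refine ⟨l'.map c, hl'.map c, ?_⟩
    rw [List.map_map, e3, ← e4]
    rfl
  · exfalso
    set W := symmDiff U VP with hW
    have hWne : W.Nonempty := by
      rw [Finset.nonempty_iff_ne_empty]
      intro h0
      exact hUV (symmDiff_eq_bot.1 h0)
    have hWm : ∀ i ∈ W, i ∈ l ∧ P i := by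
      intro i hi
      rcases Finset.mem_symmDiff.1 hi with h1 | h1
      · exact ⟨hUl i h1.1, hUP i h1.1⟩
      · exact ⟨hVl i (Finset.mem_of_mem_filter i h1.1), (Finset.mem_filter.1 h1.1).2⟩
    -- the values of `g - c`
    set γ : ι → AdjoinRoot b := fun i => -(AdjoinRoot.root b) - AdjoinRoot.of b (c i) with hγ
    have hγM : ∀ i, M (g - C (c i)) = ek b g (γ i) := by
      intro i
      rw [hγ]
      simp only
      rw [map_sub, map_sub, map_neg, ek_root, ek_of, neg_neg, hM, AdjoinRoot.mk_C]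
    have hγ0 : ∀ i ∈ l, γ i ≠ 0 := by
      intro i hi h0
      apply hne i hi
      rw [← AdjoinRoot.mk_eq_zero, map_add, AdjoinRoot.mk_X, AdjoinRoot.mk_C]
      have h1 : γ i = -(AdjoinRoot.root b + AdjoinRoot.of b (c i)) := by
        rw [hγ]
        ring
      rw [h1, neg_eq_zero] at h0
      exact h0
    have hfac : ∀ i ∈ l, M (Bf P x i) * M (q i) = ek b g (γ i) := by
      intro i hi
      rw [← map_mul, ← (hF i hi).eq, hγM]
    have hek0 : ∀ i ∈ l, ek b g (γ i) ≠ 0 := fun i hi => (_root_.map_ne_zero _).2 (hγ0 i hi)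
    have hq0 : ∀ i ∈ l, M (q i) ≠ 0 := fun i hi h0 => hek0 i hi (by rw [← hfac i hi, h0, mul_zero])
    have hVNg : ∏ i ∈ VN, M (q i) = ek b g (∏ i ∈ VN, γ i) := by
      rw [map_prod]
      refine Finset.prod_congr rfl fun i hi => ?_
      rw [← hγM, (hF i (hVl i (Finset.mem_of_mem_filter i hi))).npt (Finset.mem_filter.1 hi).2]
    have hUg : (∏ i ∈ U, M (Bf P x i)) * ∏ i ∈ U, M (q i) = ek b g (∏ i ∈ U, γ i) := by
      rw [map_prod, ← Finset.prod_mul_distrib]
      exact Finset.prod_congr rfl fun i hi => hfac i (hUl i hi)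
    -- the relation
    have hrel : M a = ek b g (AdjoinRoot.mk b d) * (M h) ^ 2 := by
      rw [ek_mk, ← map_pow, ← map_mul, ← sub_eq_zero, ← map_sub, AdjoinRoot.mk_eq_zero]
      exact hdv
    have hMa : M a = (∏ i ∈ U, M (Bf P x i)) * ((∏ i ∈ VP, M (q i)) * ∏ i ∈ VN, M (q i)) := by
      rw [e1, map_mul, map_prod, map_prod, hVs]
    set Γ : AdjoinRoot b := (∏ i ∈ U, γ i) * ∏ i ∈ VN, γ i with hΓ
    have hΓ0 : Γ ≠ 0 := mul_ne_zero (Finset.prod_ne_zero_iff.2 fun i hi => hγ0 i (hUl i hi))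
      (Finset.prod_ne_zero_iff.2 fun i hi => hγ0 i (hVl i (Finset.mem_of_mem_filter i hi)))
    have hsy := prod_symm (fun i => M (q i)) U VP
    have hUq0 : ∏ i ∈ U, M (q i) ≠ 0 := Finset.prod_ne_zero_iff.2 fun i hi => hq0 i (hUl i hi)
    have hI0 : ∏ i ∈ U ∩ VP, M (q i) ≠ 0 := Finset.prod_ne_zero_iff.2 fun i hi =>
      hq0 i (hUl i (Finset.mem_inter.1 hi).1)
    have hW0 : ∏ i ∈ W, M (q i) ≠ 0 := Finset.prod_ne_zero_iff.2 fun i hi => hq0 i (hWm i hi).1
    have hekΓ : ek b g Γ ≠ 0 := (_root_.map_ne_zero _).2 hΓ0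
    have hfin : ∏ i ∈ W, M (q i) = ek b g (AdjoinRoot.mk b d / Γ) *
        (M h * (∏ i ∈ U, M (q i)) / ∏ i ∈ U ∩ VP, M (q i)) ^ 2 := by
      rw [map_div₀, div_pow, div_mul_div_comm, eq_div_iff (mul_ne_zero hekΓ (pow_ne_zero _ hI0))]
      have h1 : (∏ i ∈ W, M (q i)) * (ek b g Γ * (∏ i ∈ U ∩ VP, M (q i)) ^ 2) =
          ek b g Γ * ((∏ i ∈ U, M (q i)) * ∏ i ∈ VP, M (q i)) := by
        rw [hsy]
        ring
      rw [h1, hΓ, map_mul, ← hUg, ← hVNg]
      calc _ = ((∏ i ∈ U, M (Bf P x i)) * ((∏ i ∈ VP, M (q i)) * ∏ i ∈ VN, M (q i))) *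
            (∏ i ∈ U, M (q i)) ^ 2 := by ring
        _ = _ := by
          rw [← hMa, hrel]
          ring
    refine hns W hWne hWm (sq_of hg hodd W c q (fun i hi => ?_) hW0 hfin)
    have h1 := hF i (hWm i hi).1
    exact ⟨h1.monic hg hodd.pos, ⟨Bf P x i, by rw [h1.eq, mul_comm]⟩, hev i (hWm i hi).1 (hWm i hi).2⟩

end good

end Pool.Agent.Q45.ST
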