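import Pool.Agent.Q45.ST.Ram

/-!
# Constant extensions and irreducibility
-/

set_option autoImplicit false
set_option linter.all false

open Polynomial IsDedekindDomain WithZero
open scoped Classical

namespace Pool.Agent.Q45.ST

open Pool.Agent.Q45.TW (cst ff ff_monic ff_natDegree ff_map IsBase)
open Pool.Agent.Q45.TT
open Pool.Agent.Y160.SE (IsPw)

/-- Constant extensions are unramified. -/
theorem unram_const {k : Type} [Field k] {A K B M : Type} [CommRing A] [IsDedekindDomain A]
    [Field K] [Algebra A K] [IsFractionRing A K] [CommRing B] [IsDedekindDomain B] [Field M]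
    [Algebra B M] [IsFractionRing B M] [Algebra K M] [Algebra A B] [Algebra A M]
    [IsScalarTower A K M] [IsScalarTower A B M] [Module.IsTorsionFree A B] [Module.Finite A B]
    [Algebra k[X] A] [Algebra k[X] K] [Algebra k[X] B] [IsScalarTower k[X] A K]
    [IsScalarTower k[X] A B] {G : k[X]} (hm : G.Monic) (hs : G.Separable)
    (hirr : Irreducible (G.map (cst k K))) {η : M} (hη : aeval η (G.map (cst k K)) = 0)
    (htop : IntermediateField.adjoin K {η} = ⊤) (w : HeightOneSpectrum B) :
    (w.under A).asIdeal.ramificationIdx' w.asIdeal = 1 := by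
  haveI : Algebra.IsIntegral A B := Algebra.IsIntegral.of_finite A B
  have hmK : (G.map (cst k K)).Monic := hm.map _
  haveI : FiniteDimensional K M := TW.fin_of hmK hη htop
  haveI : Algebra.IsSeparable K M := TW.sep_of hs.map hη htop
  set v := w.under A with hv
  haveI hlo : w.asIdeal.LiesOver v.asIdeal := ⟨rfl⟩
  haveI : v.asIdeal.IsMaximal := v.isMaximal
  have hcK : (algebraMap A K).comp (cst k A) = cst k K := RingHom.ext fun x =>
    (IsScalarTower.algebraMap_apply k[X] A K (C x)).symm
  have hcB : (algebraMap A B).comp (cst k A) = cst k B := RingHom.ext fun x =>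
    (IsScalarTower.algebraMap_apply k[X] A B (C x)).symm
  have hcM : (algebraMap K M).comp (cst k K) = (algebraMap B M).comp (cst k B) := by
    rw [← hcK, ← hcB]
    refine RingHom.ext fun x => ?_
    show algebraMap K M (algebraMap A K (cst k A x)) = algebraMap B M (algebraMap A B (cst k A x))
    rw [← IsScalarTower.algebraMap_apply A K M, ← IsScalarTower.algebraMap_apply A B M]
  obtain ⟨t, rfl⟩ : ∃ t : B, algebraMap B M t = η := by
    apply (IsIntegrallyClosed.isIntegral_iff (K := M)).1
    refine ⟨G.map (cst k B), hm.map _, ?_⟩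
    rw [eval₂_map, ← hcM]
    rw [aeval_def, eval₂_map] at hη
    exact hη
  have hGt : eval₂ (cst k B) t G = 0 := by
    apply IsFractionRing.injective B M
    rw [map_zero, hom_eval₂, ← hcM]
    rw [aeval_def, eval₂_map] at hη
    exact hη
  have hminK : minpoly K (algebraMap B M t) = G.map (cst k K) :=
    (minpoly.eq_of_irreducible_of_monic hirr hη hmK).symm
  have hint : IsIntegral A t := Algebra.IsIntegral.isIntegral t
  have hmin : minpoly A t = G.map (cst k A) := by
    have h1 := minpoly.isIntegrallyClosed_eq_field_fractions K M hint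
    rw [hminK] at h1
    apply map_injective (algebraMap A K) (IsFractionRing.injective A K)
    rw [← h1, Polynomial.map_map, hcK]
  have htop' : Algebra.adjoin K {algebraMap B M t} = ⊤ := by
    have hi : IsIntegral K (algebraMap B M t) := ⟨_, hmK, hη⟩
    have h3 := IntermediateField.adjoin_simple_toSubalgebra_of_isAlgebraic hi.isAlgebraic
    rw [htop] at h3
    exact h3.symm
  have hmem := aeval_derivative_mem_differentIdeal A K M t htop'
  rw [hmin, derivative_map, aeval_def, eval₂_map, hcB] at hmem
  have hunit : IsUnit (eval₂ (cst k B) t (derivative G)) := by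
    obtain ⟨a, b, hab⟩ := hs
    have h3 := congrArg (eval₂ (cst k B) t) hab
    rw [eval₂_add, eval₂_mul, eval₂_mul, eval₂_one, hGt, mul_zero, zero_add] at h3
    exact IsUnit.of_mul_eq_one_right _ h3
  by_contra hne
  have hle : v.asIdeal.map (algebraMap A B) ≤ w.asIdeal := by
    rw [Ideal.map_le_iff_le_comap]
    exact le_of_eq hlo.over
  have h3 := (Ideal.ramificationIdx'_ne_one_iff hle).1 hne
  have h4 : w.asIdeal ^ 2 ∣ v.asIdeal.map (algebraMap A B) := Ideal.dvd_iff_le.2 h3
  have h5 := pow_sub_one_dvd_differentIdeal_aux K M (A := A) (B := B) w.asIdeal (e := 2) (by norm_num)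
    v.ne_bot h4
  have h6 : eval₂ (cst k B) t (derivative G) ∈ w.asIdeal := by
    have h7 := Ideal.dvd_iff_le.1 h5 hmem
    norm_num at h7
    exact h7
  exact w.isPrime.ne_top (Ideal.eq_top_of_isUnit_mem _ h6 hunit)

section irr

variable {k : Type} [Field k] {g : k[X]} {cs : List k}

/-- There is a place at which `D` has odd valuation. -/
def OddAny (k : Type) [Field k] (K : Type) [Field K] [Algebra k[X] K] (D : K) : Prop :=
  ∀ (A : Type) [CommRing A] [IsDedekindDomain A] [Algebra k[X] A] [Algebra A K]
    [IsScalarTower k[X] A K] [IsFractionRing A K] [IsIntegralClosure A k[X] K],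
    ∃ v : HeightOneSpectrum A, ¬ IsPw 2 (v.valuation K D)

theorem OddEx.any {K : Type} [Field K] [Algebra k[X] K] {D : K} (h : OddEx g cs K D) :
    OddAny k K D := by
  intro A _ _ _ _ _ _ _
  obtain ⟨v, b, hv, -⟩ := h A
  exact ⟨v, hv⟩

/-- Elements with an odd valuation are not squares in constant extensions. -/
theorem not_sq_const {K : Type} [Field K] [Algebra k[X] K] (hfs : FS k K) {D : K}
    (hD : OddAny k K D) {G : k[X]} (hm : G.Monic) (hs : G.Separable)
    (hirr : Irreducible (G.map (cst k K))) {M : Type} [Field M] [Algebra K M] {η : M}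
    (hη : aeval η (G.map (cst k K)) = 0) (htop : IntermediateField.adjoin K {η} = ⊤) (x : M) :
    x ^ 2 ≠ algebraMap K M D := by
  intro hx
  letI : Algebra k[X] M := ((algebraMap K M).comp (algebraMap k[X] K)).toAlgebra
  haveI : IsScalarTower k[X] K M := IsScalarTower.of_algebraMap_eq fun _ => rfl
  have hfsM : FS k M := hfs.trans (TW.fin_of (hm.map _) hη htop) (TW.sep_of hs.map hη htop)
  obtain ⟨B, r1, r2, r3, r4, r5⟩ := exists_ic (k := k) M
  haveI := hfsM.ded B
  haveI := hfsM.frac B
  haveI := hfsM.finite B
  obtain ⟨A, a1, a2, a3, a4, a5⟩ := exists_ic (k := k) K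
  haveI := hfs.ded A
  haveI := hfs.frac A
  haveI := hfs.finite A
  obtain ⟨ψ, hψ1, hψ2⟩ := exists_alg (k := k) (K' := K) (K := M) A B
  letI : Algebra A B := ψ.toAlgebra
  haveI : IsScalarTower k[X] A B := IsScalarTower.of_algebraMap_eq fun p => (hψ2 p).symm
  haveI : Module.Finite A B := Module.Finite.of_restrictScalars_finite k[X] A B
  haveI : Algebra.IsIntegral A B := Algebra.IsIntegral.of_finite A B
  haveI : Module.IsTorsionFree A B := by
    rw [Module.isTorsionFree_iff_algebraMap_injective]
    exact tf_of (K' := K) (K := M) (IsFractionRing.injective A K) hψ1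
  letI : Algebra A M := ((algebraMap K M).comp (algebraMap A K)).toAlgebra
  haveI : IsScalarTower A K M := IsScalarTower.of_algebraMap_eq fun _ => rfl
  haveI : IsScalarTower A B M := IsScalarTower.of_algebraMap_eq fun a => (hψ1 a).symm
  obtain ⟨v, hv⟩ := hD A
  obtain ⟨w, hw⟩ := exists_above (B := B) v
  apply hv
  rw [← hw]
  have h1 := val_under (A := A) (L := M) w D
  rw [unram_const (k := k) hm hs hirr hη htop w, pow_one] at h1
  rw [← h1, ← hx, map_pow]
  exact IsPw.self _

/-- Irreducible polynomials over `k` stay irreducible. -/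
theorem irr_const {K' K : Type} [Field K'] [Field K] [Algebra k[X] K'] [Algebra k[X] K]
    [Algebra K' K] [IsScalarTower k[X] K' K] {D : K'} {s : K} (hq : IsQuad D s) (hfs' : FS k K')
    (hD : OddAny k K' D) {G : k[X]} (hm : G.Monic) (hs : G.Separable)
    (hirr : Irreducible (G.map (cst k K'))) : Irreducible (G.map (cst k K)) := by
  haveI := hq.fin
  rw [cst_map (K' := K') (K := K)]
  set f := G.map (cst k K') with hf
  have hfm : f.Monic := hm.map _
  have hne : f.map (algebraMap K' K) ≠ 0 := (hfm.map _).ne_zero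
  have hnu : ¬ IsUnit (f.map (algebraMap K' K)) := by
    intro h
    have h1 := natDegree_eq_zero_of_isUnit h
    rw [hfm.natDegree_map] at h1
    have h3 := hirr.natDegree_pos
    omega
  obtain ⟨q, hqi, hqd⟩ := WfDvdMonoid.exists_irreducible_factor hnu hne
  haveI : Fact (Irreducible q) := ⟨hqi⟩
  have hq0 : q ≠ 0 := hqi.ne_zero
  haveI : FiniteDimensional K (AdjoinRoot q) := (AdjoinRoot.powerBasis hq0).finite
  haveI : FiniteDimensional K' (AdjoinRoot q) := Module.Finite.trans K (AdjoinRoot q)
  have h1 : Module.finrank K (AdjoinRoot q) = q.natDegree := by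
    rw [(AdjoinRoot.powerBasis hq0).finrank, AdjoinRoot.powerBasis_dim]
  have h3 : Module.finrank K' (AdjoinRoot q) = 2 * q.natDegree := by
    rw [← Module.finrank_mul_finrank K' K (AdjoinRoot q), hq.finrank, h1]
  set η : AdjoinRoot q := AdjoinRoot.root q with hη
  have hroot : aeval η f = 0 := by
    obtain ⟨c, hc⟩ := hqd
    have h4 : aeval η (f.map (algebraMap K' K)) = 0 := by
      rw [hc, map_mul, AdjoinRoot.aeval_eq, AdjoinRoot.mk_self, zero_mul]
    rwa [aeval_map_algebraMap] at h4
  have hint : IsIntegral K' η := ⟨f, hfm, hroot⟩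
  have hmin : minpoly K' η = f := (minpoly.eq_of_irreducible_of_monic hirr hroot hfm).symm
  have h4 := IntermediateField.adjoin.finrank hint
  rw [hmin] at h4
  set M₀ := IntermediateField.adjoin K' {η} with hM₀
  -- the square root of `D`
  have hsM : algebraMap K (AdjoinRoot q) s ∉ M₀ := by
    intro hmem
    obtain ⟨η₀, hη₀, htop₀⟩ : ∃ η₀ : M₀, (η₀ : AdjoinRoot q) = η ∧
        IntermediateField.adjoin K' {η₀} = ⊤ := by
      refine ⟨IntermediateField.AdjoinSimple.gen K' η, rfl, ?_⟩
      rw [eq_top_iff]
      rintro x -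
      have h5 := IntermediateField.adjoin_map K' {IntermediateField.AdjoinSimple.gen K' η} M₀.val
      rw [Set.image_singleton] at h5
      have h6 : (x : AdjoinRoot q) ∈
          IntermediateField.adjoin K' {M₀.val (IntermediateField.AdjoinSimple.gen K' η)} := x.2
      rw [← h5, IntermediateField.mem_map] at h6
      obtain ⟨y, hy, hyx⟩ := h6
      have h7 : y = x := Subtype.ext hyx
      rwa [← h7]
    have hroot₀ : aeval η₀ f = 0 := by
      apply (algebraMap M₀ (AdjoinRoot q)).injective
      rw [map_zero, ← aeval_algebraMap_apply]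
      show aeval (η₀ : AdjoinRoot q) f = 0
      rw [hη₀, hroot]
    refine not_sq_const hfs' hD hm hs hirr hroot₀ htop₀ ⟨_, hmem⟩ ?_
    apply Subtype.ext
    show algebraMap K (AdjoinRoot q) s ^ 2 = algebraMap K' (AdjoinRoot q) D
    rw [← map_pow, hq.sq, ← IsScalarTower.algebraMap_apply K' K (AdjoinRoot q)]
  have hne1 : Module.finrank M₀ (AdjoinRoot q) ≠ 1 := by
    intro h5
    have h6 : (⊥ : IntermediateField M₀ (AdjoinRoot q)) = ⊤ :=
      IntermediateField.bot_eq_top_iff_finrank_eq_one.2 h5
    have h7 : algebraMap K (AdjoinRoot q) s ∈ (⊥ : IntermediateField M₀ (AdjoinRoot q)) := by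
      rw [h6]
      trivial
    obtain ⟨x, hx⟩ := IntermediateField.mem_bot.1 h7
    apply hsM
    rw [← hx]
    exact x.2
  have h5 : Module.finrank K' M₀ * Module.finrank M₀ (AdjoinRoot q) =
      Module.finrank K' (AdjoinRoot q) := Module.finrank_mul_finrank K' M₀ (AdjoinRoot q)
  rw [h4, h3] at h5
  have hle : q.natDegree ≤ f.natDegree := by
    have h6 := natDegree_le_of_dvd hqd hne
    rwa [hfm.natDegree_map] at h6
  have h8 : f.natDegree ≤ q.natDegree := by
    have hpos : 0 < Module.finrank M₀ (AdjoinRoot q) := by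
      rcases Nat.eq_zero_or_pos (Module.finrank M₀ (AdjoinRoot q)) with h9 | h9
      · rw [h9, mul_zero] at h5
        have := hqi.natDegree_pos
        omega
      · exact h9
    have h9 : 2 ≤ Module.finrank M₀ (AdjoinRoot q) := by omega
    have h10 : f.natDegree * 2 ≤ f.natDegree * Module.finrank M₀ (AdjoinRoot q) :=
      Nat.mul_le_mul_left _ h9
    omega
  have h9 : Associated q (f.map (algebraMap K' K)) := by
    refine associated_of_dvd_of_natDegree_le hqd hne ?_
    rw [hfm.natDegree_map]
    exact h8
  exact h9.irreducible hqi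

end irr

end Pool.Agent.Q45.ST
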