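import Pool.Agent.Q45.ST.Nsq
import Pool.Agent.Q45.TT.MBas

/-!
# Independence of the divisors at good places: the base case
-/

set_option autoImplicit false
set_option linter.all false

open Polynomial IsDedekindDomain WithZero
open scoped Classical

namespace Pool.Agent.Q45.ST

open Pool.Agent.Q45.TW (cst ff ff_monic ff_natDegree ff_map)
open Pool.Agent.Q45.TT
open Pool.Agent.Y160.SE (IsPw)

section base

variable {k : Type} [Field k] {g : k[X]} {cs : List k}

/-- The field of rational functions as a tower. -/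
theorem tower_zero {K : Type} [Field K] [Algebra k[X] K] (hK : IsFractionRing k[X] K) :
    IsTower k K 0 (fun _ => 0) := by
  refine ⟨IsFractionRing.injective k[X] K, fun i hi => absurd hi (Nat.not_lt_zero _), ?_⟩
  rw [eq_top_iff]
  rintro x -
  obtain ⟨a, b, hb, rfl⟩ := IsFractionRing.div_surjective (A := k[X]) x
  exact div_mem (Subfield.subset_closure (Or.inl ⟨a, rfl⟩)) (Subfield.subset_closure (Or.inl ⟨b, rfl⟩))

/-- **The independence over the field of rational functions.** -/
theorem NsK.base (h2 : (2 : k) ≠ 0) (hg : g.Monic) (hodd : Odd g.natDegree)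
    (hd : derivative g ≠ 0) {K : Type} [Field K] [Algebra k[X] K]
    (hK : IsFractionRing k[X] K) : NsK g cs K := by
  intro L _ _ _ _ θ hθ htop A _ _ _ _ _ _ R _ _ _ _ _ _ _ hcomp P b hb hbP a ham had α hα d h hP
  have htw := tower_zero hK
  have hirr : Irreducible (ff g K) := htw.irr h2 hg hodd
  have hsep : (ff g K).Separable := sep_ff hirr hd
  have hm : (ff g K).Monic := ff_monic hg hodd.pos
  have hfs : FS k K := htw.fs h2
  haveI : FiniteDimensional K L := TW.fin_of hm hθ htop
  have hfsL : FS k L := hfs.trans (TW.fin_of hm hθ htop) (TW.sep_of hsep hθ htop)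
  have hRL : Function.Injective (algebraMap R L) := IsIntegralClosure.algebraMap_injective R k[X] L
  haveI : IsScalarTower k[X] A R := IsScalarTower.of_algebraMap_eq fun p => by
    apply hRL
    rw [← hcomp, ← IsScalarTower.algebraMap_apply k[X] A K, ← IsScalarTower.algebraMap_apply k[X] R L,
      ← IsScalarTower.algebraMap_apply k[X] K L]
  haveI := hfs.frac A
  haveI := hfs.finite A
  haveI := hfsL.frac R
  haveI := hfsL.finite R
  haveI : Module.Finite A R := Module.Finite.of_restrictScalars_finite k[X] A R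
  haveI : Algebra.IsIntegral A R := Algebra.IsIntegral.of_finite A R
  haveI : Module.IsTorsionFree A R := by
    rw [Module.isTorsionFree_iff_algebraMap_injective]
    exact tf_of (K' := K) (K := L) (IsFractionRing.injective A K) fun a => (hcomp a).symm
  haveI : Module.IsTorsionFree k[X] R := by
    rw [Module.isTorsionFree_iff_algebraMap_injective]
    exact hfsL.injB R
  haveI : Module.IsTorsionFree k[X] A := by
    rw [Module.isTorsionFree_iff_algebraMap_injective]
    exact hfs.injB A
  have hfr : Module.finrank A R = g.natDegree := by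
    letI : Algebra A L := ((algebraMap K L).comp (algebraMap A K)).toAlgebra
    haveI : IsScalarTower A K L := IsScalarTower.of_algebraMap_eq fun _ => rfl
    haveI : IsScalarTower A R L := IsScalarTower.of_algebraMap_eq fun a => hcomp a
    rw [← IsFractionRing.finrank_eq A K R L, TW.finrank_of hirr hm hθ htop,
      ff_natDegree hg hodd.pos]
  obtain ⟨θR, hθR, hθR2, hθR3⟩ := exists_root (R := R) hg hodd.pos hθ
  -- the ring of integers of `K`
  have hsurj : Function.Surjective (algebraMap k[X] A) := by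
    intro x
    have h1 : IsIntegral k[X] (algebraMap A K x) :=
      (IsIntegralClosure.isIntegral k[X] K x).algebraMap
    obtain ⟨p, hp⟩ := (IsIntegrallyClosed.isIntegral_iff (R := k[X]) (K := K)).1 h1
    refine ⟨p, IsFractionRing.injective A K ?_⟩
    rw [← hp, ← IsScalarTower.algebraMap_apply]
  -- the residue fields
  obtain ⟨v, hv⟩ : ∃ v, v = P.under A := ⟨_, rfl⟩
  haveI l2 : P.asIdeal.LiesOver v.asIdeal := by rw [hv]; exact ⟨rfl⟩
  haveI m1 : P.asIdeal.IsMaximal := P.isMaximal
  haveI m3 : v.asIdeal.IsMaximal := v.isMaximal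
  letI iκ : Field (A ⧸ v.asIdeal) := Ideal.Quotient.field _
  letI iF : Field (R ⧸ P.asIdeal) := Ideal.Quotient.field _
  obtain ⟨j, hj⟩ := htw.pow h2 A v
  obtain ⟨r1, r2, r3⟩ := res_data P v hg hb.irr hbP θR hθR2 hb.inert hodd hfr hj
  set η : R ⧸ P.asIdeal := Ideal.Quotient.mk _ θR with hη
  obtain ⟨ev, hev⟩ : ∃ ev : k[X] →+* R ⧸ P.asIdeal,
      ev = (Ideal.Quotient.mk P.asIdeal).comp (eval₂RingHom (cst k R) θR) := ⟨_, rfl⟩
  have hev1 : ∀ p : k[X], ev p = Ideal.Quotient.mk P.asIdeal (eval₂ (cst k R) θR p) := fun p => by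
    rw [hev]; rfl
  have hevg : ∀ p : k[X], ev (p.comp (-g)) = Ideal.Quotient.mk P.asIdeal (algebraMap k[X] R p) := by
    intro p
    rw [hev1, eval₂_comp, eval₂_neg, hθR2, neg_neg]
    have h9 := hom_eval₂ p C (algebraMap k[X] R) X
    rw [eval₂_C_X] at h9
    rw [h9]
    rfl
  have hAev : ∀ x : A, ∃ q : k[X], algebraMap A R x = algebraMap k[X] R q ∧
      ev (q.comp (-g)) = Ideal.Quotient.mk P.asIdeal (algebraMap A R x) := by
    intro x
    obtain ⟨q, rfl⟩ := hsurj x
    refine ⟨q, (IsScalarTower.algebraMap_apply k[X] A R q).symm, ?_⟩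
    rw [hevg, ← IsScalarTower.algebraMap_apply]
  have hall : ∀ x : R ⧸ P.asIdeal, x ∈ ev.range := by
    intro x
    obtain ⟨Q, rfl⟩ := TW.exists_aeval (ff_monic hg hodd.pos) r2 r3 x
    rw [aeval_eq_sum_range]
    refine Subring.sum_mem _ fun i _ => ?_
    rw [Algebra.smul_def]
    have hX : η ∈ ev.range := ⟨X, by rw [hev1, eval₂_X]⟩
    refine Subring.mul_mem _ ?_ (Subring.pow_mem _ hX i)
    · obtain ⟨x, hx⟩ := Ideal.Quotient.mk_surjective (Q.coeff i)
      obtain ⟨q, -, hq⟩ := hAev x
      refine ⟨q.comp (-g), ?_⟩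
      rw [hq, ← hx]
      rfl
  -- the elements
  obtain ⟨h', hh'⟩ := hall (Ideal.Quotient.mk P.asIdeal h)
  obtain ⟨d', -, hd'⟩ := hAev d
  have hαR : α = eval₂ (cst k R) θR a := by
    apply hRL
    rw [hα, hθR3]
  have h0 : ev (a - d'.comp (-g) * h' ^ 2) = 0 := by
    rw [map_sub, map_mul, map_pow, hh', hd', hev1, ← hαR, ← map_pow, ← map_mul, ← map_sub,
      Ideal.Quotient.eq_zero_iff_mem]
    exact hP
  have h1 : ev (b.comp (-g)) = 0 := by
    rw [hevg, Ideal.Quotient.eq_zero_iff_mem]
    exact hbP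
  refine hb.ind a ham had d' h' ?_
  have hmax : (Ideal.span {b.comp (-g)}).IsMaximal :=
    PrincipalIdealRing.isMaximal_of_irreducible hb.inert
  have h3 : Ideal.span {b.comp (-g)} ≤ RingHom.ker ev := by
    rw [Ideal.span_singleton_le_iff_mem]
    exact h1
  have h4 := hmax.eq_of_le (RingHom.ker_ne_top ev) h3
  rw [← Ideal.mem_span_singleton, h4]
  exact h0

/-- **The independence over a tower.** -/
theorem IsTower.nsK (h2 : (2 : k) ≠ 0) (hg : g.Monic) (hodd : Odd g.natDegree)
    (hd : derivative g ≠ 0) {K : Type} [Field K] [Algebra k[X] K] {m : ℕ} {s : ℕ → K}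
    (h : IsTower k K m s) : NsK g cs K := by
  refine IsTower.ind h2 (M := fun K _ _ => NsK g cs K)
    (fun K _ _ hK => NsK.base h2 hg hodd hd hK) ?_ m K s h
  intro K' K _ _ _ _ _ _ D s hq _ htw ih
  obtain ⟨m', s', htw⟩ := htw
  exact NsK.step h2 hg hodd hd hq htw (htw.snoc hq) ih

end base

end Pool.Agent.Q45.ST
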