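import Pool.Agent.Q45.ST.Res

/-!
# Descent of square classes in the residue fields
-/

set_option autoImplicit false
set_option linter.all false

open Polynomial IsDedekindDomain WithZero
open scoped Classical

namespace Pool.Agent.Q45.ST

open Pool.Agent.Q45.TW (cst ff ff_monic ff_natDegree ff_map)
open Pool.Agent.Q45.TT

section nsr

variable {k : Type} [Field k] {A₁ R₁ A R : Type} [CommRing A₁] [IsDedekindDomain A₁]
  [CommRing R₁] [IsDedekindDomain R₁] [CommRing A] [IsDedekindDomain A] [CommRing R]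
  [IsDedekindDomain R] [Algebra k[X] A₁] [Algebra k[X] R₁] [Algebra k[X] A] [Algebra k[X] R]
  [Algebra A₁ R₁] [Algebra A₁ A] [Algebra A R] [Algebra R₁ R] [IsScalarTower k[X] A₁ R₁]
  [IsScalarTower k[X] A R] [IsScalarTower k[X] A₁ A] [IsScalarTower k[X] R₁ R]
  [Module.Finite k[X] A₁] [Module.Finite k[X] R₁] [Module.Finite k[X] A] [Module.Finite k[X] R]
  [Module.Finite A₁ R₁] [Module.Finite A R] [Module.Finite A₁ A] [Module.Finite R₁ R]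
  [Module.IsTorsionFree A₁ R₁] [Module.IsTorsionFree A R] [Module.IsTorsionFree A₁ A]
  [Module.IsTorsionFree R₁ R] [Module.IsTorsionFree k[X] A₁] [Module.IsTorsionFree k[X] R₁]
  [Module.IsTorsionFree k[X] A] [Module.IsTorsionFree k[X] R]

/-- **Descent of the square classes in the residue fields.** -/
theorem ns_res (h2 : (2 : k) ≠ 0)
    (hsq : ∀ a : A₁, algebraMap A R (algebraMap A₁ A a) = algebraMap R₁ R (algebraMap A₁ R₁ a))
    [Algebra.IsIntegral A₁ R₁] [Algebra.IsIntegral A R] [Algebra.IsIntegral A₁ A]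
    [Algebra.IsIntegral R₁ R]
    (P : HeightOneSpectrum R) {b g : k[X]} (hg : g.Monic) (hb : Irreducible b)
    (hbP : algebraMap k[X] R b ∈ P.asIdeal) (θ : R₁)
    (hθ : eval₂ (cst k R₁) θ g = -algebraMap k[X] R₁ X) (hirr : Irreducible (b.comp (-g)))
    (hsep : (b.comp (-g)).Separable)
    (hodd : Odd g.natDegree) (hn₁ : Module.finrank A₁ R₁ = g.natDegree)
    (hn : Module.finrank A R = g.natDegree) (hA : Module.finrank A₁ A = 2)
    (hj₁ : ∀ v : HeightOneSpectrum A₁, ∃ j : ℕ, v.asIdeal.inertiaDeg k[X] = 2 ^ j)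
    (hj : ∀ v : HeightOneSpectrum A, ∃ j : ℕ, v.asIdeal.inertiaDeg k[X] = 2 ^ j)
    {α : R₁} (hα : α ∉ (P.under R₁).asIdeal) {d : A} {h : R}
    (hP : algebraMap R₁ R α - algebraMap A R d * h ^ 2 ∈ P.asIdeal) :
    ∃ (d₁ : A₁) (h₁ : R₁), α - algebraMap A₁ R₁ d₁ * h₁ ^ 2 ∈ (P.under R₁).asIdeal := by
  obtain ⟨P₁, hP₁⟩ : ∃ P₁, P₁ = P.under R₁ := ⟨_, rfl⟩
  obtain ⟨v, hv⟩ : ∃ v, v = P.under A := ⟨_, rfl⟩
  obtain ⟨v₁, hv₁⟩ : ∃ v₁, v₁ = v.under A₁ := ⟨_, rfl⟩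
  rw [← hP₁] at hα ⊢
  haveI l1 : P.asIdeal.LiesOver P₁.asIdeal := by rw [hP₁]; exact ⟨rfl⟩
  haveI l2 : P.asIdeal.LiesOver v.asIdeal := by rw [hv]; exact ⟨rfl⟩
  haveI l3 : v.asIdeal.LiesOver v₁.asIdeal := by rw [hv₁]; exact ⟨rfl⟩
  haveI l4 : P₁.asIdeal.LiesOver v₁.asIdeal := by
    refine ⟨?_⟩
    ext a
    rw [hv₁, hv, hP₁]
    show algebraMap A R (algebraMap A₁ A a) ∈ P.asIdeal ↔
      algebraMap R₁ R (algebraMap A₁ R₁ a) ∈ P.asIdeal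
    rw [hsq]
  haveI m1 : P.asIdeal.IsMaximal := P.isMaximal
  haveI m2 : P₁.asIdeal.IsMaximal := P₁.isMaximal
  haveI m3 : v.asIdeal.IsMaximal := v.isMaximal
  haveI m4 : v₁.asIdeal.IsMaximal := v₁.isMaximal
  letI iκ : Field (A₁ ⧸ v₁.asIdeal) := Ideal.Quotient.field _
  letI iκ' : Field (A ⧸ v.asIdeal) := Ideal.Quotient.field _
  letI iF : Field (R₁ ⧸ P₁.asIdeal) := Ideal.Quotient.field _
  letI iF' : Field (R ⧸ P.asIdeal) := Ideal.Quotient.field _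
  have hbP₁ : algebraMap k[X] R₁ b ∈ P₁.asIdeal := by
    rw [hP₁]
    show algebraMap R₁ R (algebraMap k[X] R₁ b) ∈ P.asIdeal
    rwa [← IsScalarTower.algebraMap_apply]
  have hθ' : eval₂ (cst k R) (algebraMap R₁ R θ) g = -algebraMap k[X] R X := by
    have h3 : cst k R = (algebraMap R₁ R).comp (cst k R₁) := RingHom.ext fun x =>
      IsScalarTower.algebraMap_apply k[X] R₁ R _
    rw [h3, ← hom_eval₂, hθ, map_neg, ← IsScalarTower.algebraMap_apply]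
  obtain ⟨j₁, hj₁⟩ := hj₁ v₁
  obtain ⟨j, hj⟩ := hj v
  obtain ⟨a1, a2, a3⟩ := res_data P₁ v₁ hg hb hbP₁ θ hθ hirr hodd hn₁ hj₁
  obtain ⟨b1, b2, b3⟩ := res_data P v hg hb hbP (algebraMap R₁ R θ) hθ' hirr hodd hn hj
  letI : Algebra (A₁ ⧸ v₁.asIdeal) (R ⧸ P.asIdeal) :=
    ((algebraMap (A ⧸ v.asIdeal) (R ⧸ P.asIdeal)).comp
      (algebraMap (A₁ ⧸ v₁.asIdeal) (A ⧸ v.asIdeal))).toAlgebra
  haveI : IsScalarTower (A₁ ⧸ v₁.asIdeal) (A ⧸ v.asIdeal) (R ⧸ P.asIdeal) :=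
    IsScalarTower.of_algebraMap_eq fun x => rfl
  haveI : IsScalarTower (A₁ ⧸ v₁.asIdeal) (R₁ ⧸ P₁.asIdeal) (R ⧸ P.asIdeal) :=
    IsScalarTower.of_algebraMap_eq fun x => by
      obtain ⟨a, rfl⟩ := Ideal.Quotient.mk_surjective x
      show Ideal.Quotient.mk P.asIdeal (algebraMap A R (algebraMap A₁ A a)) =
        Ideal.Quotient.mk P.asIdeal (algebraMap R₁ R (algebraMap A₁ R₁ a))
      rw [hsq]
  haveI hfin : Module.Finite (A₁ ⧸ v₁.asIdeal) (A ⧸ v.asIdeal) := by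
    haveI : Module.Finite A₁ (A ⧸ v.asIdeal) := inferInstance
    exact Module.Finite.of_restrictScalars_finite A₁ (A₁ ⧸ v₁.asIdeal) (A ⧸ v.asIdeal)
  have hle : Module.finrank (A₁ ⧸ v₁.asIdeal) (A ⧸ v.asIdeal) ≤ 2 := by
    have h3 := (inertia_le (A := A₁) (B := A) v).1
    rw [hA, Ideal.inertiaDeg_eq_of_isMaximal v₁.asIdeal v.asIdeal] at h3
    exact h3
  have hmκ : (ff g (A₁ ⧸ v₁.asIdeal)).Monic := ff_monic hg hodd.pos
  have hdκ : (ff g (A₁ ⧸ v₁.asIdeal)).natDegree = g.natDegree := ff_natDegree hg hodd.pos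
  have hsepκ : (ff g (A₁ ⧸ v₁.asIdeal)).Separable := by
    have h3 := dvd_comp (g := g) (algebraMap k[X] (A₁ ⧸ v₁.asIdeal)) (B := b) (by
      show Ideal.Quotient.mk v₁.asIdeal (algebraMap k[X] A₁ b) = 0
      rw [Ideal.Quotient.eq_zero_iff_mem, l4.over]
      show algebraMap A₁ R₁ (algebraMap k[X] A₁ b) ∈ P₁.asIdeal
      rwa [← IsScalarTower.algebraMap_apply])
    exact hsep.map.of_dvd h3
  have h2κ : (2 : A₁ ⧸ v₁.asIdeal) ≠ 0 := by
    have h3 : (2 : A₁ ⧸ v₁.asIdeal) = cst k (A₁ ⧸ v₁.asIdeal) 2 := by rw [map_ofNat]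
    rw [h3]
    exact (_root_.map_ne_zero _).2 h2
  have hαF : (Ideal.Quotient.mk P₁.asIdeal α) ≠ 0 := by
    rw [Ne, Ideal.Quotient.eq_zero_iff_mem]
    exact hα
  have key : algebraMap (R₁ ⧸ P₁.asIdeal) (R ⧸ P.asIdeal) (Ideal.Quotient.mk P₁.asIdeal α) =
      algebraMap (A ⧸ v.asIdeal) (R ⧸ P.asIdeal) (Ideal.Quotient.mk v.asIdeal d) *
        (Ideal.Quotient.mk P.asIdeal h) ^ 2 := by
    rw [← sub_eq_zero]
    show Ideal.Quotient.mk P.asIdeal (algebraMap R₁ R α) -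
      Ideal.Quotient.mk P.asIdeal (algebraMap A R d) * (Ideal.Quotient.mk P.asIdeal h) ^ 2 = 0
    rw [← map_pow, ← map_mul, ← map_sub, Ideal.Quotient.eq_zero_iff_mem]
    exact hP
  obtain ⟨d₀, h₀, hh⟩ := desc_class hmκ (by rwa [hdκ]) a1 hsepκ a2 a3 b3 h2κ hle hαF key
  obtain ⟨d₁, rfl⟩ := Ideal.Quotient.mk_surjective d₀
  obtain ⟨h₁, rfl⟩ := Ideal.Quotient.mk_surjective h₀
  refine ⟨d₁, h₁, ?_⟩
  rw [← Ideal.Quotient.eq_zero_iff_mem, map_sub, map_mul, map_pow, sub_eq_zero]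
  exact hh

end nsr

end Pool.Agent.Q45.ST
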