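import Pool.Agent.Q45.ST.NsR

/-!
# Independence of the divisors at good places
-/

set_option autoImplicit false
set_option linter.all false

open Polynomial IsDedekindDomain WithZero
open scoped Classical

namespace Pool.Agent.Q45.ST

open Pool.Agent.Q45.TW (cst ff ff_monic ff_natDegree ff_map)
open Pool.Agent.Q45.TT
open Pool.Agent.Y160.SE (IsPw)

/-- A product of some of the polynomials `g - c`. -/
def IsFull {k : Type} [Field k] (g : k[X]) (cs : List k) (a : k[X]) : Prop :=
  ∃ I : List k, I.Sublist cs ∧ a = (I.map fun c => g - C c).prod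

/-- The conditions on a good place. -/
structure GoodAt {k : Type} [Field k] (g : k[X]) (cs : List k) (b : k[X]) : Prop where
  irr : Irreducible b
  inert : Irreducible (b.comp (-g))
  sep : (b.comp (-g)).Separable
  ne : ∀ c ∈ cs, ¬ b ∣ X + C c
  ind : ∀ a : k[X], a.Monic → a ∣ (cs.map fun c => g - C c).prod → ∀ d h : k[X],
    b.comp (-g) ∣ a - d.comp (-g) * h ^ 2 → IsFull g cs a

/-- The independence of the divisors at the places over the good places. -/
def NsK {k : Type} [Field k] (g : k[X]) (cs : List k) (K : Type) [Field K] [Algebra k[X] K] : Prop :=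
  ∀ (L : Type) [Field L] [Algebra k[X] L] [Algebra K L] [IsScalarTower k[X] K L] (θ : L),
    aeval θ (ff g K) = 0 → IntermediateField.adjoin K {θ} = ⊤ →
    ∀ (A : Type) [CommRing A] [IsDedekindDomain A] [Algebra k[X] A] [Algebra A K]
      [IsScalarTower k[X] A K] [IsIntegralClosure A k[X] K]
      (R : Type) [CommRing R] [IsDedekindDomain R] [Algebra k[X] R] [Algebra R L]
      [IsScalarTower k[X] R L] [IsIntegralClosure R k[X] L] [Algebra A R],
      (∀ a : A, algebraMap K L (algebraMap A K a) = algebraMap R L (algebraMap A R a)) →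
      ∀ (P : HeightOneSpectrum R) (b : k[X]), GoodAt g cs b → algebraMap k[X] R b ∈ P.asIdeal →
      ∀ (a : k[X]), a.Monic → a ∣ (cs.map fun c => g - C c).prod →
      ∀ (α : R), algebraMap R L α = aeval θ (a.map (cst k K)) →
      ∀ (d : A) (h : R), α - algebraMap A R d * h ^ 2 ∈ P.asIdeal → IsFull g cs a

section basic

variable {k : Type} [Field k] {g : k[X]} {cs : List k}

/-- The contraction of a prime over `b`. -/
theorem mem_of_prime {R : Type} [CommRing R] [Algebra k[X] R] {P : Ideal R} [hP : P.IsPrime]
    {b q : k[X]} (hb : Irreducible b) (hbP : algebraMap k[X] R b ∈ P)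
    (hq : algebraMap k[X] R q ∈ P) : b ∣ q := by
  have hmax : (Ideal.span {b}).IsMaximal := PrincipalIdealRing.isMaximal_of_irreducible hb
  have h1 : Ideal.span {b} ≤ P.comap (algebraMap k[X] R) := by
    rw [Ideal.span_singleton_le_iff_mem]
    exact hbP
  have h3 : P.comap (algebraMap k[X] R) ≠ ⊤ := (Ideal.comap_isPrime _ _).ne_top
  have h4 := hmax.eq_of_le h3 h1
  rw [← Ideal.mem_span_singleton, h4]
  exact hq

/-- The divisors do not vanish at the good places. -/
theorem not_mem_pts {R : Type} [CommRing R] [Algebra k[X] R] {P : Ideal R} [hP : P.IsPrime]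
    {b : k[X]} (hb : Irreducible b) (hne : ∀ c ∈ cs, ¬ b ∣ X + C c)
    (hbP : algebraMap k[X] R b ∈ P) {θ : R} (hθ : eval₂ (cst k R) θ g = -algebraMap k[X] R X)
    {a : k[X]} (ha : a ∣ (cs.map fun c => g - C c).prod) : eval₂ (cst k R) θ a ∉ P := by
  intro hmem
  have h1 : eval₂ (cst k R) θ (cs.map fun c => g - C c).prod ∈ P := by
    obtain ⟨q, hq⟩ := ha
    rw [hq, eval₂_mul]
    exact P.mul_mem_right _ hmem
  have key : ∀ l : List k, (∀ c ∈ l, c ∈ cs) →
      eval₂ (cst k R) θ (l.map fun c => g - C c).prod ∉ P := by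
    intro l
    induction l with
    | nil =>
      intro _
      rw [List.map_nil, List.prod_nil, eval₂_one]
      exact fun h => hP.ne_top ((Ideal.eq_top_iff_one _).2 h)
    | cons c l ih =>
      intro hl
      rw [List.map_cons, List.prod_cons, eval₂_mul]
      intro h
      rcases hP.mem_or_mem h with h3 | h3
      · rw [eval₂_sub, hθ, eval₂_C] at h3
        have h4 : algebraMap k[X] R (X + C c) ∈ P := by
          have h5 : algebraMap k[X] R (X + C c) = -(-algebraMap k[X] R X - cst k R c) := by
            rw [map_add]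
            show _ + cst k R c = _
            ring
          rw [h5]
          exact neg_mem h3
        exact hne c (hl c List.mem_cons_self) (mem_of_prime hb hbP h4)
      · exact ih (fun i hi => hl i (List.mem_cons_of_mem _ hi)) h3
  exact key cs (fun c hc => hc) h1

/-- The root in the ring of integers. -/
theorem exists_root {K L : Type} [Field K] [Field L] [Algebra k[X] K] [Algebra k[X] L] [Algebra K L]
    [IsScalarTower k[X] K L] (hg : g.Monic) (hg0 : 0 < g.natDegree) {θ : L}
    (hθ : aeval θ (ff g K) = 0) (R : Type) [CommRing R] [Algebra k[X] R] [Algebra R L]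
    [IsScalarTower k[X] R L] [IsIntegralClosure R k[X] L] :
    ∃ θR : R, algebraMap R L θR = θ ∧ eval₂ (cst k R) θR g = -algebraMap k[X] R X ∧
      ∀ a : k[X], algebraMap R L (eval₂ (cst k R) θR a) = aeval θ (a.map (cst k K)) := by
  have hroot : algebraMap k[X] L X = -(eval₂ ((algebraMap K L).comp (cst k K)) θ g) := by
    have h3 := hθ
    rw [aeval_def, TW.eval₂_ff, ← IsScalarTower.algebraMap_apply k[X] K L] at h3
    linear_combination h3
  have hcc : (algebraMap K L).comp (cst k K) = (algebraMap R L).comp (cst k R) := by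
    refine RingHom.ext fun x => ?_
    show algebraMap K L (algebraMap k[X] K (C x)) = algebraMap R L (algebraMap k[X] R (C x))
    rw [← IsScalarTower.algebraMap_apply, ← IsScalarTower.algebraMap_apply]
  obtain ⟨θR, hθR⟩ : ∃ θR : R, algebraMap R L θR = θ := by
    apply (IsIntegralClosure.isIntegral_iff (A := R) (R := k[X])).1
    refine ⟨g.map C + C X, ?_, ?_⟩
    · refine (hg.map C).add_of_left ?_
      refine lt_of_le_of_lt degree_C_le ?_
      rw [degree_map_eq_of_injective C_injective]
      exact natDegree_pos_iff_degree_pos.1 hg0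
    · rw [eval₂_add, eval₂_map, eval₂_C, hroot]
      have h3 : (algebraMap k[X] L).comp C = (algebraMap K L).comp (cst k K) := by
        refine RingHom.ext fun x => ?_
        show algebraMap k[X] L (C x) = algebraMap K L (algebraMap k[X] K (C x))
        rw [← IsScalarTower.algebraMap_apply]
      rw [h3, add_neg_cancel]
  refine ⟨θR, hθR, ?_, fun a => ?_⟩
  · apply IsIntegralClosure.algebraMap_injective R k[X] L
    rw [hom_eval₂, hθR, ← hcc, map_neg, ← IsScalarTower.algebraMap_apply k[X] R L, hroot, neg_neg]
  · rw [hom_eval₂, hθR, ← hcc, aeval_def, eval₂_map]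

end basic

section step

variable {k : Type} [Field k] {g : k[X]} {cs : List k}

/-- **The independence in a quadratic extension.** -/
theorem NsK.step (h2 : (2 : k) ≠ 0) (hg : g.Monic) (hodd : Odd g.natDegree)
    (hd : derivative g ≠ 0) {K' K : Type} [Field K'] [Field K] [Algebra k[X] K'] [Algebra k[X] K]
    [Algebra K' K] [IsScalarTower k[X] K' K] {D : K'} {s : K} (hq : IsQuad D s) {m' m : ℕ}
    {s' : ℕ → K'} (htw : IsTower k K' m' s') {s₁ : ℕ → K} (htw₁ : IsTower k K m s₁)
    (ih : NsK g cs K') : NsK g cs K := by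
  intro L _ _ _ _ θ hθ htop A _ _ _ _ _ _ R _ _ _ _ _ _ _ hcomp P b hb hbP a ham had α hα d h hP
  have hirr' : Irreducible (ff g K') := htw.irr h2 hg hodd
  haveI := hq.fin
  have hirr : Irreducible (ff g K) := htw₁.irr h2 hg hodd
  have hsep' : (ff g K').Separable := sep_ff hirr' hd
  have hsep : (ff g K).Separable := sep_ff hirr hd
  have hm' : (ff g K').Monic := ff_monic hg hodd.pos
  have hm : (ff g K).Monic := ff_monic hg hodd.pos
  letI : Algebra K' L := ((algebraMap K L).comp (algebraMap K' K)).toAlgebra
  haveI : IsScalarTower K' K L := IsScalarTower.of_algebraMap_eq fun _ => rfl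
  haveI : IsScalarTower k[X] K' L := IsScalarTower.of_algebraMap_eq fun p => by
    show algebraMap k[X] L p = algebraMap K L (algebraMap K' K (algebraMap k[X] K' p))
    rw [← IsScalarTower.algebraMap_apply k[X] K' K, ← IsScalarTower.algebraMap_apply k[X] K L]
  obtain ⟨L', l1, l2, l3, l4, θ', l5, l6, l7, rfl, htop'⟩ := exists_sub (k := k) (K' := K') θ
  have hθ' : aeval θ' (ff g K') = 0 := by
    apply (algebraMap L' L).injective
    rw [← aeval_algebraMap_apply, ← aeval_map_algebraMap K, ff_alg, hθ, map_zero]
  have hfs' : FS k K' := htw.fs h2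
  have hfs : FS k K := htw₁.fs h2
  haveI : FiniteDimensional K' L' := TW.fin_of hm' hθ' htop'
  haveI : FiniteDimensional K L := TW.fin_of hm hθ htop
  have hfsL' : FS k L' := hfs'.trans (TW.fin_of hm' hθ' htop') (TW.sep_of hsep' hθ' htop')
  have hfsL : FS k L := hfs.trans (TW.fin_of hm hθ htop) (TW.sep_of hsep hθ htop)
  -- the rings
  obtain ⟨R', r1, r2, r3, r4, r5⟩ := exists_ic (k := k) L'
  obtain ⟨A', a1, a2, a3, a4, a5⟩ := exists_ic (k := k) K'
  obtain ⟨φR, hφR1, hφR2⟩ := exists_alg (k := k) (K' := L') (K := L) R' R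
  obtain ⟨φ, hφ1, hφ2⟩ := exists_alg (k := k) (K' := K') (K := K) A' A
  obtain ⟨ψ, hψ1, hψ2⟩ := exists_alg (k := k) (K' := K') (K := L') A' R'
  letI : Algebra R' R := φR.toAlgebra
  letI : Algebra A' A := φ.toAlgebra
  letI : Algebra A' R' := ψ.toAlgebra
  haveI : IsScalarTower k[X] R' R := IsScalarTower.of_algebraMap_eq fun p => (hφR2 p).symm
  haveI : IsScalarTower k[X] A' A := IsScalarTower.of_algebraMap_eq fun p => (hφ2 p).symm
  haveI : IsScalarTower k[X] A' R' := IsScalarTower.of_algebraMap_eq fun p => (hψ2 p).symm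
  have hRL : Function.Injective (algebraMap R L) := IsIntegralClosure.algebraMap_injective R k[X] L
  haveI : IsScalarTower k[X] A R := IsScalarTower.of_algebraMap_eq fun p => by
    apply hRL
    rw [← hcomp, ← IsScalarTower.algebraMap_apply k[X] A K, ← IsScalarTower.algebraMap_apply k[X] R L,
      ← IsScalarTower.algebraMap_apply k[X] K L]
  haveI := hfs.frac A
  haveI := hfs.finite A
  haveI := hfsL.frac R
  haveI := hfsL.finite R
  haveI := hfs'.ded A'
  haveI := hfs'.frac A'
  haveI := hfs'.finite A'
  haveI := hfsL'.ded R'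
  haveI := hfsL'.frac R'
  haveI := hfsL'.finite R'
  haveI : Module.Finite R' R := Module.Finite.of_restrictScalars_finite k[X] R' R
  haveI : Module.Finite A' A := Module.Finite.of_restrictScalars_finite k[X] A' A
  haveI : Module.Finite A' R' := Module.Finite.of_restrictScalars_finite k[X] A' R'
  haveI : Module.Finite A R := Module.Finite.of_restrictScalars_finite k[X] A R
  haveI : Algebra.IsIntegral R' R := Algebra.IsIntegral.of_finite R' R
  haveI : Algebra.IsIntegral A' A := Algebra.IsIntegral.of_finite A' A
  haveI : Algebra.IsIntegral A' R' := Algebra.IsIntegral.of_finite A' R'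
  haveI : Algebra.IsIntegral A R := Algebra.IsIntegral.of_finite A R
  haveI : Module.IsTorsionFree R' R := by
    rw [Module.isTorsionFree_iff_algebraMap_injective]
    exact tf_of (K' := L') (K := L) (IsFractionRing.injective R' L') hφR1
  haveI : Module.IsTorsionFree A' A := by
    rw [Module.isTorsionFree_iff_algebraMap_injective]
    exact tf_of (K' := K') (K := K) (IsFractionRing.injective A' K') hφ1
  haveI : Module.IsTorsionFree A' R' := by
    rw [Module.isTorsionFree_iff_algebraMap_injective]
    exact tf_of (K' := K') (K := L') (IsFractionRing.injective A' K') hψ1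
  haveI : Module.IsTorsionFree A R := by
    rw [Module.isTorsionFree_iff_algebraMap_injective]
    exact tf_of (K' := K) (K := L) (IsFractionRing.injective A K) fun a => (hcomp a).symm
  haveI : Module.IsTorsionFree k[X] R' := by
    rw [Module.isTorsionFree_iff_algebraMap_injective]
    exact hfsL'.injB R'
  haveI : Module.IsTorsionFree k[X] R := by
    rw [Module.isTorsionFree_iff_algebraMap_injective]
    exact hfsL.injB R
  haveI : Module.IsTorsionFree k[X] A' := by
    rw [Module.isTorsionFree_iff_algebraMap_injective]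
    exact hfs'.injB A'
  haveI : Module.IsTorsionFree k[X] A := by
    rw [Module.isTorsionFree_iff_algebraMap_injective]
    exact hfs.injB A
  -- the ranks
  have hfr' : Module.finrank A' R' = g.natDegree := by
    letI : Algebra A' L' := ((algebraMap K' L').comp (algebraMap A' K')).toAlgebra
    haveI : IsScalarTower A' K' L' := IsScalarTower.of_algebraMap_eq fun _ => rfl
    haveI : IsScalarTower A' R' L' := IsScalarTower.of_algebraMap_eq fun a => (hψ1 a).symm
    rw [← IsFractionRing.finrank_eq A' K' R' L', TW.finrank_of hirr' hm' hθ' htop',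
      ff_natDegree hg hodd.pos]
  have hfr : Module.finrank A R = g.natDegree := by
    letI : Algebra A L := ((algebraMap K L).comp (algebraMap A K)).toAlgebra
    haveI : IsScalarTower A K L := IsScalarTower.of_algebraMap_eq fun _ => rfl
    haveI : IsScalarTower A R L := IsScalarTower.of_algebraMap_eq fun a => hcomp a
    rw [← IsFractionRing.finrank_eq A K R L, TW.finrank_of hirr hm hθ htop,
      ff_natDegree hg hodd.pos]
  have hA2 : Module.finrank A' A = 2 := by
    letI : Algebra A' K := ((algebraMap K' K).comp (algebraMap A' K')).toAlgebra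
    haveI : IsScalarTower A' K' K := IsScalarTower.of_algebraMap_eq fun _ => rfl
    haveI : IsScalarTower A' A K := IsScalarTower.of_algebraMap_eq fun a => (hφ1 a).symm
    rw [← IsFractionRing.finrank_eq A' K' A K, hq.finrank]
  have hsqr : ∀ a : A', algebraMap A R (algebraMap A' A a) = algebraMap R' R (algebraMap A' R' a) := by
    intro a
    apply hRL
    have e1 : algebraMap R L (algebraMap R' R (algebraMap A' R' a)) =
        algebraMap L' L (algebraMap R' L' (algebraMap A' R' a)) := hφR1 _
    have e2 : algebraMap R' L' (algebraMap A' R' a) = algebraMap K' L' (algebraMap A' K' a) := hψ1 a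
    have e3 : algebraMap A K (algebraMap A' A a) = algebraMap K' K (algebraMap A' K' a) := hφ1 a
    rw [← hcomp, e3, e1, e2, ← IsScalarTower.algebraMap_apply K' L' L]
    rfl
  -- the element
  obtain ⟨θR, hθR, hθR2, hθR3⟩ := exists_root (R := R') hg hodd.pos hθ'
  set α' : R' := eval₂ (cst k R') θR a with hα'
  have hαα : algebraMap R' R α' = α := by
    apply hRL
    have e1 : algebraMap R L (algebraMap R' R α') = algebraMap L' L (algebraMap R' L' α') := hφR1 _
    rw [e1, hα', hθR3, hα, ← aeval_algebraMap_apply]
    have h6 : a.map (cst k K) = (a.map (cst k K')).map (algebraMap K' K) := by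
      rw [Polynomial.map_map]
      congr 1
      refine RingHom.ext fun x => ?_
      exact IsScalarTower.algebraMap_apply k[X] K' K (C x)
    rw [h6, aeval_map_algebraMap]
  have hbP' : algebraMap k[X] R' b ∈ (P.under R').asIdeal := by
    show algebraMap R' R (algebraMap k[X] R' b) ∈ P.asIdeal
    rwa [← IsScalarTower.algebraMap_apply]
  haveI := (P.under R').isPrime
  obtain ⟨d₁, h₁, hdh⟩ := ns_res (A₁ := A') (R₁ := R') (A := A) (R := R) h2 hsqr P hg hb.irr hbP θR
    hθR2 hb.inert hb.sep hodd hfr' hfr hA2 (fun v => htw.pow h2 A' v) (fun v => htw₁.pow h2 A v)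
    (α := α') (not_mem_pts hb.irr hb.ne hbP' hθR2 had) (d := d) (h := h) (by rw [hαα]; exact hP)
  exact ih L' θ' hθ' htop' A' R' (fun a => (hψ1 a).symm) (P.under R') b hb hbP' a ham had α'
    (hθR3 a) d₁ h₁ hdh

end step

end Pool.Agent.Q45.ST
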