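import Pool.Agent.Q45.ST.Bas

/-!
# Ramified places
-/

set_option autoImplicit false
set_option linter.all false

open Polynomial IsDedekindDomain WithZero
open scoped Classical

namespace Pool.Agent.Q45.ST

open Pool.Agent.Q45.TW (cst ff ff_monic ff_natDegree ff_map IsBase)
open Pool.Agent.Q45.TT
open Pool.Agent.Y160.SE (IsPw)

section ind

variable {k : Type} [Field k]

/-- The induction principle for the base curve. -/
theorem base_ind (h2 : (2 : k) ≠ 0) {P : k → Prop}
    {M : ∀ (K : Type) [Field K] [Algebra k[X] K], Prop}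
    (base : ∀ (K : Type) [Field K] [Algebra k[X] K], IsFractionRing k[X] K → M K)
    (step : ∀ (K' K : Type) [Field K'] [Field K] [Algebra k[X] K'] [Algebra k[X] K] [Algebra K' K]
      [IsScalarTower k[X] K' K] (c : k) (s : K), P c → IsQuad (algebraMap k[X] K' (X + C c)) s →
      Function.Injective (algebraMap k[X] K') → M K' → M K) :
    ∀ (cs : List k), (∀ c ∈ cs, P c) → ∀ (K : Type) [Field K] [Algebra k[X] K] (y : k → K),
      IsBase k cs K y → M K := by
  intro cs
  induction cs with
  | nil =>
    intro _ K _ _ y h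
    refine base K (frac_of_gen h.inj ?_)
    have h1 := h.gen
    have h3 : y '' {c | c ∈ ([] : List k)} = ∅ := by simp
    rw [h3, Set.union_empty] at h1
    exact h1
  | cons c cs ih =>
    intro hP K _ _ y h
    set S := Subfield.closure (Set.range (algebraMap k[X] K) ∪ y '' {c | c ∈ cs}) with hS
    have hpS : ∀ p, algebraMap k[X] K p ∈ S := fun p => Subfield.subset_closure (Or.inl ⟨p, rfl⟩)
    have hsS : ∀ a ∈ cs, y a ∈ S := fun j hj => Subfield.subset_closure (Or.inr ⟨j, hj, rfl⟩)
    by_cases hm : y c ∈ S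
    · refine ih (fun a ha => hP a (List.mem_cons_of_mem _ ha)) K y ⟨h.inj, fun i hi =>
        h.sq i (List.mem_cons_of_mem _ hi), ?_⟩
      rw [eq_top_iff, ← h.gen, Subfield.closure_le]
      rintro x (⟨p, rfl⟩ | ⟨j, hj, rfl⟩)
      · exact hpS p
      · rcases List.mem_cons.1 hj with rfl | h3
        · exact hm
        · exact hsS j h3
    · letI : Algebra k[X] S := ((algebraMap k[X] K).codRestrict S hpS).toAlgebra
      haveI : IsScalarTower k[X] S K := IsScalarTower.of_algebraMap_eq fun p => rfl
      let s' : k → S := fun j => if hj : y j ∈ S then ⟨y j, hj⟩ else 0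
      have hs' : ∀ j ∈ cs, (s' j : K) = y j := by
        intro j hj
        show ((if hj : y j ∈ S then (⟨y j, hj⟩ : S) else 0 : S) : K) = y j
        rw [dif_pos (hsS j hj)]
      have himg : S.subtype '' (Set.range (algebraMap k[X] S) ∪ s' '' {c | c ∈ cs}) =
          Set.range (algebraMap k[X] K) ∪ y '' {c | c ∈ cs} := by
        rw [Set.image_union]
        congr 1
        · rw [← Set.range_comp]
          rfl
        · ext x
          constructor
          · rintro ⟨_, ⟨j, hj, rfl⟩, rfl⟩
            exact ⟨j, hj, (hs' j hj).symm⟩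
          · rintro ⟨j, hj, rfl⟩
            exact ⟨s' j, ⟨j, hj, rfl⟩, hs' j hj⟩
      have htw : IsBase k cs S s' := by
        refine ⟨fun p q hpq => h.inj (congrArg S.subtype hpq), fun i hi => ?_, ?_⟩
        · apply Subtype.ext
          show (s' i : K) ^ 2 = algebraMap k[X] K (X + C i)
          rw [hs' i hi]
          exact h.sq i (List.mem_cons_of_mem _ hi)
        · rw [eq_top_iff]
          rintro x -
          apply mem_closure_sub
          rw [himg]
          exact x.2
      have h2S : (2 : S) ≠ 0 := by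
        have h3 : (2 : S) = algebraMap k[X] S (C 2) := by
          rw [show (C 2 : k[X]) = 2 by rw [map_ofNat], map_ofNat]
        rw [h3]
        intro h4
        have h5 : (C 2 : k[X]) = 0 := htw.inj (by rw [h4, map_zero])
        exact h2 (C_eq_zero.1 h5)
      refine step S K c (y c) (hP c List.mem_cons_self) ⟨h2S, ?_, fun x hx => hm ?_, ?_⟩ htw.inj
        (ih (fun a ha => hP a (List.mem_cons_of_mem _ ha)) S s' htw)
      · rw [h.sq c List.mem_cons_self, ← IsScalarTower.algebraMap_apply k[X] S K]
      · rw [← hx]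
        exact x.2
      · rw [eq_top_iff]
        rintro x -
        have h3 : (⊤ : Subfield K) ≤ (IntermediateField.adjoin S {y c}).toSubfield := by
          rw [← h.gen, Subfield.closure_le]
          rintro x (⟨p, rfl⟩ | ⟨j, hj, rfl⟩)
          · exact IntermediateField.algebraMap_mem _ (algebraMap k[X] S p)
          · rcases List.mem_cons.1 hj with rfl | h3
            · exact IntermediateField.mem_adjoin_simple_self S _
            · exact IntermediateField.algebraMap_mem _ (⟨y j, hsS j h3⟩ : S)
        exact h3 (Subfield.mem_top x)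

/-- The base curve is a tower. -/
theorem base_tower (h2 : (2 : k) ≠ 0) {cs : List k} {K : Type} [Field K] [Algebra k[X] K]
    {y : k → K} (h : IsBase k cs K y) : ∃ m s, IsTower k K m s := by
  refine base_ind h2 (P := fun _ => True) (M := fun K _ _ => ∃ m s, IsTower k K m s)
    (fun K _ _ hK => ⟨0, _, tower_zero hK⟩) ?_ cs (fun _ _ => trivial) K y h
  intro K' K _ _ _ _ _ _ c s _ hq _ ih
  obtain ⟨m, s', htw⟩ := ih
  exact ⟨_, _, htw.snoc hq⟩

end ind

/-- The fibres over the places at which `D` has odd valuation are separable. -/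
def OddSep {k : Type} [Field k] (g : k[X]) (K : Type) [Field K] [Algebra k[X] K] (D : K) : Prop :=
  ∀ (A : Type) [CommRing A] [IsDedekindDomain A] [Algebra k[X] A] [Algebra A K]
    [IsScalarTower k[X] A K] [IsFractionRing A K] [IsIntegralClosure A k[X] K]
    (v : HeightOneSpectrum A), ¬ IsPw 2 (v.valuation K D) →
    ∃ b : k[X], Irreducible b ∧ (b.comp (-g)).Separable ∧ algebraMap k[X] A b ∈ v.asIdeal

/-- The fibres over the ramified places are separable. -/
def RamS {k : Type} [Field k] (g : k[X]) (K : Type) [Field K] [Algebra k[X] K] : Prop :=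
  ∀ (A : Type) [CommRing A] [IsDedekindDomain A] [Algebra k[X] A] [Algebra A K]
    [IsScalarTower k[X] A K] [IsFractionRing A K] [IsIntegralClosure A k[X] K]
    (v : HeightOneSpectrum A) (b : k[X]), Irreducible b →
    algebraMap k[X] A b ∈ v.asIdeal ^ 2 → (b.comp (-g)).Separable

section ram

variable {k : Type} [Field k] {g : k[X]}

theorem OddIn.sep {K : Type} [Field K] [Algebra k[X] K] {D : K} (h : OddIn g K D) :
    OddSep g K D := by
  intro A _ _ _ _ _ _ _ v hv
  obtain ⟨b, hb, -, hs, hbv⟩ := h A v hv
  exact ⟨b, hb, hs, hbv⟩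

theorem oddSep_tc {c : k} (hs : (g - C c).Separable) (K : Type) [Field K] [Algebra k[X] K] :
    OddSep g K (algebraMap k[X] K (X + C c)) := by
  intro A _ _ _ _ _ _ _ v hv
  refine ⟨X + C c, ?_, ?_, ?_⟩
  · rw [show (C c : k[X]) = -C (-c) by rw [C_neg, neg_neg], ← sub_eq_add_neg]
    exact irreducible_X_sub_C _
  · have h6 : (X + C c : k[X]).comp (-g) = -(g - C c) := by
      rw [add_comp, X_comp, C_comp]
      ring
    rw [h6, neg_eq_neg_one_mul]
    exact Separable.unit_mul isUnit_one.neg hs
  · by_contra hcon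
    apply hv
    rw [IsScalarTower.algebraMap_apply k[X] A K, v.valuation_of_algebraMap,
      (v.intValuation_eq_one_iff).2 hcon]
    exact ⟨1, (one_pow 2).symm⟩

theorem sep_of_assoc {b b' : k[X]} (hb : Irreducible b) (hb' : Irreducible b')
    (hs : (b'.comp (-g)).Separable) (h : b ∣ b') : (b.comp (-g)).Separable := by
  refine hs.of_dvd ?_
  obtain ⟨q, rfl⟩ := h
  rw [mul_comp]
  exact dvd_mul_right _ _

theorem RamS.base {K : Type} [Field K] [Algebra k[X] K] (hK : IsFractionRing k[X] K) : RamS g K := by
  intro A _ _ _ _ _ _ _ v b hb hbv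
  exfalso
  have hsurj : Function.Surjective (algebraMap k[X] A) := by
    intro x
    have h1 : IsIntegral k[X] (algebraMap A K x) :=
      (IsIntegralClosure.isIntegral k[X] K x).algebraMap
    obtain ⟨p, hp⟩ := (IsIntegrallyClosed.isIntegral_iff (R := k[X]) (K := K)).1 h1
    refine ⟨p, IsFractionRing.injective A K ?_⟩
    rw [← hp, ← IsScalarTower.algebraMap_apply]
  have hinj : Function.Injective (algebraMap k[X] A) := by
    intro p q hpq
    apply IsFractionRing.injective k[X] K
    rw [IsScalarTower.algebraMap_apply k[X] A K, hpq, ← IsScalarTower.algebraMap_apply]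
  haveI := v.isPrime
  have hbv0 : algebraMap k[X] A b ∈ v.asIdeal := Ideal.pow_le_self two_ne_zero hbv
  have hbv1 : b ∈ v.asIdeal.comap (algebraMap k[X] A) := hbv0
  have hmax : (Ideal.span {b}).IsMaximal := PrincipalIdealRing.isMaximal_of_irreducible hb
  have h4 : Ideal.span {b} = v.asIdeal.comap (algebraMap k[X] A) := hmax.eq_of_le
    (Ideal.comap_isPrime _ _).ne_top (by
      rw [Ideal.span_singleton_le_iff_mem]
      exact hbv1)
  have h5 : v.asIdeal = (Ideal.span {b}).map (algebraMap k[X] A) := by
    rw [h4, Ideal.map_comap_of_surjective _ hsurj]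
  rw [h5, ← Ideal.map_pow, Ideal.span_singleton_pow] at hbv
  obtain ⟨x, hx, hxb⟩ := (Ideal.mem_map_iff_of_surjective _ hsurj).1 hbv
  rw [hinj hxb, Ideal.mem_span_singleton] at hx
  exact hb.not_isUnit (hb.squarefree b (by rw [← pow_two]; exact hx))

theorem RamS.step (h2 : (2 : k) ≠ 0) {K' K : Type} [Field K'] [Field K] [Algebra k[X] K']
    [Algebra k[X] K] [Algebra K' K] [IsScalarTower k[X] K' K] {D : K'} {s : K}
    (hq : IsQuad D s) (hfs' : FS k K') (hos : OddSep g K' D) (ih : RamS g K') : RamS g K := by
  intro A _ _ _ _ _ _ _ v b hb hbv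
  haveI := hq.fin
  haveI := hq.separable
  have hfs : FS k K := hfs'.trans hq.fin hq.separable
  obtain ⟨A', b1, b2, b3, b4, b5⟩ := exists_ic (k := k) K'
  obtain ⟨φ, hφ1, hφ2⟩ := exists_alg (k := k) (K' := K') (K := K) A' A
  letI : Algebra A' A := φ.toAlgebra
  haveI : IsScalarTower k[X] A' A := IsScalarTower.of_algebraMap_eq fun p => (hφ2 p).symm
  haveI := hfs.finite A
  haveI := hfs'.ded A'
  haveI := hfs'.frac A'
  haveI : Module.Finite A' A := Module.Finite.of_restrictScalars_finite k[X] A' A
  haveI : Algebra.IsIntegral A' A := Algebra.IsIntegral.of_finite A' A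
  haveI : Module.IsTorsionFree A' A := by
    rw [Module.isTorsionFree_iff_algebraMap_injective]
    exact tf_of (K' := K') (K := K) (IsFractionRing.injective A' K') hφ1
  letI : Algebra A' K := ((algebraMap K' K).comp (algebraMap A' K')).toAlgebra
  haveI : IsScalarTower A' K' K := IsScalarTower.of_algebraMap_eq fun _ => rfl
  haveI : IsScalarTower A' A K := IsScalarTower.of_algebraMap_eq fun a => (hφ1 a).symm
  set v' := v.under A' with hv'
  by_cases hev : IsPw 2 (v'.valuation K' D)
  · -- the place is unramified over `K'`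
    refine ih A' v' b hb ?_
    have hone := ram_one (A := A') (B := A) (L := K) hq (by
      have h3 : (2 : A') = algebraMap k[X] A' (C 2) := by
        rw [show (C 2 : k[X]) = 2 by rw [map_ofNat], map_ofNat]
      rw [h3]
      exact (isUnit_C.2 (IsUnit.mk0 _ h2)).map _) v hev
    have h6 := (v.intValuation_le_pow_iff_mem _ 2).2 hbv
    have h7 := val_under (A := A') (L := K) v (algebraMap k[X] K' b)
    rw [hone, pow_one, ← IsScalarTower.algebraMap_apply k[X] K' K,
      IsScalarTower.algebraMap_apply k[X] A K, v.valuation_of_algebraMap,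
      IsScalarTower.algebraMap_apply k[X] A' K', ← hv', v'.valuation_of_algebraMap] at h7
    rw [← v'.intValuation_le_pow_iff_mem, ← h7]
    exact h6
  · obtain ⟨b', hb', hs, hbv'⟩ := hos A' v' hev
    have hbm : algebraMap k[X] A' b ∈ v'.asIdeal := by
      have h1 : algebraMap k[X] A b ∈ v.asIdeal := Ideal.pow_le_self two_ne_zero hbv
      rw [IsScalarTower.algebraMap_apply k[X] A' A] at h1
      exact h1
    haveI := v'.isPrime
    exact sep_of_assoc hb hb' hs (mem_of_prime hb hbm hbv')

/-- The fibres over the ramified places of the base curve. -/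
theorem RamS.ofBase (h2 : (2 : k) ≠ 0) {cs : List k} (hs : ∀ c ∈ cs, (g - C c).Separable)
    {K : Type} [Field K] [Algebra k[X] K] {y : k → K} (h : IsBase k cs K y) : RamS g K := by
  refine (base_ind h2 (P := fun c => (g - C c).Separable)
    (M := fun K _ _ => RamS g K ∧ ∃ m s, IsTower k K m s)
    (fun K _ _ hK => ⟨RamS.base hK, 0, _, tower_zero hK⟩) ?_ cs hs K y h).1
  intro K' K _ _ _ _ _ _ c s hc hq _ ih
  obtain ⟨h1, m, s', htw⟩ := ih
  exact ⟨RamS.step h2 hq (htw.fs h2) (oddSep_tc hc K') h1, _, _, htw.snoc hq⟩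

end ram

end Pool.Agent.Q45.ST
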