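import Pool.Agent.Q45.ST.Fld
import Pool.Agent.Q45.TT.RegT

/-!
# Residue fields over an inert place
-/

set_option autoImplicit false
set_option linter.all false

open Polynomial IsDedekindDomain WithZero
open scoped Classical

namespace Pool.Agent.Q45.ST

open Pool.Agent.Q45.TW (cst ff ff_monic ff_natDegree ff_map)
open Pool.Agent.Q45.TT

section res

variable {k : Type} [Field k] {A R : Type} [CommRing A] [IsDedekindDomain A] [CommRing R]
  [IsDedekindDomain R] [Algebra k[X] A] [Algebra k[X] R] [Algebra A R] [IsScalarTower k[X] A R]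
  [Module.Finite k[X] A] [Module.Finite k[X] R] [Module.Finite A R] [Module.IsTorsionFree A R]
  [Module.IsTorsionFree k[X] A] [Module.IsTorsionFree k[X] R]

/-- The residue fields over an inert place. -/
theorem res_data (P : HeightOneSpectrum R) (v : HeightOneSpectrum A) {b g : k[X]} (hg : g.Monic)
    (hb : Irreducible b) (hbP : algebraMap k[X] R b ∈ P.asIdeal) (θ : R)
    (hθ : eval₂ (cst k R) θ g = -algebraMap k[X] R X) (hirr : Irreducible (b.comp (-g)))
    (hodd : Odd g.natDegree) (hn : Module.finrank A R = g.natDegree) {j : ℕ}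
    (hj : v.asIdeal.inertiaDeg k[X] = 2 ^ j)
    [v.asIdeal.IsMaximal] [P.asIdeal.IsMaximal] [P.asIdeal.LiesOver v.asIdeal] :
    letI : Field (A ⧸ v.asIdeal) := Ideal.Quotient.field _
    letI : Field (R ⧸ P.asIdeal) := Ideal.Quotient.field _
    Irreducible (ff g (A ⧸ v.asIdeal)) ∧
      aeval (Ideal.Quotient.mk P.asIdeal θ) (ff g (A ⧸ v.asIdeal)) = 0 ∧
      IntermediateField.adjoin (A ⧸ v.asIdeal) {Ideal.Quotient.mk P.asIdeal θ} = ⊤ := by
  letI iκ : Field (A ⧸ v.asIdeal) := Ideal.Quotient.field _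
  letI iF : Field (R ⧸ P.asIdeal) := Ideal.Quotient.field _
  haveI : Algebra.IsIntegral k[X] A := Algebra.IsIntegral.of_finite k[X] A
  haveI : Algebra.IsIntegral A R := Algebra.IsIntegral.of_finite A R
  set p := v.under k[X] with hp
  haveI : p.asIdeal.IsMaximal := p.isMaximal
  haveI hlo : v.asIdeal.LiesOver p.asIdeal := ⟨rfl⟩
  letI : Field (k[X] ⧸ p.asIdeal) := Ideal.Quotient.field _
  have hbv : algebraMap k[X] A b ∈ v.asIdeal := by
    rw [Ideal.LiesOver.over (P := P.asIdeal) (p := v.asIdeal)]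
    show algebraMap A R (algebraMap k[X] A b) ∈ P.asIdeal
    rwa [← IsScalarTower.algebraMap_apply]
  have hbp : b ∈ p.asIdeal := hbv
  have hpb : p.asIdeal = Ideal.span {b} := by
    have h1 : Ideal.span {b} ≤ p.asIdeal := by
      rw [Ideal.span_singleton_le_iff_mem]
      exact hbp
    haveI : (Ideal.span {b}).IsMaximal := PrincipalIdealRing.isMaximal_of_irreducible hb
    exact (Ideal.IsMaximal.eq_of_le inferInstance p.isPrime.ne_top h1).symm
  -- the finiteness
  haveI hfin : Module.Finite (A ⧸ v.asIdeal) (R ⧸ P.asIdeal) := by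
    haveI : Module.Finite A (R ⧸ P.asIdeal) := inferInstance
    exact Module.Finite.of_restrictScalars_finite A (A ⧸ v.asIdeal) (R ⧸ P.asIdeal)
  haveI hfin2 : Module.Finite (k[X] ⧸ p.asIdeal) (A ⧸ v.asIdeal) := by
    haveI : Module.Finite k[X] (A ⧸ v.asIdeal) := inferInstance
    exact Module.Finite.of_restrictScalars_finite k[X] (k[X] ⧸ p.asIdeal) (A ⧸ v.asIdeal)
  set η : R ⧸ P.asIdeal := Ideal.Quotient.mk _ θ with hη
  -- the polynomial
  have hm : (ff g (A ⧸ v.asIdeal)).Monic := ff_monic hg hodd.pos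
  have hdeg : (ff g (A ⧸ v.asIdeal)).natDegree = g.natDegree := ff_natDegree hg hodd.pos
  have hcst : (algebraMap (A ⧸ v.asIdeal) (R ⧸ P.asIdeal)).comp (cst k (A ⧸ v.asIdeal)) =
      (Ideal.Quotient.mk P.asIdeal).comp (cst k R) := by
    refine RingHom.ext fun x => ?_
    show algebraMap (A ⧸ v.asIdeal) (R ⧸ P.asIdeal) (Ideal.Quotient.mk v.asIdeal (cst k A x)) =
      Ideal.Quotient.mk P.asIdeal (cst k R x)
    have h3 : cst k R x = algebraMap A R (cst k A x) := IsScalarTower.algebraMap_apply k[X] A R _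
    rw [h3]
    rfl
  have hX : algebraMap (A ⧸ v.asIdeal) (R ⧸ P.asIdeal) (algebraMap k[X] (A ⧸ v.asIdeal) X) =
      Ideal.Quotient.mk P.asIdeal (algebraMap k[X] R X) := by
    show algebraMap (A ⧸ v.asIdeal) (R ⧸ P.asIdeal) (Ideal.Quotient.mk v.asIdeal
      (algebraMap k[X] A X)) = _
    rw [IsScalarTower.algebraMap_apply k[X] A R]
    rfl
  have hroot : aeval η (ff g (A ⧸ v.asIdeal)) = 0 := by
    rw [aeval_def, TW.eval₂_ff, hcst, hX, hη, ← hom_eval₂, hθ, map_neg, neg_add_cancel]
  -- the degree of the minimal polynomial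
  have hint : IsIntegral (A ⧸ v.asIdeal) η := IsIntegral.of_finite _ _
  set E := IntermediateField.adjoin (A ⧸ v.asIdeal) {η} with hE
  have hEm : Module.finrank (A ⧸ v.asIdeal) E = (minpoly (A ⧸ v.asIdeal) η).natDegree :=
    IntermediateField.adjoin.finrank hint
  have hdvd : g.natDegree ∣ (minpoly (A ⧸ v.asIdeal) η).natDegree := by
    letI : Algebra k A := ((algebraMap k[X] A).comp C).toAlgebra
    haveI : IsScalarTower k k[X] A := IsScalarTower.of_algebraMap_eq fun x => rfl
    haveI : IsScalarTower k (k[X] ⧸ p.asIdeal) (A ⧸ v.asIdeal) :=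
      IsScalarTower.of_algebraMap_eq fun x => rfl
    have h1 : Module.finrank k (k[X] ⧸ p.asIdeal) = b.natDegree := by
      rw [hpb]
      exact finrank_quotient_span_eq_natDegree
    haveI : FiniteDimensional k (k[X] ⧸ p.asIdeal) := by
      apply Module.finite_of_finrank_pos
      rw [h1]
      exact hb.natDegree_pos
    have h3 : Module.finrank (k[X] ⧸ p.asIdeal) (A ⧸ v.asIdeal) = 2 ^ j := by
      rw [← hj, Ideal.inertiaDeg_eq_of_isMaximal p.asIdeal v.asIdeal]
    have h4 : Module.finrank k (A ⧸ v.asIdeal) = b.natDegree * 2 ^ j := by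
      rw [← Module.finrank_mul_finrank k (k[X] ⧸ p.asIdeal) (A ⧸ v.asIdeal), h1, h3]
    haveI : FiniteDimensional k (A ⧸ v.asIdeal) := Module.Finite.trans (k[X] ⧸ p.asIdeal) _
    letI : Algebra k E := ((algebraMap (A ⧸ v.asIdeal) E).comp (algebraMap k _)).toAlgebra
    haveI : IsScalarTower k (A ⧸ v.asIdeal) E := IsScalarTower.of_algebraMap_eq fun x => rfl
    have h5 : Module.finrank k E = b.natDegree * 2 ^ j * (minpoly (A ⧸ v.asIdeal) η).natDegree := by
      rw [← Module.finrank_mul_finrank k (A ⧸ v.asIdeal) E, h4, hEm]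
    haveI : FiniteDimensional (A ⧸ v.asIdeal) E := IntermediateField.adjoin.finiteDimensional hint
    haveI : FiniteDimensional k E := Module.Finite.trans (A ⧸ v.asIdeal) _
    set ηE : E := IntermediateField.AdjoinSimple.gen (A ⧸ v.asIdeal) η with hηE
    have hrt : aeval ηE (b.comp (-g)) = 0 := by
      apply (algebraMap E (R ⧸ P.asIdeal)).injective
      rw [map_zero, aeval_def, hom_eval₂]
      have h6 : (algebraMap E (R ⧸ P.asIdeal)).comp (algebraMap k E) =
          (Ideal.Quotient.mk P.asIdeal).comp (cst k R) := by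
        rw [← hcst]
        refine RingHom.ext fun x => ?_
        rfl
      have h7 : algebraMap E (R ⧸ P.asIdeal) ηE = η := rfl
      rw [h6, h7, hη, ← hom_eval₂, Ideal.Quotient.eq_zero_iff_mem]
      have h8 : eval₂ (cst k R) θ (b.comp (-g)) = algebraMap k[X] R b := by
        rw [eval₂_comp, eval₂_neg, hθ, neg_neg]
        have h9 := hom_eval₂ b C (algebraMap k[X] R) X
        rw [eval₂_C_X] at h9
        exact h9.symm
      rw [h8]
      exact hbP
    have hmin : (minpoly k ηE).natDegree = b.natDegree * g.natDegree := by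
      have h6 : Associated (minpoly k ηE) (b.comp (-g)) := by
        have hint : IsIntegral k ηE := IsIntegral.of_finite k ηE
        exact (minpoly.irreducible hint).associated_of_dvd hirr (minpoly.dvd k ηE hrt)
      rw [natDegree_eq_of_degree_eq (degree_eq_degree_of_associated h6), natDegree_comp,
        natDegree_neg]
    have h8 : (minpoly k ηE).natDegree ∣ Module.finrank k E := by
      have hint : IsIntegral k ηE := IsIntegral.of_finite k ηE
      rw [← IntermediateField.adjoin.finrank hint]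
      exact ⟨_, (Module.finrank_mul_finrank k (IntermediateField.adjoin k {ηE}) E).symm⟩
    rw [hmin, h5, mul_assoc] at h8
    have h9 := Nat.dvd_of_mul_dvd_mul_left hb.natDegree_pos h8
    exact ((Nat.coprime_two_right.2 hodd).pow_right j).dvd_of_dvd_mul_left h9
  have hmd : minpoly (A ⧸ v.asIdeal) η ∣ ff g (A ⧸ v.asIdeal) := minpoly.dvd _ η hroot
  have hmeq : minpoly (A ⧸ v.asIdeal) η = ff g (A ⧸ v.asIdeal) := by
    refine (eq_of_monic_of_dvd_of_natDegree_le (minpoly.monic hint) hm hmd ?_).symm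
    rw [hdeg]
    exact Nat.le_of_dvd (minpoly.natDegree_pos hint) hdvd
  refine ⟨hmeq ▸ minpoly.irreducible hint, hroot, ?_⟩
  -- the generation
  have h10 := (inertia_le (A := A) (B := R) P).1
  rw [hn, Ideal.inertiaDeg_eq_of_isMaximal v.asIdeal P.asIdeal] at h10
  apply IntermediateField.eq_of_le_of_finrank_le le_top
  rw [IntermediateField.finrank_top', hEm, hmeq, hdeg]
  exact h10

end res

end Pool.Agent.Q45.ST
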